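import Pool.Agent.Helper77.Sat.Defs

/-!
# Module N: number theory
-/

namespace Pool.Agent.Helper77.Sat

open Pool.Agent.Helper2

variable {R : Type} [CommRing R]

section
variable {S : Type} [CommRing S] (φ : R →+* S)

lemma map_dd (A : R) : φ (dd A) = dd (φ A) := by
  simp only [dd, map_sub, map_pow]

lemma map_ca (A : R) (p : Bool) : φ (ca A p) = ca (φ A) p := by
  cases p <;> simp [ca]

lemma map_cb (A : R) (p : Bool) : φ (cb A p) = cb (φ A) p := by
  cases p <;> simp [cb]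

lemma map_wt (d : R) (b : Bool) : φ (wt d b) = wt (φ d) b := by
  cases b <;> simp [wt]

lemma map_wti (d : R) (b : Bool) : φ (wti d b) = wti (φ d) b := by
  cases b <;> simp [wti]

lemma map_pCup0 (A : R) (ψ : Fn R) (l : List Bool) :
    φ (pCup0 (dd A) ψ l) = pCup0 (dd (φ A)) (fun l => φ (ψ l)) l := by
  rcases l with _ | ⟨a, _ | ⟨b, _ | ⟨c, l⟩⟩⟩
  · simp [pCup0]
  · simp [pCup0]
  · simp [pCup0]
  · simp only [pCup0]
    split_ifs
    · rw [map_mul, map_wt, map_dd]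
    · rw [map_zero]

lemma map_pCap0 (A : R) (ψ : Fn R) (l : List Bool) :
    φ (pCap0 (dd A) ψ l) = pCap0 (dd (φ A)) (fun l => φ (ψ l)) l := by
  rcases l with _ | ⟨a, l⟩
  · simp [pCap0]
  · simp only [pCap0]
    rw [map_mul, map_wti, map_dd, map_add]
    split_ifs
    · rfl
    · rw [map_zero]

lemma map_x0 (A : R) (p : Bool) (ψ : Fn R) (l : List Bool) :
    φ (x0 A p ψ l) = x0 (φ A) p (fun l => φ (ψ l)) l := by
  rcases l with _ | ⟨a, _ | ⟨b, _ | ⟨c, l⟩⟩⟩
  · simp [x0]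
  · simp [x0]
  · simp [x0]
  · simp only [x0]
    split_ifs
    · rw [map_add, map_mul, map_mul, map_ca, map_cb, map_pCup0]
      congr 3
      funext l
      exact map_pCap0 φ A ψ l
    · rw [map_zero]

lemma map_lift {T : Fn R → Fn R} {T' : Fn S → Fn S}
    (h : ∀ ψ l, φ (T ψ l) = T' (fun l => φ (ψ l)) l) (i : ℕ) :
    ∀ ψ l, φ (lift T i ψ l) = lift T' i (fun l => φ (ψ l)) l := by
  induction i with
  | zero => intro ψ l; simpa using h ψ l
  | succ i ih =>
    intro ψ l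
    cases l with
    | nil => simp
    | cons x l => simpa using ih (fun l' => ψ (x :: l')) l

lemma map_act (A : R) (s : Slice) (ψ : Fn R) (l : List Bool) :
    φ (act A s ψ l) = act (φ A) s (fun l => φ (ψ l)) l := by
  cases s with
  | cup i u => exact map_lift φ (map_pCup0 φ A) i ψ l
  | cap i => exact map_lift φ (map_pCap0 φ A) i ψ l
  | cross i p => exact map_lift φ (map_x0 φ A p) i ψ l

lemma map_run (A : R) (w : List Slice) : ∀ (ψ : Fn R) (l : List Bool),
    φ (run A w ψ l) = run (φ A) w (fun l => φ (ψ l)) l := by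
  induction w with
  | nil => intro ψ l; rfl
  | cons s w ih =>
    intro ψ l
    simp only [run, LinearMap.comp_apply]
    rw [ih]
    have e : (fun l => φ (act A s ψ l)) = act (φ A) s (fun l => φ (ψ l)) := by
      funext l
      exact map_act φ A s ψ l
    rw [e]

lemma map_single (p : List Bool) : (fun l => φ ((Pi.single p 1 : Fn R) l)) =
    (Pi.single p 1 : Fn S) := by
  classical
  funext l
  by_cases h : l = p
  · subst h
    rw [Pi.single_eq_same, Pi.single_eq_same, map_one]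
  · rw [Pi.single_eq_of_ne h, Pi.single_eq_of_ne h, map_zero]

theorem run_map (A : R) (w : List Slice) (n : ℕ) :
    φ (trw g1 n (run A w)) = trw g1 n (run (φ A) w) := by
  unfold trw
  rw [map_sum]
  refine Finset.sum_congr rfl fun p _ => ?_
  rw [map_mul, map_run, map_single]
  congr 1
  unfold g1
  split_ifs
  · rw [map_one]
  · rw [map_zero]

end

open Polynomial in
/-- the trace of a knot pattern modulo `1 - z` -/
theorem congruence (z : ℂ) (hz : IsPrimitiveRoot z 5) (n : ℕ) (w : List Slice) (W : ℤ)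
    (h : trw (g1 : List Bool → ZMod 5) n (run (-1 : ZMod 5) w) = (W : ZMod 5) ^ 2) :
    trw g1 n (run (-z) w) ∈ Algebra.adjoin ℤ {z} ∧
    ∃ γ ∈ Algebra.adjoin ℤ {z}, trw g1 n (run (-z) w) = (W : ℂ) ^ 2 + (1 - z) * γ := by
  set P : ℤ[X] := trw g1 n (run (X : ℤ[X]) w) with hP
  have hzm : z ∈ Algebra.adjoin ℤ {z} := Algebra.subset_adjoin rfl
  have h1 : trw g1 n (run (-z) w) = aeval (-z) P := by
    have := run_map (aeval (-z) : ℤ[X] →ₐ[ℤ] ℂ).toRingHom (X : ℤ[X]) w n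
    have e : (aeval (-z) : ℤ[X] →ₐ[ℤ] ℂ).toRingHom X = -z := by simp
    rw [e] at this
    exact this.symm
  have h2 : ((P.eval (-1) : ℤ) : ZMod 5) = (W : ZMod 5) ^ 2 := by
    have := run_map ((Int.castRingHom (ZMod 5)).comp (evalRingHom (-1 : ℤ))) (X : ℤ[X]) w n
    have e : ((Int.castRingHom (ZMod 5)).comp (evalRingHom (-1 : ℤ))) X = -1 := by simp
    rw [e, h] at this
    rw [← this]
    rfl
  obtain ⟨k, hk⟩ : ∃ k : ℤ, P.eval (-1) = W ^ 2 + 5 * k := by
    have h3 : (((P.eval (-1) - W ^ 2 : ℤ)) : ZMod 5) = 0 := by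
      push_cast
      rw [h2, sub_self]
    rw [ZMod.intCast_zmod_eq_zero_iff_dvd] at h3
    obtain ⟨k, hk⟩ := h3
    refine ⟨k, ?_⟩
    push_cast at hk
    linarith
  set B := Algebra.adjoin ℤ {z} with hB
  have hmem : aeval (-z) P ∈ B := by
    have h4 : (aeval (-z) P : ℂ) = ((aeval (-(⟨z, hzm⟩ : B)) P : B) : ℂ) := by
      have := aeval_algHom_apply (B.val) (-(⟨z, hzm⟩ : B)) P
      rw [← Subalgebra.coe_val, ← this]
      rfl
    rw [h4]
    exact Subtype.coe_prop _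
  rw [h1]
  refine ⟨hmem, ?_⟩
  -- division by `1 - z`
  obtain ⟨Q, hQ⟩ : ∃ Q : ℤ[X], P = C (P.eval (-1)) + (X + 1) * Q := by
    have h5 : (X - C (-1 : ℤ)) ∣ P - C (P.eval (-1)) := X_sub_C_dvd_sub_C_eval
    obtain ⟨Q, hQ⟩ := h5
    refine ⟨Q, ?_⟩
    rw [← sub_eq_iff_eq_add', hQ]
    congr 1
    simp
  have hQm : aeval (-z) Q ∈ B := by
    have h4 : (aeval (-z) Q : ℂ) = ((aeval (-(⟨z, hzm⟩ : B)) Q : B) : ℂ) := by
      have := aeval_algHom_apply (B.val) (-(⟨z, hzm⟩ : B)) Q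
      rw [← Subalgebra.coe_val, ← this]
      rfl
    rw [h4]
    exact Subtype.coe_prop _
  have hsum : z ^ 4 + z ^ 3 + z ^ 2 + z + 1 = 0 := by
    have := hz.geom_sum_eq_zero (by norm_num)
    simp only [Finset.sum_range_succ, Finset.sum_range_zero] at this
    linear_combination this
  refine ⟨aeval (-z) Q + (k : ℂ) * ((1 - z ^ 2) * (1 - z ^ 3) * (1 - z ^ 4)), ?_, ?_⟩
  · refine B.add_mem hQm (B.mul_mem ?_ (B.mul_mem (B.mul_mem ?_ ?_) ?_))
    · exact_mod_cast B.algebraMap_mem k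
    · exact B.sub_mem B.one_mem (B.pow_mem hzm 2)
    · exact B.sub_mem B.one_mem (B.pow_mem hzm 3)
    · exact B.sub_mem B.one_mem (B.pow_mem hzm 4)
  · have h6 : aeval (-z) P = ((P.eval (-1) : ℤ) : ℂ) + (1 - z) * aeval (-z) Q := by
      conv_lhs => rw [hQ]
      simp only [map_add, map_mul, aeval_X, map_one, aeval_C]
      have : (algebraMap ℤ ℂ) (P.eval (-1)) = ((P.eval (-1) : ℤ) : ℂ) := rfl
      rw [this]
      ring
    rw [h6, hk]
    push_cast
    linear_combination (k : ℂ) * (4 - 3 * z - z ^ 3 + 2 * z ^ 5 - z ^ 6) * hsum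

open Polynomial in
theorem not_dvd (z : ℂ) (hz : IsPrimitiveRoot z 5) (W : ℤ) (h5 : ¬ (5 : ℤ) ∣ W) :
    ¬ ∃ γ ∈ Algebra.adjoin ℤ {z}, (0 : ℂ) = (W : ℂ) ^ 2 + (1 - z) * γ := by
  rintro ⟨γ, hγ, h⟩
  rw [Algebra.adjoin_singleton_eq_range_aeval] at hγ
  obtain ⟨P, rfl⟩ := hγ
  have h1 : aeval z (C (W ^ 2) + (1 - X) * P : ℤ[X]) = 0 := by
    simp only [map_add, map_mul, map_sub, map_one, aeval_X, aeval_C]
    have e : (algebraMap ℤ ℂ) (W ^ 2) = (W : ℂ) ^ 2 := by
      push_cast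
      rfl
    rw [e]
    exact h.symm
  have h2 : minpoly ℤ z ∣ (C (W ^ 2) + (1 - X) * P : ℤ[X]) :=
    minpoly.isIntegrallyClosed_dvd (hz.isIntegral (by norm_num)) h1
  rw [← cyclotomic_eq_minpoly hz (by norm_num)] at h2
  have h3 := eval_dvd (x := (1 : ℤ)) h2
  have : Fact (Nat.Prime 5) := ⟨by norm_num⟩
  rw [eval_one_cyclotomic_prime] at h3
  simp only [eval_add, eval_mul, eval_sub, eval_one, eval_X, eval_C, sub_self, zero_mul,
    add_zero] at h3
  have h4 : (5 : ℤ) ∣ W ^ 2 := by exact_mod_cast h3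
  have h6 : Prime (5 : ℤ) := by norm_num
  exact h5 (h6.dvd_of_dvd_pow h4)

end Pool.Agent.Helper77.Sat
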