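import Pool.Agent.Helper77.Sat.LocOps

/-!
# Module B: base relations (finite checks)
-/

set_option linter.unusedSimpArgs false

namespace Pool.Agent.Helper77.Sat

open Pool.Agent.Helper2

variable {R : Type} [CommRing R]

lemma b_ill {n : ℕ} {ψ : Fn R} (h : PSupp n ψ) (p l : List Bool) :
    ψ (p ++ false :: false :: l) = 0 := by
  by_contra hne
  have := legal_right _ _ (h _ hne).2
  simp [legal] at this

lemma b_short {n : ℕ} {ψ : Fn R} (h : PSupp n ψ) (l : List Bool) (hl : l.length < n + 1) :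
    ψ l = 0 := by
  by_contra hne
  have := (h _ hne).1
  omega

lemma run_bc0 (A : R) (p : Bool) (ψ : Fn R) : run A (blockCross 0 1 0 p) ψ = ψ := by
  simp [blockCross, run]

lemma run_bc1 (A : R) (p : Bool) (ψ : Fn R) : run A (blockCross 1 1 0 p) ψ = x0 A p ψ := by
  have hr1 : List.range 1 = [0] := rfl
  simp [blockCross, passRight, hr1, run, act, crossL, lift_zero']

lemma run_bc2 (A : R) (p : Bool) (ψ : Fn R) :
    run A (blockCross 2 1 0 p) ψ = x0 A p (lift (x0 A p) 1 ψ) := by
  have hr1 : List.range 1 = [0] := rfl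
  have hr : List.range 2 = [0, 1] := rfl
  simp [blockCross, passRight, hr, hr1, run, act, crossL, lift_zero']
  rfl

lemma run_pr0 (A : R) (p : Bool) (ψ : Fn R) : run A (passRight 0 0 p) ψ = ψ := by
  simp [passRight, run]

lemma run_pr1 (A : R) (p : Bool) (ψ : Fn R) : run A (passRight 1 0 p) ψ = x0 A p ψ := by
  have hr1 : List.range 1 = [0] := rfl
  simp [passRight, hr1, run, act, crossL, lift_zero']

lemma run_pr2 (A : R) (p : Bool) (ψ : Fn R) :
    run A (passRight 2 0 p) ψ = lift (x0 A p) 1 (x0 A p ψ) := by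
  have hr : List.range 2 = [0, 1] := rfl
  simp [passRight, hr, run, act, crossL, lift_zero']
  rfl

section
variable {A : R} (hA : A ^ 4 - A ^ 3 + A ^ 2 - A + 1 = 0)
include hA

theorem dd_sq : dd A * dd A = dd A + 1 := by
  simp only [dd]
  linear_combination (A ^ 2 - A - 1) * hA

theorem cap_cup (n : ℕ) (ψ : Fn R) (hψ : PSupp n ψ) : capL A (cupL A ψ) = dd A • ψ := by
  have hd := dd_sq hA
  funext l
  simp only [capL, cupL, toLin_apply, Pi.smul_apply, smul_eq_mul]
  rcases l with _ | ⟨a, l⟩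
  · simp [pCap0, b_short hψ]
  · cases a <;> simp [pCap0, pCup0, wt, wti]
    linear_combination (ψ (true :: l)) * hd

theorem merge_split (n : ℕ) (ψ : Fn R) (hψ : PSupp (1 + n) ψ) :
    mergeL A (splitL A ψ) = dd A • ψ := by
  have hd := dd_sq hA
  have h0 := b_ill hψ []
  funext l
  simp only [mergeL, splitL, toLin_apply, Pi.smul_apply, smul_eq_mul]
  rcases l with _ | ⟨a, _ | ⟨c, l⟩⟩
  · simp [m0, b_short hψ]
  · simp [m0, b_short hψ]
  · simp only [List.nil_append] at h0
    cases a <;> cases c <;> simp [m0, s0, h0]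
    ring

theorem resolution (n : ℕ) (ψ : Fn R) (hψ : PSupp (2 + n) ψ) :
    cupL A (capL A ψ) + splitL A (mergeL A ψ) = dd A • ψ := by
  have hd := dd_sq hA
  have h0 := b_ill hψ []
  have h1 := fun a => b_ill hψ [a]
  funext l
  simp only [mergeL, splitL, capL, cupL, toLin_apply, Pi.smul_apply, Pi.add_apply, smul_eq_mul]
  rcases l with _ | ⟨a, _ | ⟨b, _ | ⟨c, l⟩⟩⟩
  · simp [pCup0, s0, b_short hψ]
  · simp [pCup0, s0, b_short hψ]
  · simp [pCup0, s0, b_short hψ]
  · simp only [List.nil_append, List.cons_append] at h0 h1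
    cases a <;> cases b <;> cases c <;> simp [m0, s0, pCup0, pCap0, wt, wti, h0, h1] <;> grind

theorem slides_cup : Slides A 0 2 (cupL A) := by
  have hd := dd_sq hA
  refine ⟨fun p n ψ hψ => ?_, fun p n ψ hψ => ?_⟩
  · have h0 := b_ill hψ []
    simp only [List.nil_append] at h0
    rw [run_bc2, run_bc0]
    simp only [cupL, liftM_apply, toLin_apply]
    funext l
    rcases l with _ | ⟨a, _ | ⟨b, _ | ⟨c, _ | ⟨e, l⟩⟩⟩⟩
    · simp [x0]
    · simp [x0, pCup0]
    · simp [x0, pCup0]
    · simp [x0, pCup0, pCap0]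
    · simp only [x0, pCup0, pCap0, lift_succ_cons, lift_zero, ca, cb, dd] at hd ⊢
      clear hψ
      cases p <;> cases a <;> cases b <;> cases c <;> cases e <;>
        simp [pCup0, wt, wti, h0] <;> grind
  · have h0 := b_ill hψ []
    have h1 := b_short hψ
    simp only [List.nil_append] at h0
    rw [run_pr2, run_pr0]
    simp only [cupL, liftM_apply, toLin_apply]
    funext l
    rcases l with _ | ⟨a, _ | ⟨b, _ | ⟨c, _ | ⟨e, l⟩⟩⟩⟩
    · simp [pCup0]
    · simp [x0, pCup0]
    · simp [x0, pCup0]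
    · have h2 := h1 [a] (by simp)
      simp [x0, pCup0, pCap0, h2]
    · simp only [x0, pCup0, pCap0, lift_succ_cons, lift_zero, ca, cb, dd] at hd ⊢
      clear hψ h1
      cases p <;> cases a <;> cases b <;> cases c <;> cases e <;>
        simp [pCup0, wt, wti, h0] <;> grind

theorem slides_split : Slides A 1 2 (splitL A) := by
  have hd := dd_sq hA
  refine ⟨fun p n ψ hψ => ?_, fun p n ψ hψ => ?_⟩
  · have h0 := b_ill hψ []
    have h1 := fun a => b_ill hψ [a]
    simp only [List.nil_append, List.cons_append] at h0 h1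
    rw [run_bc2, run_bc1]
    simp only [splitL, liftM_apply, toLin_apply]
    funext l
    rcases l with _ | ⟨a, _ | ⟨b, _ | ⟨c, _ | ⟨e, l⟩⟩⟩⟩
    · simp [x0]
    · simp [x0, pCup0, s0]
    · simp [x0, pCup0, s0]
    · simp [x0, pCup0, pCap0, s0]
    · simp only [x0, pCup0, pCap0, s0, lift_succ_cons, lift_zero, ca, cb, dd] at hd ⊢
      clear hψ
      cases p <;> cases a <;> cases b <;> cases c <;> cases e <;>
        simp [pCup0, pCap0, s0, wt, wti, dd, h0, h1] <;> clear h0 h1 <;> grind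
  · have h0 := b_ill hψ []
    have h1 := fun a => b_ill hψ [a]
    simp only [List.nil_append, List.cons_append] at h0 h1
    rw [run_pr2, run_pr1]
    simp only [splitL, liftM_apply, toLin_apply]
    funext l
    rcases l with _ | ⟨a, _ | ⟨b, _ | ⟨c, _ | ⟨e, l⟩⟩⟩⟩
    · simp [s0]
    · simp [x0, pCup0, s0]
    · simp [x0, pCup0, s0]
    · simp [x0, pCup0, pCap0, s0]
    · simp only [x0, pCup0, pCap0, s0, lift_succ_cons, lift_zero, ca, cb, dd] at hd ⊢
      clear hψ
      cases p <;> cases a <;> cases b <;> cases c <;> cases e <;>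
        simp [pCup0, pCap0, s0, wt, wti, dd, h0, h1] <;> clear h0 h1 <;> grind

theorem slides_cap : Slides A 2 0 (capL A) := by
  have hd := dd_sq hA
  refine ⟨fun p n ψ hψ => ?_, fun p n ψ hψ => ?_⟩
  · have h0 := b_ill hψ []
    have h1 := fun a => b_ill hψ [a]
    have h2 := fun a b => b_ill hψ [a, b]
    have h3 := b_short hψ
    simp only [List.nil_append, List.cons_append] at h0 h1 h2
    rw [run_bc2, run_bc0]
    simp only [capL, liftM_apply, toLin_apply]
    funext l
    rcases l with _ | ⟨a, _ | ⟨b, l⟩⟩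
    · simp [pCap0]
    · have h4 := h3 [a, true, a] (by simp)
      have h5 := h3 [a, false, a] (by simp)
      simp [x0, pCap0, h4, h5]
    · simp only [x0, pCup0, pCap0, lift_succ_cons, lift_zero, ca, cb, dd] at hd ⊢
      clear hψ h3
      cases p <;> cases a <;> cases b <;>
        simp [pCup0, pCap0, wt, wti, dd, h0, h1, h2] <;> clear h0 h1 h2 <;> grind
  · have h0 := b_ill hψ []
    have h1 := fun a => b_ill hψ [a]
    have h2 := fun a b => b_ill hψ [a, b]
    have h3 := b_short hψ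
    simp only [List.nil_append, List.cons_append] at h0 h1 h2
    rw [run_pr2, run_pr0]
    simp only [capL, liftM_apply, toLin_apply]
    funext l
    rcases l with _ | ⟨a, _ | ⟨b, l⟩⟩
    · simp [pCap0]
    · simp [x0, pCap0]
    · simp only [x0, pCup0, pCap0, lift_succ_cons, lift_zero, ca, cb, dd] at hd ⊢
      clear hψ h3
      cases p <;> cases a <;> cases b <;>
        simp [pCup0, pCap0, wt, wti, dd, h0, h1, h2] <;> clear h0 h1 h2 <;> grind

omit hA in
lemma b_supp {s s' : ℕ} {T : Fn R →ₗ[R] Fn R} (hT : Loc s s' T) (n : ℕ) (ψ : Fn R)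
    (hψ : PSupp (s + 1 + n) ψ) : PSupp (s' + 1 + n) (T ψ) := by
  have := hT.supp (1 + n) (by ring) hψ
  rwa [← Nat.add_assoc] at this

omit hA in
lemma b_supp' {s s' : ℕ} {T : Fn R →ₗ[R] Fn R} (hT : Loc s s' T) (n : ℕ) (ψ : Fn R)
    (hψ : PSupp (s + 1 + n) ψ) : PSupp (s' + 1 + n) (liftM 1 T ψ) := by
  have := (hT.lift 1).supp (N := s + 1 + n) n (by ring) hψ
  rwa [Nat.add_comm 1 s'] at this

omit hA in
lemma slides_comp {s s' s'' : ℕ} {S T : Fn R →ₗ[R] Fn R} (hT : Loc s s' T)
    (sT : Slides A s s' T) (sS : Slides A s' s'' S) : Slides A s s'' (S ∘ₗ T) := by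
  refine ⟨fun p n ψ hψ => ?_, fun p n ψ hψ => ?_⟩
  · rw [LinearMap.comp_apply, sS.1 p n _ (b_supp hT n ψ hψ), sT.1 p n ψ hψ, liftM_comp]
    rfl
  · rw [liftM_comp, LinearMap.comp_apply, LinearMap.comp_apply, sS.2 p n _ (b_supp' hT n ψ hψ),
      sT.2 p n ψ hψ]

theorem slides_cupcap : Slides A 2 2 (cupL A ∘ₗ capL A) :=
  slides_comp (loc_capL A) (slides_cap hA) (slides_cup hA)

theorem slides_splitmerge : Slides A 2 2 (splitL A ∘ₗ mergeL A) := by
  have hE := slides_cupcap hA
  have res : ∀ n ψ, PSupp (2 + n) ψ → (splitL A ∘ₗ mergeL A) ψ =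
      (dd A • LinearMap.id - cupL A ∘ₗ capL A : Fn R →ₗ[R] Fn R) ψ := by
    intro n ψ hψ
    have h := resolution hA n ψ hψ
    rw [LinearMap.sub_apply, LinearMap.smul_apply, LinearMap.comp_apply, LinearMap.comp_apply,
      LinearMap.id_apply, ← h]
    abel
  have lres : ∀ n ψ, PSupp (1 + (2 + n)) ψ → liftM 1 (splitL A ∘ₗ mergeL A) ψ =
      dd A • ψ - liftM 1 (cupL A ∘ₗ capL A) ψ := by
    intro n ψ hψ
    rw [liftM_congr (n := 2 + n) (fun φ hφ => res n φ hφ) ψ hψ]
    have h1 : (dd A • LinearMap.id - cupL A ∘ₗ capL A : Fn R →ₗ[R] Fn R) =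
        dd A • LinearMap.id + (-1 : R) • (cupL A ∘ₗ capL A) := by
      refine LinearMap.ext fun φ => ?_
      simp [sub_eq_add_neg]
    rw [h1, liftM_add', liftM_smul', liftM_smul', LinearMap.add_apply, LinearMap.smul_apply,
      LinearMap.smul_apply, liftM_id (n := 1 + (2 + n)) (by omega) ψ hψ]
    simp [sub_eq_add_neg]
  have hsupp : ∀ (w : List Slice) n ψ, Ok w n n → PSupp n ψ → PSupp n (run A w ψ) :=
    fun w n ψ hw hψ => (loc_run A w n n hw).supp 0 rfl hψ
  refine ⟨fun p n ψ hψ => ?_, fun p n ψ hψ => ?_⟩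
  · have hok : Ok (blockCross 2 1 0 p) (2 + 1 + n) (2 + 1 + n) := by
      have hr : List.range 2 = [0, 1] := rfl
      have hr1 : List.range 1 = [0] := rfl
      simp [blockCross, passRight, hr, hr1, Ok]
      omega
    have h2 := hsupp _ _ ψ hok hψ
    have e : 2 + 1 + n = 2 + (1 + n) := by ring
    have e' : 2 + 1 + n = 1 + (2 + n) := by ring
    rw [res (1 + n) ψ (e ▸ hψ), lres n _ (e' ▸ h2), ← hE.1 p n ψ hψ]
    simp only [LinearMap.sub_apply, LinearMap.smul_apply, LinearMap.id_apply, map_sub, map_smul]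
  · have hok : Ok (passRight 2 0 p) (2 + 1 + n) (2 + 1 + n) := by
      have hr : List.range 2 = [0, 1] := rfl
      simp [passRight, hr, Ok]
      omega
    have h2 := hsupp _ _ ψ hok hψ
    have e : 2 + 1 + n = 2 + (1 + n) := by ring
    have e' : 2 + 1 + n = 1 + (2 + n) := by ring
    rw [res (1 + n) _ (e ▸ h2), lres n ψ (e' ▸ hψ)]
    simp only [LinearMap.sub_apply, LinearMap.smul_apply, LinearMap.id_apply, map_sub, map_smul]
    rw [hE.2 p n ψ hψ]

end

end Pool.Agent.Helper77.Sat
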