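import Pool.Agent.Helper77.Sat.Slide

/-!
# Module G: all blocks
-/

namespace Pool.Agent.Helper77.Sat

open Pool.Agent.Helper2

variable {R : Type} [CommRing R]

/-- `T` acts in every one of `m` blocks of `k` strands, after skipping `u` strands of the block -/
noncomputable def allG (T : Fn R →ₗ[R] Fn R) (u k : ℕ) : ℕ → Fn R →ₗ[R] Fn R
  | 0 => LinearMap.id
  | m + 1 => liftM u T ∘ₗ liftM k (allG T u k m)

/-- the same, in the opposite order; `k` is the number of strands of the blocks above -/
noncomputable def allD (T : Fn R →ₗ[R] Fn R) (u k : ℕ) : ℕ → Fn R →ₗ[R] Fn R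
  | 0 => LinearMap.id
  | m + 1 => liftM k (allD T u k m) ∘ₗ liftM u T

lemma allG_add (T : Fn R →ₗ[R] Fn R) (u k a m : ℕ) :
    allG T u k (a + m) = allG T u k a ∘ₗ liftM (k * a) (allG T u k m) := by
  induction a with
  | zero =>
    rw [Nat.zero_add, Nat.mul_zero, liftM_zero]
    exact (LinearMap.id_comp _).symm
  | succ a ih =>
    rw [Nat.add_right_comm]
    show liftM u T ∘ₗ liftM k (allG T u k (a + m)) =
      (liftM u T ∘ₗ liftM k (allG T u k a)) ∘ₗ liftM (k * (a + 1)) (allG T u k m)
    rw [ih, liftM_comp, liftM_liftM, LinearMap.comp_assoc, Nat.mul_succ]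

lemma loc_cast {n n' a a' : ℕ} {T : Fn R →ₗ[R] Fn R} (hT : Loc n n' T) (h : n = a)
    (h' : n' = a') : Loc a a' T := by
  subst h; subst h'; exact hT

lemma psupp_cast {n a : ℕ} {ψ : Fn R} (h : PSupp n ψ) (e : n = a) : PSupp a ψ := by
  subst e; exact h

lemma loc_allG {s s' : ℕ} {T : Fn R →ₗ[R] Fn R} (hT : Loc s s' T) (u m : ℕ) :
    Loc ((u + s) * m) ((u + s') * m) (allG T u (u + s) m) := by
  induction m with
  | zero =>
    show Loc _ _ (LinearMap.id : Fn R →ₗ[R] Fn R)
    exact loc_cast (Loc.id (R := R) 0) (by simp) (by simp)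
  | succ m ih =>
    have h1 : Loc ((u + s) + (u + s) * m) ((u + s) + (u + s') * m)
        (liftM (u + s) (allG T u (u + s) m)) := ih.lift (u + s)
    have h2 : Loc ((u + s) + (u + s') * m) ((u + s') + (u + s') * m) (liftM u T) :=
      (hT.lift u).ext ((u + s') * m)
    have h3 := h2.comp h1
    exact loc_cast h3 (by ring) (by ring)

lemma loc_block (A : R) (k l N : ℕ) (p : Bool) (h : k + l ≤ N) :
    Loc N N (run A (blockCross k l 0 p)) :=
  loc_run A _ _ _ (ok_blockCross k l 0 p N (by omega))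

/-- two blocks cross -/
lemma two_blocks {A : R} {s s' : ℕ} {T : Fn R →ₗ[R] Fn R} (hT : Loc s s' T)
    (hs : Slides A s s' T) (u n : ℕ) (p : Bool) (ψ : Fn R)
    (hψ : PSupp ((u + s) + (u + s) + n) ψ) :
    run A (blockCross (u + s') (u + s') 0 p) (liftM u T (liftM ((u + s) + u) T ψ)) =
      liftM u T (liftM ((u + s) + u) T (run A (blockCross (u + s) (u + s) 0 p) ψ)) := by
  have e1 : PSupp (u + s + (u + s') + n) (liftM ((u + s) + u) T ψ) := by
    have := (hT.lift ((u + s) + u)).supp (N := (u + s) + (u + s) + n) n (by ring) hψ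
    exact psupp_cast this (by ring)
  rw [slides_left hT hs u (u + s') n p _ e1]
  rw [slides_right hT hs u (u + s) n p ψ (psupp_cast hψ (by ring))]
  have e2 : PSupp ((u + s) + (u + s) + n) (run A (blockCross (u + s) (u + s) 0 p) ψ) := by
    have := (loc_block A (u + s) (u + s) ((u + s) + (u + s)) p le_rfl).supp n rfl hψ
    exact this
  have e3 := interchange (hT.lift u) (hT.lift u) n _ e2
  rw [liftM_liftM, liftM_liftM] at e3
  rw [show (u + s') + u = u + (u + s') by ring, show (u + s) + u = u + (u + s) by ring]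
  exact e3.symm

lemma allG_two {s : ℕ} {T : Fn R →ₗ[R] Fn R} (u n : ℕ) (ψ : Fn R)
    (hψ : PSupp ((u + s) + (u + s) + n) ψ) :
    allG T u (u + s) 2 ψ = liftM u T (liftM ((u + s) + u) T ψ) := by
  show liftM u T (liftM (u + s) (liftM u T ∘ₗ liftM (u + s) LinearMap.id) ψ) = _
  rw [liftM_comp, liftM_liftM, liftM_liftM]
  show liftM u T (liftM (u + (u + s)) T (liftM (u + s + (u + s)) LinearMap.id ψ)) = _
  rw [liftM_id (n := (u + s) + (u + s) + n) (by omega) ψ hψ, Nat.add_comm u (u + s)]

/-- the crossing of the first two blocks -/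
lemma first_blocks {A : R} {s s' : ℕ} {T : Fn R →ₗ[R] Fn R} (hT : Loc s s' T)
    (hs : Slides A s s' T) (u r : ℕ) (p : Bool) (ψ : Fn R)
    (hψ : PSupp ((u + s) * (2 + r)) ψ) :
    run A (blockCross (u + s') (u + s') 0 p) (allG T u (u + s) (2 + r) ψ) =
      allG T u (u + s) (2 + r) (run A (blockCross (u + s) (u + s) 0 p) ψ) := by
  rw [allG_add]
  have hr := loc_allG hT u r
  have h1 : PSupp ((u + s) + (u + s) + (u + s') * r)
      (liftM ((u + s) * 2) (allG T u (u + s) r) ψ) := by
    have := (hr.lift ((u + s) * 2)).supp (N := (u + s) * (2 + r)) 0 (by ring) hψ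
    exact psupp_cast this (by ring)
  show run A (blockCross (u + s') (u + s') 0 p)
      (allG T u (u + s) 2 (liftM ((u + s) * 2) (allG T u (u + s) r) ψ)) =
    allG T u (u + s) 2 (liftM ((u + s) * 2) (allG T u (u + s) r)
      (run A (blockCross (u + s) (u + s) 0 p) ψ))
  have hX := loc_block A (u + s) (u + s) ((u + s) * 2) p (by omega)
  have h2 := interchange hX hr 0 ψ (psupp_cast hψ (by ring))
  rw [← h2]
  have h3 : PSupp ((u + s) + (u + s) + (u + s') * r)
      (run A (blockCross (u + s) (u + s) 0 p)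
        (liftM ((u + s) * 2) (allG T u (u + s) r) ψ)) := by
    have := (loc_block A (u + s) (u + s) ((u + s) + (u + s)) p le_rfl).supp _ rfl h1
    exact this
  rw [allG_two u ((u + s') * r) _ h1, allG_two u ((u + s') * r) _ h3]
  exact two_blocks hT hs u _ p _ h1

lemma one_crossing {A : R} {s s' : ℕ} {T : Fn R →ₗ[R] Fn R} (hT : Loc s s' T)
    (hs : Slides A s s' T) (u m i : ℕ) (hi : i + 1 < m) (p : Bool) (ψ : Fn R)
    (hψ : PSupp ((u + s) * m) ψ) :
    run A (blockCross (u + s') (u + s') ((u + s') * i) p) (allG T u (u + s) m ψ) =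
      allG T u (u + s) m (run A (blockCross (u + s) (u + s) ((u + s) * i) p) ψ) := by
  obtain ⟨r, rfl⟩ : ∃ r, m = i + (2 + r) := ⟨m - (i + 2), by omega⟩
  have hm := loc_allG hT u (i + (2 + r))
  have e1 : PSupp ((u + s') * i + ((u + s') + (u + s')) + (u + s') * r)
      (allG T u (u + s) (i + (2 + r)) ψ) := by
    have := hm.supp 0 rfl hψ
    exact psupp_cast this (by ring)
  rw [run_blockCross_shift A _ _ _ p _ _ e1]
  have e2 : PSupp ((u + s) * i + ((u + s) + (u + s)) + (u + s) * r) ψ :=
    psupp_cast hψ (by ring)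
  rw [run_blockCross_shift A _ _ _ p _ _ e2]
  rw [allG_add T u (u + s) i (2 + r)]
  show liftM ((u + s') * i) (run A (blockCross (u + s') (u + s') 0 p))
      (allG T u (u + s) i (liftM ((u + s) * i) (allG T u (u + s) (2 + r)) ψ)) =
    allG T u (u + s) i (liftM ((u + s) * i) (allG T u (u + s) (2 + r))
      (liftM ((u + s) * i) (run A (blockCross (u + s) (u + s) 0 p)) ψ))
  have h2r := loc_allG hT u (2 + r)
  have e3 : PSupp ((u + s) * i + (u + s') * (2 + r) + 0)
      (liftM ((u + s) * i) (allG T u (u + s) (2 + r)) ψ) :=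
    (h2r.lift ((u + s) * i)).supp (N := (u + s) * (i + (2 + r))) 0 (by ring) hψ
  have hX' := loc_block A (u + s') (u + s') ((u + s') * (2 + r)) p (by
    rw [Nat.mul_add]; omega)
  have h3 := interchange (loc_allG hT u i) hX' 0 _ e3
  rw [← h3]
  congr 1
  have h4 := liftM_congr (n := (u + s) * (2 + r)) (i := (u + s) * i)
    (S := run A (blockCross (u + s') (u + s') 0 p) ∘ₗ allG T u (u + s) (2 + r))
    (T := allG T u (u + s) (2 + r) ∘ₗ run A (blockCross (u + s) (u + s) 0 p))
    (fun φ hφ => first_blocks hT hs u r p φ hφ) ψ (psupp_cast hψ (by ring))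
  rw [liftM_comp, liftM_comp] at h4
  exact h4

lemma run_parallel_cons (A : R) (k : ℕ) (x : ℕ × Bool) (b : List (ℕ × Bool)) (ψ : Fn R) :
    run A (parallel k (x :: b)) ψ = run A (parallel k b) (run A (blockCross k k (k * x.1) x.2) ψ) := by
  have h : parallel k (x :: b) = blockCross k k (k * x.1) x.2 ++ parallel k b := by
    simp [parallel]
  rw [h, run_append]
  rfl

lemma supp_blockCross (A : R) (k i m : ℕ) (hi : i + 1 < m) (p : Bool) (ψ : Fn R)
    (hψ : PSupp (k * m) ψ) : PSupp (k * m) (run A (blockCross k k (k * i) p) ψ) := by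
  have h : k * i + k + k ≤ k * m := by
    calc k * i + k + k = k * (i + 1 + 1) := by ring
      _ ≤ k * m := Nat.mul_le_mul_left k hi
  have := (loc_run A _ _ _ (ok_blockCross k k (k * i) p (k * m) h)).supp 0 rfl hψ
  exact this

theorem allG_slide {A : R} {s s' : ℕ} {T : Fn R →ₗ[R] Fn R} (hT : Loc s s' T)
    (hs : Slides A s s' T) (u m : ℕ) (b : List (ℕ × Bool)) (hb : ∀ x ∈ b, x.1 + 1 < m)
    (ψ : Fn R) (hψ : PSupp ((u + s) * m) ψ) :
    run A (parallel (u + s') b) (allG T u (u + s) m ψ) =
      allG T u (u + s) m (run A (parallel (u + s) b) ψ) := by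
  induction b generalizing ψ with
  | nil => rfl
  | cons x b ih =>
    have hx : x.1 + 1 < m := hb x (by simp)
    rw [run_parallel_cons, run_parallel_cons, one_crossing hT hs u m x.1 hx x.2 ψ hψ]
    exact ih (fun y hy => hb y (by simp [hy])) _ (supp_blockCross A _ _ _ hx _ _ hψ)

lemma one_block {A : R} {s : ℕ} {T : Fn R →ₗ[R] Fn R} (hT : Loc s s T)
    (hs : Slides A s s T) (u m i : ℕ) (hi : i + 1 < m) (p : Bool)
    (j : ℕ) (hj : j < m) (ψ : Fn R) (hψ : PSupp ((u + s) * m) ψ) :
    run A (blockCross (u + s) (u + s) ((u + s) * i) p) (liftM ((u + s) * j + u) T ψ) =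
      liftM ((u + s) * (Equiv.swap i (i + 1) j) + u) T
        (run A (blockCross (u + s) (u + s) ((u + s) * i) p) ψ) := by
  obtain ⟨r, rfl⟩ : ∃ r, m = i + (2 + r) := ⟨m - (i + 2), by omega⟩
  set k := u + s with hk
  have hlift : PSupp (k * (i + (2 + r))) (liftM (k * j + u) T ψ) := by
    obtain ⟨q, hq⟩ : ∃ q, i + (2 + r) = j + 1 + q := ⟨i + (2 + r) - (j + 1), by omega⟩
    have e : k * (i + (2 + r)) = k * j + u + s + k * q := by rw [hq, hk]; ring
    have := (hT.lift (k * j + u)).supp (N := k * (i + (2 + r))) (k * q) e hψ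
    exact psupp_cast this e.symm
  rw [run_blockCross_shift A _ _ _ p (k * r) _ (psupp_cast hlift (by ring)),
    run_blockCross_shift A _ _ _ p (k * r) _ (psupp_cast hψ (by ring))]
  rcases Nat.lt_or_ge j i with hji | hji
  · -- before the crossing
    rw [Equiv.swap_apply_of_ne_of_ne (by omega) (by omega)]
    obtain ⟨q, rfl⟩ : ∃ q, i = j + 1 + q := ⟨i - (j + 1), by omega⟩
    have h1 : Loc (k * (j + 1 + q)) (k * (j + 1 + q)) (liftM (k * j + u) T) :=
      loc_cast ((hT.lift (k * j + u)).ext (k * q)) (by rw [hk]; ring) (by rw [hk]; ring)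
    have h2 := interchange h1 (loc_block A k k (k + k) p le_rfl) (k * r) ψ
      (psupp_cast hψ (by ring))
    exact h2.symm
  rcases Nat.lt_or_ge (i + 1) j with hji' | hji'
  · -- after the crossing
    rw [Equiv.swap_apply_of_ne_of_ne (by omega) (by omega)]
    obtain ⟨q, rfl⟩ : ∃ q, j = i + 2 + q := ⟨j - (i + 2), by omega⟩
    obtain ⟨t, rfl⟩ : ∃ t, r = q + 1 + t := ⟨r - (q + 1), by omega⟩
    have h1 : Loc (k * i + (k + k)) (k * i + (k + k))
        (liftM (k * i) (run A (blockCross k k 0 p))) :=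
      (loc_block A k k (k + k) p le_rfl).lift (k * i)
    have h2 := interchange h1 (hT.lift (k * q + u)) (k * t) ψ
      (psupp_cast hψ (by rw [hk]; ring))
    rw [liftM_liftM] at h2
    rw [show k * (i + 2 + q) + u = k * q + u + (k * i + (k + k)) by ring]
    exact h2
  rcases Nat.lt_or_ge i j with hij | hij
  · -- the right block
    have hj' : j = i + 1 := by omega
    subst hj'
    rw [Equiv.swap_apply_right]
    have h4 := liftM_congr (n := k + u + s + k * r) (i := k * i)
      (S := run A (blockCross k k 0 p) ∘ₗ liftM (k + u) T)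
      (T := liftM u T ∘ₗ run A (blockCross k k 0 p))
      (fun φ hφ => slides_right hT hs u k (k * r) p φ hφ) ψ
      (psupp_cast hψ (by rw [hk]; ring))
    rw [liftM_comp, liftM_comp, liftM_liftM, liftM_liftM] at h4
    rw [show k * (i + 1) + u = k + u + k * i by ring, show k * i + u = u + k * i by ring]
    exact h4
  · -- the left block
    have hj' : j = i := by omega
    subst hj'
    rw [Equiv.swap_apply_left]
    have h4 := liftM_congr (n := u + s + k + k * r) (i := k * j)
      (S := run A (blockCross k k 0 p) ∘ₗ liftM u T)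
      (T := liftM (k + u) T ∘ₗ run A (blockCross k k 0 p))
      (fun φ hφ => slides_left hT hs u k (k * r) p φ hφ) ψ
      (psupp_cast hψ (by rw [hk]; ring))
    rw [liftM_comp, liftM_comp, liftM_liftM, liftM_liftM] at h4
    rw [show k * (j + 1) + u = k + u + k * j by ring, show k * j + u = u + k * j by ring]
    exact h4

theorem perm_lt (m : ℕ) (b : List (ℕ × Bool)) (hb : ∀ x ∈ b, x.1 + 1 < m) (j : ℕ) (hj : j < m) :
    perm b j < m := by
  induction b generalizing j with
  | nil => simpa [perm] using hj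
  | cons x b ih =>
    have hx : x.1 + 1 < m := hb x (by simp)
    show perm b (Equiv.swap x.1 (x.1 + 1) j) < m
    refine ih (fun y hy => hb y (by simp [hy])) _ ?_
    rcases eq_or_ne j x.1 with rfl | h1
    · rw [Equiv.swap_apply_left]; exact hx
    rcases eq_or_ne j (x.1 + 1) with rfl | h2
    · rw [Equiv.swap_apply_right]; omega
    · rwa [Equiv.swap_apply_of_ne_of_ne h1 h2]

theorem block_slide {A : R} {s : ℕ} {T : Fn R →ₗ[R] Fn R} (hT : Loc s s T)
    (hs : Slides A s s T) (u m : ℕ) (b : List (ℕ × Bool)) (hb : ∀ x ∈ b, x.1 + 1 < m)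
    (j : ℕ) (hj : j < m) (ψ : Fn R) (hψ : PSupp ((u + s) * m) ψ) :
    run A (parallel (u + s) b) (liftM ((u + s) * j + u) T ψ) =
      liftM ((u + s) * perm b j + u) T (run A (parallel (u + s) b) ψ) := by
  induction b generalizing j ψ with
  | nil => rfl
  | cons x b ih =>
    have hx : x.1 + 1 < m := hb x (by simp)
    rw [run_parallel_cons, run_parallel_cons, one_block hT hs u m x.1 hx x.2 j hj ψ hψ]
    have hj' : Equiv.swap x.1 (x.1 + 1) j < m := by
      have := perm_lt m [x] (by simpa using hx) j hj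
      simpa [perm] using this
    rw [ih (fun y hy => hb y (by simp [hy])) _ hj' _ (supp_blockCross A _ _ _ hx _ _ hψ)]
    rfl

end Pool.Agent.Helper77.Sat
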