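import Pool.Agent.Helper77.Sat.LocOps
import Pool.Agent.Helper2.Final

/-!
# Module C: the bracket of a closure is a trace
-/

namespace Pool.Agent.Helper77.Sat

open Pool.Agent.Helper2

variable {R : Type} [CommRing R]

lemma clo_dd {A : R} (h : A ^ 4 - A ^ 3 + A ^ 2 - A + 1 = 0) : dd A * dd A = dd A + 1 := by
  unfold dd
  linear_combination (A ^ 2 - A - 1) * h

/-- the closure of the last strand -/
lemma trw_last {A : R} (h : dd A * dd A = dd A + 1) (n : ℕ) {T : Fn R →ₗ[R] Fn R}
    (hT : Loc (n + 1) (n + 1) T) :
    trw (gx (dd A)) n (liftM n (capL A) ∘ₗ T ∘ₗ liftM n (cupL A)) =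
      trw (gx (dd A)) (n + 1) T := by
  classical
  obtain ⟨K, hK, HK⟩ := hT
  have hd1 : dd A * (dd A - 1) = 1 := by linear_combination h
  -- the value of the left operator
  have hcup : ∀ p ∈ lgl n, PSupp (n + 2) (liftM n (cupL A) (Pi.single p 1)) := by
    intro p hp
    exact pCup_supp _ n n _ le_rfl (loc_psupp_single hp)
  have key : ∀ p0 a, (p0 ++ [a]) ∈ lgl n → p0.length = n →
      ∀ b, T (liftM n (cupL A) (Pi.single (p0 ++ [a]) 1)) (p0 ++ a :: b :: [a]) =
        if (a || b) = true then wt (dd A) b * K (p0 ++ [a, b]) (p0 ++ [a, b]) else 0 := by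
    intro p0 a hp hp0 b
    have e1 : p0 ++ a :: b :: [a] = (p0 ++ [a, b]) ++ [a] := by simp
    rw [e1, (HK 1 _ (hcup _ hp)).2 (p0 ++ [a, b]) [a] (by simp [hp0]) rfl]
    have e2 : ∀ q ∈ lgl (n + 1), K (p0 ++ [a, b]) q *
        liftM n (cupL A) (Pi.single (p0 ++ [a]) 1) (q ++ [a]) =
        if q = p0 ++ [a, b] then (if (a || b) = true then
          wt (dd A) b * K (p0 ++ [a, b]) (p0 ++ [a, b]) else 0) else 0 := by
      intro q hq
      by_cases hz : K (p0 ++ [a, b]) q = 0
      · rw [hz, zero_mul]
        split_ifs with h1 h2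
        · rw [h1] at hz
          rw [hz, mul_zero]
        · rfl
        · rfl
      · obtain ⟨a1, a2, a3, a4⟩ := hK _ _ hz
        obtain ⟨q1, b', rfl, hq1⟩ := loc_snoc (mem_lgl.1 hq).1
        obtain ⟨q0, c, rfl, hq0⟩ := loc_snoc hq1
        have hb : b' = b := by
          have e3 : p0 ++ [a, b] = (p0 ++ [a]) ++ [b] := by simp
          rw [e3, List.getLast?_concat, List.getLast?_concat, Option.some.injEq] at a4
          exact a4.symm
        subst hb
        have e4 : (q0 ++ [c] ++ [b']) ++ [a] = q0 ++ (c :: b' :: [a]) := by simp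
        rw [e4, liftM_of_append _ _ _ hq0]
        have e5 : (cupL A) (fun l => (Pi.single (p0 ++ [a]) 1 : Fn R) (q0 ++ l)) (c :: b' :: [a]) =
            if a = c ∧ (c || b') = true then wt (dd A) b' *
              (Pi.single (p0 ++ [a]) 1 : Fn R) (q0 ++ [c]) else 0 := rfl
        rw [e5]
        by_cases hc : a = c
        · subst hc
          by_cases hq : q0 = p0
          · subst hq
            have e6 : q0 ++ [a] ++ [b'] = q0 ++ [a, b'] := by simp
            rw [e6, if_pos rfl]
            by_cases hab : (a || b') = true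
            · rw [if_pos ⟨rfl, hab⟩, if_pos hab, Pi.single_eq_same, mul_one, mul_comm]
            · rw [if_neg (fun h => hab h.2), if_neg hab, mul_zero]
          · have e7 : q0 ++ [a] ≠ p0 ++ [a] := fun h => hq (List.append_cancel_right h)
            have e8 : q0 ++ [a] ++ [b'] ≠ p0 ++ [a, b'] := by
              intro h
              apply e7
              have : p0 ++ [a, b'] = p0 ++ [a] ++ [b'] := by simp
              rw [this] at h
              exact List.append_cancel_right h
            rw [if_neg e8, Pi.single_eq_of_ne e7, mul_zero]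
            split_ifs <;> rw [mul_zero]
        · have e8 : q0 ++ [c] ++ [b'] ≠ p0 ++ [a, b'] := by
            intro h
            have e9 : p0 ++ [a, b'] = p0 ++ [a] ++ [b'] := by simp
            rw [e9] at h
            have h2 := List.append_cancel_right h
            have h3 := congrArg List.getLast? h2
            rw [List.getLast?_concat, List.getLast?_concat, Option.some.injEq] at h3
            exact hc h3.symm
          rw [if_neg e8, if_neg (fun h => hc h.1), mul_zero]
    rw [Finset.sum_congr rfl e2, Finset.sum_ite_eq']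
    split_ifs with h1 h2 h3
    · rfl
    · rfl
    · have h4 : (p0 ++ [a, b]) ∈ lgl (n + 1) := by
        refine mem_lgl.2 ⟨by simp [hp0], ?_⟩
        rw [legal_append]
        exact ⟨(mem_lgl.1 hp).2, h3, trivial⟩
      exact absurd h4 h1
    · rfl
  have hval : ∀ p0 a, (p0 ++ [a]) ∈ lgl n → p0.length = n →
      gx (dd A) (p0 ++ [a]) * (liftM n (capL A) ∘ₗ T ∘ₗ liftM n (cupL A))
        (Pi.single (p0 ++ [a]) 1) (p0 ++ [a]) =
        gx (dd A) (p0 ++ [a, true]) * K (p0 ++ [a, true]) (p0 ++ [a, true]) +
        if a = true then gx (dd A) (p0 ++ [a, false]) * K (p0 ++ [a, false]) (p0 ++ [a, false])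
          else 0 := by
    intro p0 a hp hp0
    have e1 : (liftM n (capL A) ∘ₗ T ∘ₗ liftM n (cupL A)) (Pi.single (p0 ++ [a]) 1) (p0 ++ [a]) =
        wti (dd A) a * (T (liftM n (cupL A) (Pi.single (p0 ++ [a]) 1)) (p0 ++ a :: true :: [a]) +
          if a then T (liftM n (cupL A) (Pi.single (p0 ++ [a]) 1)) (p0 ++ a :: false :: [a])
            else 0) := by
      rw [LinearMap.comp_apply, liftM_of_append _ _ _ hp0]
      rfl
    rw [e1, key p0 a hp hp0, key p0 a hp hp0]
    have hg : ∀ b, gx (dd A) (p0 ++ [a, b]) = if (p0 ++ [a]).head? = some false then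
        (if b = true then dd A else 1) else 0 := by
      intro b
      have e2 : p0 ++ [a, b] = (p0 ++ [a]) ++ [b] := by simp
      unfold gx
      rw [e2, List.getLast?_concat]
      have e3 : ((p0 ++ [a]) ++ [b]).head? = (p0 ++ [a]).head? := by
        rcases p0 with _ | ⟨x, p0⟩ <;> rfl
      rw [e3]
      simp only [Option.some.injEq]
    have hg0 : gx (dd A) (p0 ++ [a]) = if (p0 ++ [a]).head? = some false then
        (if a = true then dd A else 1) else 0 := by
      unfold gx
      rw [List.getLast?_concat]
      simp only [Option.some.injEq]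
    rw [hg, hg, hg0]
    by_cases hh : (p0 ++ [a]).head? = some false
    · rw [if_pos hh, if_pos hh, if_pos hh]
      cases a
      · simp [wti, wt]
      · simp only [wti, wt, Bool.true_or, if_true, Bool.false_eq_true, if_false, Bool.or_false]
        linear_combination (dd A * K (p0 ++ [true, true]) (p0 ++ [true, true]) +
          K (p0 ++ [true, false]) (p0 ++ [true, false])) * hd1
    · rw [if_neg hh, if_neg hh, if_neg hh]
      simp
  have hsum : ∀ p ∈ lgl n, gx (dd A) p * (liftM n (capL A) ∘ₗ T ∘ₗ liftM n (cupL A))
        (Pi.single p 1) p =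
        gx (dd A) (p ++ [true]) * K (p ++ [true]) (p ++ [true]) +
        if p.getLast? = some true then gx (dd A) (p ++ [false]) * K (p ++ [false]) (p ++ [false])
          else 0 := by
    intro p hp
    obtain ⟨p0, a, rfl, hp0⟩ := loc_snoc (mem_lgl.1 hp).1
    rw [hval p0 a hp hp0, List.getLast?_concat]
    simp only [List.append_assoc, List.cons_append, List.nil_append, Option.some.injEq]
  unfold trw
  rw [Finset.sum_congr rfl hsum, Finset.sum_add_distrib]
  have hR : ∀ p ∈ lgl (n + 1), gx (dd A) p * T (Pi.single p 1) p = gx (dd A) p * K p p := by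
    intro p hp
    rw [loc_kernel HK (mem_lgl.1 hp).1 hp]
  rw [Finset.sum_congr rfl hR]
  have hsplit : lgl (n + 1) = (lgl n).image (· ++ [true]) ∪
      ((lgl n).filter fun p => p.getLast? = some true).image (· ++ [false]) := by
    ext l
    rw [Finset.mem_union, Finset.mem_image, Finset.mem_image]
    constructor
    · intro hl
      obtain ⟨hl1, hl2⟩ := mem_lgl.1 hl
      obtain ⟨p, b, rfl, hp⟩ := loc_snoc hl1
      have hpl : p ∈ lgl n := mem_lgl.2 ⟨hp, loc_legal_left _ _ hl2⟩
      cases b
      · right
        refine ⟨p, Finset.mem_filter.2 ⟨hpl, ?_⟩, rfl⟩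
        obtain ⟨p0, a, rfl, hp0⟩ := loc_snoc hp
        rw [List.append_assoc, List.singleton_append, legal_append] at hl2
        rw [List.getLast?_concat]
        have := hl2.2.1
        rw [Bool.or_false] at this
        rw [this]
      · left
        exact ⟨p, hpl, rfl⟩
    · rintro (⟨p, hp, rfl⟩ | ⟨p, hp, rfl⟩)
      · obtain ⟨h1, h2⟩ := mem_lgl.1 hp
        refine mem_lgl.2 ⟨by simp [h1], ?_⟩
        obtain ⟨p0, a, rfl, hp0⟩ := loc_snoc h1
        rw [List.append_assoc, List.singleton_append, legal_append]
        exact ⟨h2, by simp [legal]⟩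
      · rw [Finset.mem_filter] at hp
        obtain ⟨h1, h2⟩ := mem_lgl.1 hp.1
        refine mem_lgl.2 ⟨by simp [h1], ?_⟩
        obtain ⟨p0, a, rfl, hp0⟩ := loc_snoc h1
        have h3 := hp.2
        rw [List.getLast?_concat, Option.some.injEq] at h3
        subst h3
        rw [List.append_assoc, List.singleton_append, legal_append]
        exact ⟨h2, by simp [legal]⟩
  rw [hsplit, Finset.sum_union, Finset.sum_image, Finset.sum_image, Finset.sum_filter]
  · intro p _ q _ h
    exact List.append_cancel_right h
  · intro p _ q _ h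
    exact List.append_cancel_right h
  · rw [Finset.disjoint_left]
    intro l h1 h2
    obtain ⟨p, _, rfl⟩ := Finset.mem_image.1 h1
    obtain ⟨q, _, h3⟩ := Finset.mem_image.1 h2
    have h4 := congrArg List.getLast? h3
    rw [List.getLast?_concat, List.getLast?_concat, Option.some.injEq] at h4
    exact Bool.false_ne_true h4

/-- the closure of a local operator -/
lemma run_closure {A : R} (h : dd A * dd A = dd A + 1) (o : List Bool) :
    ∀ {T : Fn R →ₗ[R] Fn R}, Loc o.length o.length T →
    run A ((List.range o.length).reverse.map Slice.cap)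
      (T (run A (o.mapIdx fun i u => Slice.cup i u)
        (fun l => if l.length = 1 then 1 else 0))) [false] =
      trw (gx (dd A)) o.length T := by
  induction o using List.reverseRecOn with
  | nil =>
    intro T hT
    obtain ⟨K, hK, HK⟩ := hT
    have hp : PSupp 0 (fun l => if l.length = 1 then 1 else 0 : Fn R) := by
      intro l hl
      by_cases h1 : l.length = 1
      · obtain ⟨a, rfl⟩ := List.length_eq_one_iff.1 h1
        simp [legal]
      · simp [h1] at hl
    have h1 := (HK 0 _ hp).2 [false] [] rfl rfl
    have e1 : (List.range ([] : List Bool).length).reverse.map Slice.cap = [] := rfl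
    have e2 : (([] : List Bool).mapIdx fun i u => Slice.cup i u) = [] := rfl
    rw [e1, e2]
    change T _ [false] = _
    rw [List.append_nil] at h1
    have e3 : run A [] (fun l => if l.length = 1 then 1 else 0 : Fn R) =
        fun l => if l.length = 1 then 1 else 0 := rfl
    rw [e3, h1]
    have hl : lgl 0 = {[true], [false]} := by
      ext l
      rw [mem_lgl, Finset.mem_insert, Finset.mem_singleton]
      constructor
      · rintro ⟨h2, -⟩
        obtain ⟨a, rfl⟩ := List.length_eq_one_iff.1 h2
        cases a <;> simp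
      · rintro (rfl | rfl) <;> simp [legal]
    have hT' : trw (gx (dd A)) ([] : List Bool).length T = K [false] [false] := by
      unfold trw
      change ∑ p ∈ lgl 0, _ = _
      rw [hl, Finset.sum_pair (by decide)]
      have h3 : [false] ∈ lgl 0 := by rw [hl]; simp
      rw [loc_kernel HK (p := [false]) (q := [false]) rfl h3]
      simp [gx]
    rw [hT']
    change ∑ q ∈ lgl 0, _ = _
    rw [hl, Finset.sum_pair (by decide)]
    have h4 : K [false] [true] = 0 := by
      by_contra hne
      have := (hK _ _ hne).2.2.1
      simp at this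
    simp [h4]
  | append_singleton o u ih =>
    intro T hT
    have e1 : ((o ++ [u]).mapIdx fun i u => Slice.cup i u) =
        (o.mapIdx fun i u => Slice.cup i u) ++ [Slice.cup o.length u] := by
      rw [List.mapIdx_append]
      simp
    have e2 : (List.range (o ++ [u]).length).reverse.map Slice.cap =
        Slice.cap o.length :: (List.range o.length).reverse.map Slice.cap := by
      rw [List.length_append, List.length_singleton, List.range_succ, List.reverse_append]
      rfl
    have hlen : (o ++ [u]).length = o.length + 1 := by simp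
    rw [hlen] at hT ⊢
    rw [hlen] at e2
    rw [e1, e2, run_append]
    have e3 : run A [Slice.cup o.length u] = liftM o.length (cupL A) := by
      change run A [] ∘ₗ act A _ = _
      rfl
    rw [e3]
    have hL : Loc o.length o.length
        (liftM o.length (capL A) ∘ₗ T ∘ₗ liftM o.length (cupL A)) := by
      have h1 : Loc o.length (o.length + 2) (liftM o.length (cupL A)) := by
        have := (loc_cupL A).lift o.length
        rwa [Nat.add_zero] at this
      have h2 : Loc (o.length + 2) o.length (liftM o.length (capL A)) := by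
        have := (loc_capL A).lift o.length
        rwa [Nat.add_zero] at this
      have h3 : Loc (o.length + 2) (o.length + 2) T := by
        have := hT.ext 1
        rwa [Nat.add_assoc] at this
      exact h2.comp (h3.comp h1)
    have h4 := ih hL
    rw [trw_last h o.length hT] at h4
    rw [← h4]
    rfl

lemma run_pathOps (z : ℂˣ) (hz : (z : ℂ) ^ 4 - (z : ℂ) ^ 3 + (z : ℂ) ^ 2 - z + 1 = 0)
    (w : List Slice) : ∀ ψ, (pathOps z (dd (z : ℂ))).run w ψ = run (z : ℂ) w ψ := by
  have h5 : ((z⁻¹ : ℂˣ) : ℂ) = -(z : ℂ) ^ 4 := by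
    have h0 : (z : ℂ) ≠ 0 := z.ne_zero
    push_cast
    field_simp
    linear_combination (1 + (z : ℂ)) * hz
  have hA : ∀ p, cA z p = ca (z : ℂ) p := by
    intro p
    cases p
    · simp only [cA, ca, Bool.false_eq_true, if_false, h5]
    · rfl
  have hB : ∀ p, cB z p = cb (z : ℂ) p := by
    intro p
    cases p
    · rfl
    · simp only [cB, cb, if_true, h5]
  have hX : ∀ p, pX0 z (dd (z : ℂ)) p = x0 (z : ℂ) p := by
    intro p
    funext ψ l
    rcases l with _ | ⟨a, _ | ⟨b, _ | ⟨c, l⟩⟩⟩
    · rfl
    · rfl
    · rfl
    · simp only [pX0, x0, hA, hB]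
  induction w with
  | nil => intro ψ; rfl
  | cons s w ih =>
    intro ψ
    rw [Ops.run, ih]
    cases s with
    | cup i u => rfl
    | cap i => rfl
    | cross i p =>
      have : (pathOps z (dd (z : ℂ))).act (.cross i p) ψ = act (z : ℂ) (.cross i p) ψ := by
        change lift (pX0 z (dd (z : ℂ)) p) i ψ = lift (crossL (z : ℂ) p) i ψ
        rw [hX]
        rfl
      rw [this]
      rfl

lemma ok_cups (o : List Bool) : ∀ k j, j ≤ k →
    Ok (o.mapIdx fun i u => Slice.cup (i + j) u) k (k + 2 * o.length) := by
  induction o with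
  | nil => intro k j _; simp [Ok]
  | cons u o ih =>
    intro k j h
    rw [List.mapIdx_cons]
    refine ⟨by simpa using h, ?_⟩
    have := ih (k + 2) (j + 1) (by omega)
    have e : (fun i u => Slice.cup (i + 1 + j) u) = fun i u => Slice.cup (i + (j + 1)) u := by
      funext i u
      congr 1
      ring
    rw [e]
    convert this using 1
    rw [List.length_cons]
    ring

lemma ok_caps (n : ℕ) : Ok ((List.range n).reverse.map Slice.cap) (2 * n) 0 := by
  induction n with
  | zero => simp [Ok]
  | succ n ih =>
    rw [List.range_succ, List.reverse_append, List.reverse_singleton, List.singleton_append,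
      List.map_cons]
    refine ⟨by omega, ?_⟩
    have : 2 * (n + 1) - 2 = 2 * n := by omega
    rw [this]
    exact ih

lemma ok_more (w : List Slice) : ∀ n n' k, Ok w n n' → Ok w (n + k) (n' + k) := by
  induction w with
  | nil => intro n n' k h; simp only [Ok] at h ⊢; omega
  | cons s w ih =>
    intro n n' k h
    cases s with
    | cup i u =>
      refine ⟨by have := h.1; omega, ?_⟩
      have := ih _ _ k h.2
      have e : n + k + 2 = n + 2 + k := by ring
      rw [e]
      exact this
    | cap i =>
      refine ⟨by have := h.1; omega, ?_⟩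
      have := ih _ _ k h.2
      have e : n + k - 2 = n - 2 + k := by have := h.1; omega
      rw [e]
      exact this
    | cross i p => exact ⟨by have := h.1; omega, ih _ _ k h.2⟩

lemma ok_closeUp (o : List Bool) (w : List Slice) (hw : Ok w o.length o.length) :
    Ok (closeUp o w) 0 0 := by
  have h1 := ok_cups o 0 0 le_rfl
  have h2 := ok_more w _ _ o.length hw
  have h3 := ok_caps o.length
  simp only [Nat.add_zero, Nat.zero_add] at h1
  rw [← two_mul] at h2
  exact ok_append _ _ _ _ _ h1 (ok_append _ _ _ _ _ h2 h3)

theorem bracket_closeUp (z : ℂˣ) (hz : (z : ℂ) ^ 4 - (z : ℂ) ^ 3 + (z : ℂ) ^ 2 - z + 1 = 0)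
    (o : List Bool) (ho : o ≠ []) (w : List Slice) (hw : Ok w o.length o.length) :
    dd (z : ℂ) * evalAt z (bracket (closeUp o w)) =
      trw (gx (dd (z : ℂ))) o.length (run (z : ℂ) w) := by
  have hd := clo_dd hz
  have hl : evalAt z loopVal = dd (z : ℂ) := by
    have h0 : (z : ℂ) ≠ 0 := z.ne_zero
    simp only [loopVal, map_neg, map_add]
    simp only [evalAt, LaurentPolynomial.eval₂_T]
    have h3 : ((z ^ (-2 : ℤ) : ℂˣ) : ℂ) = -(z : ℂ) ^ 3 := by
      rw [zpow_neg]
      push_cast
      field_simp
      linear_combination (1 + (z : ℂ)) * hz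
    have h2 : ((z ^ (2 : ℤ) : ℂˣ) : ℂ) = (z : ℂ) ^ 2 := by norm_cast
    rw [h3, h2]
    unfold dd
    ring
  have hne : closeUp o w ≠ [] := by
    unfold closeUp
    rcases o with _ | ⟨u, o⟩
    · exact absurd rfl ho
    · rw [List.mapIdx_cons]
      simp
  have h1 := path_bracket z (dd (z : ℂ)) hd hl (closeUp o w) (ok_closeUp o w hw) hne false
  rw [← h1, run_pathOps z hz]
  have h2 := run_closure hd o (loc_run (z : ℂ) w _ _ hw)
  rw [← h2]
  unfold closeUp
  rw [run_append, run_append]
  rfl

end Pool.Agent.Helper77.Sat
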