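import Pool.Agent.Helper77.Sat.Defs
import Pool.Agent.Helper2.Final

/-!
# Module P: components
-/

namespace Pool.Agent.Helper77.Sat

open Pool.Agent.Helper2

variable {R : Type} [CommRing R]

/-! ### The two-colouring model of a part of a diagram -/

private lemma compCup (φ : List Bool → ℤ) (p : List Bool) (a b : Bool) (r : List Bool) :
    Helper2.lift eCup0 p.length φ (p ++ a :: b :: r) = if a = b then φ (p ++ r) else 0 := by
  rw [lift_append]
  simp only [eCup0]

private lemma compCap (φ : List Bool → ℤ) (p : List Bool) (r : List Bool) :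
    Helper2.lift eCap0 p.length φ (p ++ r) =
      φ (p ++ true :: true :: r) + φ (p ++ false :: false :: r) := by
  rw [lift_append]
  simp only [eCap0]

private lemma compCross (φ : List Bool → ℤ) (p : List Bool) (a b : Bool) (r : List Bool) :
    Helper2.lift eX0 p.length φ (p ++ a :: b :: r) = φ (p ++ b :: a :: r) := by
  rw [lift_append]
  simp only [eX0]

private lemma compOk_wide (w : List Slice) : ∀ (n m k : ℕ), Ok w n m → Ok w (n + k) (m + k) := by
  induction w with
  | nil => intro n m k h; simp only [Ok] at h ⊢; omega
  | cons s w ih =>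
    intro n m k h
    cases s with
    | cup i u =>
      refine ⟨by have := h.1; omega, ?_⟩
      have := ih _ _ k h.2
      rwa [show n + k + 2 = n + 2 + k by omega]
    | cap i =>
      refine ⟨by have := h.1; omega, ?_⟩
      have := ih _ _ k h.2
      rwa [show n + k - 2 = n - 2 + k by have := h.1; omega]
    | cross i p =>
      exact ⟨by have := h.1; omega, ih _ _ k h.2⟩

private lemma compCongr (w : List Slice) : ∀ (n m : ℕ) (φ ψ : List Bool → ℤ), Ok w n m →
    (∀ y : List Bool, y.length = n → φ y = ψ y) → ∀ y : List Bool, y.length = m →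
      colOps.run w φ y = colOps.run w ψ y := by
  induction w with
  | nil =>
    intro n m φ ψ h H y hy
    simp only [Ok] at h
    subst h
    exact H y hy
  | cons s w ih =>
    intro n m φ ψ h H y hy
    cases s with
    | cup i u =>
      refine ih _ _ _ _ h.2 ?_ y hy
      intro y hy
      have hi := h.1
      obtain ⟨p, r, rfl, rfl⟩ := split_list y i (by omega)
      rcases r with _ | ⟨a, _ | ⟨b, r⟩⟩
      · simp at hy; omega
      · simp at hy; omega
      · change Helper2.lift eCup0 p.length φ _ = Helper2.lift eCup0 p.length ψ _
        rw [compCup, compCup, H (p ++ r) (by simp at hy ⊢; omega)]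
    | cap i =>
      refine ih _ _ _ _ h.2 ?_ y hy
      intro y hy
      have hi := h.1
      obtain ⟨p, r, rfl, rfl⟩ := split_list y i (by omega)
      change Helper2.lift eCap0 p.length φ _ = Helper2.lift eCap0 p.length ψ _
      rw [compCap, compCap, H (p ++ true :: true :: r) (by simp at hy ⊢; omega),
        H (p ++ false :: false :: r) (by simp at hy ⊢; omega)]
    | cross i q =>
      refine ih _ _ _ _ h.2 ?_ y hy
      intro y hy
      have hi := h.1
      obtain ⟨p, r, rfl, rfl⟩ := split_list y i (by omega)
      rcases r with _ | ⟨a, _ | ⟨b, r⟩⟩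
      · simp at hy; omega
      · simp at hy; omega
      · change Helper2.lift eX0 p.length φ _ = Helper2.lift eX0 p.length ψ _
        rw [compCross, compCross, H (p ++ b :: a :: r) (by simp at hy ⊢; omega)]

private lemma compSuffix (w : List Slice) : ∀ (n m : ℕ) (ψ : List Bool → ℤ) (r : List Bool),
    Ok w n m → ∀ y : List Bool, y.length = m →
      colOps.run w ψ (y ++ r) = colOps.run w (fun y' => ψ (y' ++ r)) y := by
  induction w with
  | nil => intro n m ψ r _ y _; rfl
  | cons s w ih =>
    intro n m ψ r h y hy
    cases s with
    | cup i u =>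
      have h1 := ih _ _ (Helper2.lift eCup0 i ψ) r h.2 y hy
      have e1 : colOps.run (Slice.cup i u :: w) ψ = colOps.run w (Helper2.lift eCup0 i ψ) := rfl
      have e2 : colOps.run (Slice.cup i u :: w) (fun y' => ψ (y' ++ r)) =
        colOps.run w (Helper2.lift eCup0 i (fun y' => ψ (y' ++ r))) := rfl
      rw [e1, h1, e2]
      refine compCongr w _ _ _ _ h.2 ?_ y hy
      intro y hy
      have hi := h.1
      obtain ⟨p, q, rfl, rfl⟩ := split_list y i (by omega)
      rcases q with _ | ⟨a, _ | ⟨b, q⟩⟩
      · simp at hy; omega
      · simp at hy; omega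
      · rw [compCup, List.append_assoc, List.cons_append, List.cons_append, compCup,
          List.append_assoc]
    | cap i =>
      have h1 := ih _ _ (Helper2.lift eCap0 i ψ) r h.2 y hy
      have e1 : colOps.run (Slice.cap i :: w) ψ = colOps.run w (Helper2.lift eCap0 i ψ) := rfl
      have e2 : colOps.run (Slice.cap i :: w) (fun y' => ψ (y' ++ r)) =
        colOps.run w (Helper2.lift eCap0 i (fun y' => ψ (y' ++ r))) := rfl
      rw [e1, h1, e2]
      refine compCongr w _ _ _ _ h.2 ?_ y hy
      intro y hy
      have hi := h.1
      obtain ⟨p, q, rfl, rfl⟩ := split_list y i (by omega)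
      rw [compCap, List.append_assoc, compCap]
      simp
    | cross i q =>
      have h1 := ih _ _ (Helper2.lift eX0 i ψ) r h.2 y hy
      have e1 : colOps.run (Slice.cross i q :: w) ψ = colOps.run w (Helper2.lift eX0 i ψ) := rfl
      have e2 : colOps.run (Slice.cross i q :: w) (fun y' => ψ (y' ++ r)) =
        colOps.run w (Helper2.lift eX0 i (fun y' => ψ (y' ++ r))) := rfl
      rw [e1, h1, e2]
      refine compCongr w _ _ _ _ h.2 ?_ y hy
      intro y hy
      have hi := h.1
      obtain ⟨p, q, rfl, rfl⟩ := split_list y i (by omega)
      rcases q with _ | ⟨a, _ | ⟨b, q⟩⟩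
      · simp at hy; omega
      · simp at hy; omega
      · rw [compCross, List.append_assoc, List.cons_append, List.cons_append, compCross,
          List.append_assoc, List.cons_append, List.cons_append]

/-! ### Sums over lists -/

private lemma compSum_cons (n : ℕ) (F : List Bool → ℤ) :
    ∑ y ∈ lists (n + 1), F y = ∑ x ∈ lists n, (F (true :: x) + F (false :: x)) := by
  classical
  have hd : Disjoint ((lists n).image (true :: ·)) ((lists n).image (false :: ·)) := by
    rw [Finset.disjoint_left]
    intro y h1 h2
    simp only [Finset.mem_image] at h1 h2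
    obtain ⟨x, _, rfl⟩ := h1
    obtain ⟨z, _, hz⟩ := h2
    simp at hz
  have e : lists (n + 1) = (lists n).image (true :: ·) ∪ (lists n).image (false :: ·) := by
    ext y
    simp only [mem_lists, Finset.mem_union, Finset.mem_image]
    constructor
    · intro h
      rcases y with _ | ⟨a, y⟩
      · simp at h
      · cases a
        · exact Or.inr ⟨y, by simpa using h, rfl⟩
        · exact Or.inl ⟨y, by simpa using h, rfl⟩
    · rintro (⟨x, hx, rfl⟩ | ⟨x, hx, rfl⟩) <;> simpa using hx
  rw [e, Finset.sum_union hd, Finset.sum_image (by intro a _ b _ h; simpa using h),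
    Finset.sum_image (by intro a _ b _ h; simpa using h), Finset.sum_add_distrib]

private lemma compSum_concat (n : ℕ) : ∀ (F : List Bool → ℤ),
    ∑ y ∈ lists (n + 1), F y = ∑ x ∈ lists n, (F (x ++ [true]) + F (x ++ [false])) := by
  induction n with
  | zero => intro F; rw [compSum_cons]; simp [lists]
  | succ n ih =>
    intro F
    rw [compSum_cons, ih, compSum_cons]
    apply Finset.sum_congr rfl
    intro x _
    simp only [List.cons_append]
    ring

/-! ### Closures -/

/-- The trace of a stack of pieces in the two-colouring model. -/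
private noncomputable def compTr (w : List Slice) (n : ℕ) : ℤ :=
  ∑ x ∈ lists n, colOps.run w (fun y => if y = x then 1 else 0) x

private lemma closeUp_concat (o : List Bool) (u : Bool) (w : List Slice) :
    closeUp (o ++ [u]) w =
      closeUp o (Slice.cup o.length u :: (w ++ [Slice.cap o.length])) := by
  simp [closeUp, List.mapIdx_append, List.range_succ]

private lemma closeUp_ok (o : List Bool) : ∀ (w : List Slice), Ok w o.length o.length →
    Ok (closeUp o w) 0 0 := by
  induction o using List.reverseRecOn with
  | nil => intro w h; simpa [closeUp] using h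
  | append_singleton o u ih =>
    intro w h
    rw [closeUp_concat]
    apply ih
    refine ⟨le_refl _, ?_⟩
    apply ok_append _ _ _ (o.length + 2)
    · have := compOk_wide w _ _ 1 h
      simpa using this
    · exact ⟨le_refl _, by simp [Ok]⟩

private lemma closeUp_run (o : List Bool) : ∀ (w : List Slice), Ok w o.length o.length →
    colOps.run (closeUp o w) (fun l => if l.length = 0 then 1 else 0) [] =
      compTr w o.length := by
  induction o using List.reverseRecOn with
  | nil =>
    intro w h
    have e : closeUp [] w = w := by simp [closeUp]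
    rw [e, compTr]
    simp only [List.length_nil, lists, Finset.sum_singleton]
    have e2 : (fun l : List Bool => if l.length = 0 then (1 : ℤ) else 0) =
        fun y => if y = [] then 1 else 0 := by
      funext l
      cases l <;> simp
    rw [e2]
  | append_singleton o u ih =>
    intro w h
    have h' : Ok w (o.length + 1) (o.length + 1) := by simpa using h
    have hw : Ok w (o.length + 2) (o.length + 2) := compOk_wide w _ _ 1 h'
    have hh : Ok (Slice.cup o.length u :: (w ++ [Slice.cap o.length])) o.length o.length :=
      ⟨le_refl _, ok_append _ _ _ (o.length + 2) _ hw ⟨le_refl _, by simp [Ok]⟩⟩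
    rw [closeUp_concat, ih _ hh]
    rw [List.length_append, List.length_singleton, compTr, compTr, compSum_concat]
    apply Finset.sum_congr rfl
    intro x hx
    rw [mem_lists] at hx
    have e1 : colOps.run (Slice.cup o.length u :: (w ++ [Slice.cap o.length]))
        (fun y => if y = x then 1 else 0) = Helper2.lift eCap0 o.length (colOps.run w
          (Helper2.lift eCup0 o.length (fun y => if y = x then 1 else 0))) := by
      rw [Ops.run, Ops.run_append]
      rfl
    have key : ∀ c : Bool, colOps.run w
        (Helper2.lift eCup0 o.length (fun y => if y = x then 1 else 0)) (x ++ [c, c]) =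
        colOps.run w (fun y => if y = x ++ [c] then 1 else 0) (x ++ [c]) := by
      intro c
      have e2 : x ++ [c, c] = (x ++ [c]) ++ [c] := by simp
      rw [e2, compSuffix w _ _ _ [c] h' (x ++ [c]) (by simp [hx])]
      refine compCongr w _ _ _ _ h' ?_ _ (by simp [hx])
      intro y hy
      obtain ⟨p, r, rfl, hp⟩ := split_list y o.length (by omega)
      rcases r with _ | ⟨a, r⟩
      · simp at hy; omega
      · have hr : r = [] := List.eq_nil_of_length_eq_zero (by simp at hy; omega)
        subst hr
        rw [← hp]
        have e3 : p ++ [a] ++ [c] = p ++ a :: c :: [] := by simp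
        rw [e3, compCup, List.append_nil]
        by_cases hac : a = c
        · subst hac
          simp
        · rw [if_neg hac]
          by_cases hpx : p = x
          · subst hpx; simp [hac]
          · have : ¬ (p ++ [a] = x ++ [c]) := by
              intro H
              have := List.append_inj H (by rw [hp, hx])
              exact hpx this.1
            rw [if_neg this]
    rw [e1]
    have e4 : Helper2.lift eCap0 o.length (colOps.run w
        (Helper2.lift eCup0 o.length (fun y => if y = x then 1 else 0))) x =
        colOps.run w (Helper2.lift eCup0 o.length (fun y => if y = x then 1 else 0))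
          (x ++ [true, true]) +
        colOps.run w (Helper2.lift eCup0 o.length (fun y => if y = x then 1 else 0))
          (x ++ [false, false]) := by
      generalize colOps.run w (Helper2.lift eCup0 o.length (fun y => if y = x then 1 else 0)) = φ
      have := compCap φ x []
      rw [List.append_nil, hx] at this
      exact this
    rw [e4, key, key]

private lemma compCurves (o : List Bool) (w : List Slice) (h : Ok w o.length o.length) :
    (2 : ℤ) ^ curves (closeUp o w) = compTr w o.length := by
  rw [← closeUp_run o w h, colour_curves _ (closeUp_ok o w h)]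

/-! ### Permuted lists -/

/-- The list with the entries `L (f 0), ..., L (f (m - 1))`. -/
private def compP {β : Type} (d : β) (m : ℕ) (f : ℕ → ℕ) (L : List β) : List β :=
  (List.range m).map fun j => L.getD (f j) d

private lemma compP_length {β : Type} (d : β) (m : ℕ) (f : ℕ → ℕ) (L : List β) :
    (compP d m f L).length = m := by simp [compP]

private lemma compP_getD {β : Type} (d : β) (m : ℕ) (f : ℕ → ℕ) (L : List β) (j : ℕ)
    (hj : j < m) : (compP d m f L).getD j d = L.getD (f j) d := by
  simp [compP, List.getD_eq_getElem?_getD, hj]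

private lemma comp_ext {β : Type} (d : β) (m : ℕ) (L L' : List β) (h : L.length = m)
    (h' : L'.length = m) (H : ∀ j < m, L.getD j d = L'.getD j d) : L = L' := by
  apply List.ext_getElem (by rw [h, h'])
  intro j h1 h2
  have := H j (by omega)
  rw [List.getD_eq_getElem _ _ h1, List.getD_eq_getElem _ _ h2] at this
  exact this

private lemma compP_comp {β : Type} (d : β) (m : ℕ) (f g : ℕ → ℕ) (L : List β)
    (hg : ∀ j < m, g j < m) : compP d m g (compP d m f L) = compP d m (fun j => f (g j)) L := by
  apply comp_ext d m _ _ (compP_length _ _ _ _) (compP_length _ _ _ _)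
  intro j hj
  rw [compP_getD _ _ _ _ _ hj, compP_getD _ _ _ _ _ (hg j hj), compP_getD _ _ _ _ _ hj]

private lemma compP_id {β : Type} (d : β) (m : ℕ) (L : List β) (h : L.length = m) :
    compP d m (fun j => j) L = L := by
  apply comp_ext d m _ _ (compP_length _ _ _ _) h
  intro j hj
  rw [compP_getD _ _ _ _ _ hj]

private lemma compP_swap {β : Type} (d : β) (p : List β) (a b : β) (r : List β) (m : ℕ)
    (hm : (p ++ a :: b :: r).length = m) :
    compP d m (Equiv.swap p.length (p.length + 1)) (p ++ a :: b :: r) = p ++ b :: a :: r := by
  apply comp_ext d m _ _ (compP_length _ _ _ _) (by simpa using hm)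
  intro j hj
  rw [compP_getD _ _ _ _ _ hj]
  simp only [List.getD_eq_getElem?_getD]
  congr 1
  rcases lt_trichotomy j p.length with h | h | h
  · rw [Equiv.swap_apply_of_ne_of_ne (by omega) (by omega), List.getElem?_append_left h,
      List.getElem?_append_left h]
  · subst h
    rw [Equiv.swap_apply_left, List.getElem?_append_right (by omega),
      List.getElem?_append_right (by omega)]
    simp
  · obtain ⟨k, rfl⟩ : ∃ k, j = p.length + 1 + k := ⟨j - p.length - 1, by omega⟩
    cases k with
    | zero =>
      rw [Nat.add_zero, Equiv.swap_apply_right, List.getElem?_append_right (by omega),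
        List.getElem?_append_right (by omega)]
      simp
    | succ k =>
      rw [Equiv.swap_apply_of_ne_of_ne (by omega) (by omega),
        List.getElem?_append_right (by omega), List.getElem?_append_right (by omega)]
      have e : p.length + 1 + (k + 1) - p.length = k + 1 + 1 := by omega
      rw [e]
      simp

private lemma comp_swap_lt (m i j : ℕ) (hi : i + 1 < m) (hj : j < m) :
    Equiv.swap i (i + 1) j < m := by
  by_cases h1 : j = i
  · subst h1; rw [Equiv.swap_apply_left]; exact hi
  · by_cases h2 : j = i + 1
    · subst h2; rw [Equiv.swap_apply_right]; omega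
    · rw [Equiv.swap_apply_of_ne_of_ne h1 h2]; exact hj

private lemma comp_perm_lt (m : ℕ) (b : List (ℕ × Bool)) (hb : ∀ x ∈ b, x.1 + 1 < m) :
    ∀ j < m, perm b j < m := by
  induction b with
  | nil => intro j hj; simpa [perm] using hj
  | cons x b ih =>
    intro j hj
    rw [perm, Equiv.Perm.mul_apply]
    exact ih (fun y hy => hb y (List.mem_cons_of_mem _ hy)) _
      (comp_swap_lt m _ _ (hb x (List.mem_cons_self ..)) hj)

private lemma comp_perm_inv_lt (m : ℕ) (b : List (ℕ × Bool)) (hb : ∀ x ∈ b, x.1 + 1 < m) :
    ∀ j < m, ∃ k < m, perm b k = j := by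
  induction b with
  | nil => intro j hj; exact ⟨j, hj, rfl⟩
  | cons x b ih =>
    intro j hj
    obtain ⟨k, hk, rfl⟩ := ih (fun y hy => hb y (List.mem_cons_of_mem _ hy)) j hj
    refine ⟨Equiv.swap x.1 (x.1 + 1) k, comp_swap_lt m _ _ (hb x (List.mem_cons_self ..)) hk, ?_⟩
    rw [perm, Equiv.Perm.mul_apply, Equiv.swap_apply_self]

private lemma comp_pow_lt (m : ℕ) (b : List (ℕ × Bool)) (hb : ∀ x ∈ b, x.1 + 1 < m)
    (r : ℕ) : ∀ j < m, (perm b ^ r) j < m := by
  induction r with
  | zero => intro j hj; simpa using hj
  | succ r ih =>
    intro j hj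
    rw [pow_succ', Equiv.Perm.mul_apply]
    exact comp_perm_lt m b hb _ (ih j hj)

private lemma comp_perm_cons (m : ℕ) (x : ℕ × Bool) (b : List (ℕ × Bool)) {β : Type} (d : β)
    (L : List β) (hx : x.1 + 1 < m) :
    compP d m (Equiv.swap x.1 (x.1 + 1)) (compP d m (perm b) L) = compP d m (perm (x :: b)) L := by
  rw [compP_comp _ _ _ _ _ (fun j hj => comp_swap_lt m _ _ hx hj)]
  rfl

private lemma comp_run_braid (m : ℕ) (b : List (ℕ × Bool)) : (∀ x ∈ b, x.1 + 1 < m) →
    ∀ (ψ : List Bool → ℤ) (y : List Bool), y.length = m →
      colOps.run (braid b) ψ y = ψ (compP false m (perm b) y) := by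
  induction b with
  | nil =>
    intro _ ψ y hy
    have : compP false m (perm []) y = y := compP_id false m y hy
    rw [this]
    rfl
  | cons x b ih =>
    intro hb ψ y hy
    have e : colOps.run (braid (x :: b)) ψ = colOps.run (braid b) (Helper2.lift eX0 x.1 ψ) := rfl
    rw [e, ih (fun z hz => hb z (List.mem_cons_of_mem _ hz)) _ y hy]
    have hx := hb x (List.mem_cons_self ..)
    rw [← comp_perm_cons m x b false y hx]
    have hl : (compP false m (perm b) y).length = m := compP_length _ _ _ _
    generalize compP false m (perm b) y = z at hl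
    obtain ⟨p, r, rfl, hp⟩ := split_list z x.1 (by omega)
    rcases r with _ | ⟨a, _ | ⟨c, r⟩⟩
    · simp at hl; omega
    · simp at hl; omega
    · rw [← hp, compCross, compP_swap false p a c r m hl]

private lemma comp_ok_cross (N : ℕ) (w : List Slice)
    (h : ∀ s ∈ w, ∃ i p, s = Slice.cross i p ∧ i + 2 ≤ N) : Ok w N N := by
  induction w with
  | nil => simp [Ok]
  | cons s w ih =>
    obtain ⟨i, p, rfl, hi⟩ := h s (List.mem_cons_self ..)
    exact ⟨hi, ih fun s hs => h s (List.mem_cons_of_mem _ hs)⟩

private lemma comp_ok_braid (m : ℕ) (b : List (ℕ × Bool)) (hb : ∀ x ∈ b, x.1 + 1 < m) :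
    Ok (braid b) m m := by
  apply comp_ok_cross
  intro s hs
  simp only [braid, List.mem_map] at hs
  obtain ⟨x, hx, rfl⟩ := hs
  exact ⟨x.1, x.2, rfl, by have := hb x hx; omega⟩

private lemma comp_ok_parallel (n m : ℕ) (b : List (ℕ × Bool)) (hb : ∀ x ∈ b, x.1 + 1 < m) :
    Ok (parallel n b) (m * n) (m * n) := by
  apply comp_ok_cross
  intro s hs
  simp only [parallel, blockCross, passRight, List.mem_flatMap, List.mem_reverse,
    List.mem_range, List.mem_map] at hs
  obtain ⟨x, hx, j, hj, k, hk, rfl⟩ := hs
  refine ⟨_, _, rfl, ?_⟩
  have h1 := hb x hx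
  have h2 : n * x.1 + 2 * n ≤ m * n := by
    calc n * x.1 + 2 * n = (x.1 + 2) * n := by ring
      _ ≤ m * n := Nat.mul_le_mul_right _ (by omega)
  omega

private lemma comp_run_pass (i : ℕ) (p : Bool) (l : ℕ) : ∀ (ψ : List Bool → ℤ)
    (u z : List Bool) (a : Bool) (q : List Bool), u.length = i → z.length = l →
      colOps.run (passRight l i p) ψ (u ++ (z ++ a :: q)) = ψ (u ++ (a :: (z ++ q))) := by
  induction l with
  | zero =>
    intro ψ u z a q hu hz
    have : z = [] := List.eq_nil_of_length_eq_zero hz
    subst this
    rfl
  | succ l ih =>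
    intro ψ u z a q hu hz
    have e : passRight (l + 1) i p = passRight l i p ++ [Slice.cross (i + l) p] := by
      simp [passRight, List.range_succ]
    obtain ⟨z', r, rfl, hz'⟩ := split_list z l (by omega)
    rcases r with _ | ⟨c, r⟩
    · simp at hz; omega
    have hr : r = [] := List.eq_nil_of_length_eq_zero (by simp at hz; omega)
    subst hr
    rw [e, Ops.run_append]
    have e2 : colOps.run [Slice.cross (i + l) p] (colOps.run (passRight l i p) ψ) =
        Helper2.lift eX0 (i + l) (colOps.run (passRight l i p) ψ) := rfl
    rw [e2]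
    have e3 : u ++ (z' ++ [c] ++ a :: q) = (u ++ z') ++ c :: a :: q := by simp
    have e4 : i + l = (u ++ z').length := by simp; omega
    rw [e3, e4, compCross]
    have e5 : u ++ z' ++ a :: c :: q = u ++ (z' ++ a :: (c :: q)) := by simp
    rw [e5, ih ψ u z' a (c :: q) hu hz']
    simp

private lemma comp_run_block (i : ℕ) (p : Bool) (l k : ℕ) : ∀ (ψ : List Bool → ℤ)
    (u z v q : List Bool), u.length = i → z.length = l → v.length = k →
      colOps.run (blockCross k l i p) ψ (u ++ (z ++ (v ++ q))) = ψ (u ++ (v ++ (z ++ q))) := by
  induction k with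
  | zero =>
    intro ψ u z v q hu hz hv
    have : v = [] := List.eq_nil_of_length_eq_zero hv
    subst this
    rfl
  | succ k ih =>
    intro ψ u z v q hu hz hv
    have e : blockCross (k + 1) l i p = passRight l (i + k) p ++ blockCross k l i p := by
      simp [blockCross, List.range_succ]
    obtain ⟨v', r, rfl, hv'⟩ := split_list v k (by omega)
    rcases r with _ | ⟨c, r⟩
    · simp at hv; omega
    have hr : r = [] := List.eq_nil_of_length_eq_zero (by simp at hv; omega)
    subst hr
    rw [e, Ops.run_append]
    have e3 : u ++ (z ++ (v' ++ [c] ++ q)) = u ++ (z ++ (v' ++ (c :: q))) := by simp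
    rw [e3, ih _ u z v' (c :: q) hu hz hv']
    have e4 : u ++ (v' ++ (z ++ c :: q)) = (u ++ v') ++ (z ++ c :: q) := by simp
    rw [e4, comp_run_pass (i + k) p l ψ (u ++ v') z c q (by simp; omega) hz]
    simp

private lemma comp_flat_len (n : ℕ) (L : List (List Bool)) (h : ∀ B ∈ L, B.length = n) :
    L.flatten.length = n * L.length := by
  induction L with
  | nil => simp
  | cons B L ih =>
    rw [List.flatten_cons, List.length_append, ih fun C hC => h C (List.mem_cons_of_mem _ hC),
      h B (List.mem_cons_self ..), List.length_cons]
    ring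

private lemma comp_run_parallel (n m : ℕ) (b : List (ℕ × Bool)) : (∀ x ∈ b, x.1 + 1 < m) →
    ∀ (ψ : List Bool → ℤ) (L : List (List Bool)), L.length = m → (∀ B ∈ L, B.length = n) →
      colOps.run (parallel n b) ψ L.flatten = ψ (compP [] m (perm b) L).flatten := by
  induction b with
  | nil =>
    intro _ ψ L hL _
    have : compP [] m (perm []) L = L := compP_id [] m L hL
    rw [this]
    rfl
  | cons x b ih =>
    intro hb ψ L hL hn
    have hb' : ∀ y ∈ b, y.1 + 1 < m := fun z hz => hb z (List.mem_cons_of_mem _ hz)
    have e : parallel n (x :: b) = blockCross n n (n * x.1) x.2 ++ parallel n b := by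
      simp [parallel]
    rw [e, Ops.run_append, ih hb' _ L hL hn]
    have hx := hb x (List.mem_cons_self ..)
    rw [← comp_perm_cons m x b [] L hx]
    have hl : (compP [] m (perm b) L).length = m := compP_length _ _ _ _
    have hn' : ∀ B ∈ compP [] m (perm b) L, B.length = n := by
      intro B hB
      simp only [compP, List.mem_map, List.mem_range] at hB
      obtain ⟨j, hj, rfl⟩ := hB
      have := comp_perm_lt m b hb' j hj
      rw [List.getD_eq_getElem _ _ (by omega)]
      exact hn _ (List.getElem_mem _)
    generalize compP [] m (perm b) L = z at hl hn'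
    obtain ⟨p, r, rfl, hp⟩ := split_list z x.1 (by omega)
    rcases r with _ | ⟨a, _ | ⟨c, r⟩⟩
    · simp at hl; omega
    · simp at hl; omega
    · rw [← hp, compP_swap [] p a c r m hl]
      have h1 : p.flatten.length = n * p.length :=
        comp_flat_len n p fun B hB => hn' B (by simp [hB])
      have h2 : a.length = n := hn' a (by simp)
      have h3 : c.length = n := hn' c (by simp)
      have e1 : (p ++ a :: c :: r).flatten = p.flatten ++ (a ++ (c ++ r.flatten)) := by simp
      have e2 : (p ++ c :: a :: r).flatten = p.flatten ++ (c ++ (a ++ r.flatten)) := by simp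
      rw [e1, e2, comp_run_block _ _ n n ψ p.flatten a c r.flatten h1 h2 h3]

/-! ### The companion -/

private lemma comp_filter (m : ℕ) (b : List (ℕ × Bool)) (hb : ∀ x ∈ b, x.1 + 1 < m) :
    compTr (braid b) m =
      (((lists m).filter fun x => compP false m (perm b) x = x).card : ℤ) := by
  rw [compTr, Finset.card_filter]
  push_cast
  apply Finset.sum_congr rfl
  intro x hx
  rw [mem_lists] at hx
  rw [comp_run_braid m b hb _ x hx]

private lemma comp_return (m : ℕ) (b : List (ℕ × Bool)) (hb : ∀ x ∈ b, x.1 + 1 < m)
    (hm : 0 < m) : ∃ N : ℕ, (perm b ^ (N + 1)) 0 = 0 := by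
  obtain ⟨r, s, hne, he⟩ := Finite.exists_ne_map_eq_of_infinite
    (fun r : ℕ => (⟨(perm b ^ r) 0, comp_pow_lt m b hb r 0 hm⟩ : Fin m))
  have he' : (perm b ^ r) 0 = (perm b ^ s) 0 := by simpa using he
  rcases Nat.lt_or_gt_of_ne hne with h | h
  · refine ⟨s - r - 1, ?_⟩
    have e : s = r + (s - r - 1 + 1) := by omega
    rw [e, pow_add, Equiv.Perm.mul_apply] at he'
    exact ((perm b ^ r).injective he').symm
  · refine ⟨r - s - 1, ?_⟩
    have e : r = s + (r - s - 1 + 1) := by omega
    rw [e, pow_add, Equiv.Perm.mul_apply] at he'
    exact (perm b ^ s).injective he'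

theorem cycle_of_curves (m : ℕ) (b : List (ℕ × Bool)) (hb : ∀ x ∈ b, x.1 + 1 < m)
    (h : curves (companion m b) = 1) : ∀ j < m, ∃ r : ℕ, (perm b ^ r) 0 = j := by
  classical
  intro j hj
  by_contra hcon
  have hm : 0 < m := by omega
  have h1 := compCurves (List.replicate m true) (braid b) (by
    simpa using comp_ok_braid m b hb)
  have h2 : (2 : ℤ) ^ curves (closeUp (List.replicate m true) (braid b)) = 2 := by
    have : curves (closeUp (List.replicate m true) (braid b)) = 1 := h
    rw [this, pow_one]
  rw [h2, List.length_replicate, comp_filter m b hb] at h1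
  have h3 : ((lists m).filter fun x => compP false m (perm b) x = x).card = 2 := by
    exact_mod_cast h1.symm
  have hconst : ∀ c : Bool, compP false m (perm b) (List.replicate m c) = List.replicate m c := by
    intro c
    apply comp_ext false m _ _ (compP_length _ _ _ _) (by simp)
    intro k hk
    have := comp_perm_lt m b hb k hk
    rw [compP_getD _ _ _ _ _ hk, List.getD_eq_getElem _ _ (by simpa using this),
      List.getD_eq_getElem _ _ (by simpa using hk)]
    simp
  set z : List Bool := (List.range m).map fun k => decide (∃ r : ℕ, (perm b ^ r) 0 = k) with hz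
  have hzl : z.length = m := by simp [hz]
  have hzg : ∀ k < m, z.getD k false = decide (∃ r : ℕ, (perm b ^ r) 0 = k) := by
    intro k hk
    simp [hz, List.getD_eq_getElem?_getD, hk]
  have hzf : compP false m (perm b) z = z := by
    apply comp_ext false m _ _ (compP_length _ _ _ _) hzl
    intro k hk
    have hk' := comp_perm_lt m b hb k hk
    rw [compP_getD _ _ _ _ _ hk, hzg _ hk', hzg _ hk]
    congr 1
    apply propext
    constructor
    · rintro ⟨r, hr⟩
      cases r with
      | zero =>
        obtain ⟨N, hN⟩ := comp_return m b hb hm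
        refine ⟨N, ?_⟩
        apply (perm b).injective
        rw [← hr, ← Equiv.Perm.mul_apply, ← pow_succ', hN]
        simp
      | succ r =>
        refine ⟨r, ?_⟩
        apply (perm b).injective
        rw [← hr, ← Equiv.Perm.mul_apply, ← pow_succ']
    · rintro ⟨r, hr⟩
      refine ⟨r + 1, ?_⟩
      rw [pow_succ', Equiv.Perm.mul_apply, hr]
  have hsub : ({List.replicate m true, List.replicate m false, z} : Finset (List Bool)) ⊆
      (lists m).filter fun x => compP false m (perm b) x = x := by
    intro x hx
    simp only [Finset.mem_insert, Finset.mem_singleton] at hx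
    rw [Finset.mem_filter, mem_lists]
    rcases hx with rfl | rfl | rfl
    · exact ⟨by simp, hconst true⟩
    · exact ⟨by simp, hconst false⟩
    · exact ⟨hzl, hzf⟩
  have h0 : z.getD 0 false = true := by
    rw [hzg 0 hm]
    exact decide_eq_true ⟨0, by simp⟩
  have hjf : z.getD j false = false := by
    rw [hzg j hj]
    exact decide_eq_false hcon
  have n1 : List.replicate m true ≠ List.replicate m false := by
    intro H
    have := congrArg (fun l => l.getD 0 false) H
    simp [hm] at this
  have n2 : List.replicate m true ≠ z := by
    intro H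
    rw [← H] at hjf
    simp [hj] at hjf
  have n3 : List.replicate m false ≠ z := by
    intro H
    rw [← H] at h0
    simp [hm] at h0
  have hcard := Finset.card_le_card hsub
  rw [h3, Finset.card_insert_of_notMem (by simp [n1, n2]), Finset.card_insert_of_notMem
    (by simp [n3]), Finset.card_singleton] at hcard
  omega

/-! ### The satellite -/

private lemma comp_chunk (n : ℕ) (m : ℕ) : ∀ y : List Bool, y.length = m * n →
    ∃ L : List (List Bool), L.length = m ∧ (∀ B ∈ L, B.length = n) ∧ y = L.flatten := by
  induction m with
  | zero =>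
    intro y hy
    have : y = [] := List.eq_nil_of_length_eq_zero (by simpa using hy)
    exact ⟨[], rfl, by simp, by simp [this]⟩
  | succ m ih =>
    intro y hy
    have hy' : y.length = m * n + n := by rw [hy]; ring
    obtain ⟨p, r, rfl, hp⟩ := split_list y n (by omega)
    obtain ⟨L, h1, h2, rfl⟩ := ih r (by rw [List.length_append] at hy'; omega)
    refine ⟨p :: L, by simp [h1], ?_, by simp⟩
    intro B hB
    rcases List.mem_cons.1 hB with rfl | hB
    · exact hp
    · exact h2 B hB

private lemma comp_flat_inj (n : ℕ) : ∀ (L L' : List (List Bool)), L.length = L'.length →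
    (∀ B ∈ L, B.length = n) → (∀ B ∈ L', B.length = n) → L.flatten = L'.flatten → L = L' := by
  intro L
  induction L with
  | nil =>
    intro L' h _ _ _
    exact (List.eq_nil_of_length_eq_zero h.symm).symm
  | cons B L ih =>
    intro L' h h1 h2 h3
    rcases L' with _ | ⟨B', L'⟩
    · simp at h
    · rw [List.flatten_cons, List.flatten_cons] at h3
      have := List.append_inj h3 (by
        rw [h1 B (List.mem_cons_self ..), h2 B' (List.mem_cons_self ..)])
      rw [this.1, ih L' (by simpa using h) (fun C hC => h1 C (List.mem_cons_of_mem _ hC))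
        (fun C hC => h2 C (List.mem_cons_of_mem _ hC)) this.2]

private lemma comp_zero (w : List Slice) (y : List Bool) :
    colOps.run w (fun _ => 0) y = 0 := by
  have := run_lin colOps colOps_act_lin w
  rw [this.zero]

private lemma comp_const_iff (m : ℕ) (b : List (ℕ × Bool)) (hb : ∀ x ∈ b, x.1 + 1 < m)
    (hcyc : ∀ j < m, ∃ r : ℕ, (perm b ^ r) 0 = j) (y B : List Bool) (L : List (List Bool))
    (hL : (B :: L).length = m) :
    compP [] m (perm b) (y :: L) = B :: L ↔ y = B ∧ B :: L = List.replicate m B := by
  have hm : 0 < m := by rw [← hL]; simp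
  constructor
  · intro H
    have hH : ∀ j < m, (y :: L).getD (perm b j) [] = (B :: L).getD j [] := by
      intro j hj
      rw [← H, compP_getD _ _ _ _ _ hj]
    have hr : ∀ r : ℕ, (B :: L).getD ((perm b ^ r) 0) [] = B := by
      intro r
      induction r with
      | zero => simp
      | succ r ih =>
        have hlt := comp_pow_lt m b hb r 0 hm
        have h1 := hH _ hlt
        rw [pow_succ', Equiv.Perm.mul_apply]
        rcases hk : perm b ((perm b ^ r) 0) with _ | k
        · simp
        · rw [hk] at h1
          rw [ih] at h1
          simpa using h1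
    have hall : ∀ j < m, (B :: L).getD j [] = B := by
      intro j hj
      obtain ⟨r, rfl⟩ := hcyc j hj
      exact hr r
    refine ⟨?_, ?_⟩
    · obtain ⟨k, hk, hk0⟩ := comp_perm_inv_lt m b hb 0 hm
      have := hH k hk
      rw [hk0, hall k hk] at this
      simpa using this
    · apply comp_ext [] m _ _ hL (by simp)
      intro j hj
      rw [hall j hj, List.getD_eq_getElem _ _ (by simpa using hj)]
      simp
  · rintro ⟨rfl, H⟩
    rw [H]
    apply comp_ext [] m _ _ (compP_length _ _ _ _) (by simp)
    intro j hj
    have := comp_perm_lt m b hb j hj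
    rw [compP_getD _ _ _ _ _ hj, List.getD_eq_getElem _ _ (by simpa using this),
      List.getD_eq_getElem _ _ (by simpa using hj)]
    simp

private lemma comp_term (n m : ℕ) (b : List (ℕ × Bool)) (hb : ∀ x ∈ b, x.1 + 1 < m)
    (hcyc : ∀ j < m, ∃ r : ℕ, (perm b ^ r) 0 = j) (W : List Slice) (hW : Ok W n n)
    (B : List Bool) (L : List (List Bool)) (hL : (B :: L).length = m)
    (hn : ∀ C ∈ B :: L, C.length = n) :
    colOps.run (parallel n b ++ W) (fun y => if y = (B :: L).flatten then 1 else 0)
      (B :: L).flatten =
      if B :: L = List.replicate m B then colOps.run W (fun y => if y = B then 1 else 0) B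
        else 0 := by
  have hB : B.length = n := hn B (List.mem_cons_self ..)
  rw [Ops.run_append, List.flatten_cons, compSuffix W n n _ L.flatten hW B hB]
  have key : ∀ y : List Bool, y.length = n →
      colOps.run (parallel n b) (fun y => if y = B ++ L.flatten then 1 else 0)
        (y ++ L.flatten) = if y = B ∧ B :: L = List.replicate m B then 1 else 0 := by
    intro y hy
    have e : y ++ L.flatten = (y :: L).flatten := by simp
    have hyn : ∀ C ∈ y :: L, C.length = n := by
      intro C hC
      rcases List.mem_cons.1 hC with rfl | hC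
      · exact hy
      · exact hn C (List.mem_cons_of_mem _ hC)
    rw [e, comp_run_parallel n m b hb _ _ (by simpa using hL) hyn]
    have hn' : ∀ C ∈ compP [] m (perm b) (y :: L), C.length = n := by
      intro C hC
      simp only [compP, List.mem_map, List.mem_range] at hC
      obtain ⟨j, hj, rfl⟩ := hC
      have := comp_perm_lt m b hb j hj
      rw [List.getD_eq_getElem _ _ (by simp at hL ⊢; omega)]
      exact hyn _ (List.getElem_mem _)
    have e2 : (compP [] m (perm b) (y :: L)).flatten = B ++ L.flatten ↔
        (y = B ∧ B :: L = List.replicate m B) := by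
      rw [← comp_const_iff m b hb hcyc y B L hL]
      constructor
      · intro H
        exact comp_flat_inj n _ _ (by rw [compP_length, hL]) hn' hn (by simpa using H)
      · intro H
        rw [H]
        simp
    simp only [e2]
  split_ifs with hc
  · refine compCongr W n n _ _ hW ?_ B hB
    intro y hy
    rw [key y hy]
    simp [hc]
  · refine (compCongr W n n _ (fun _ => 0) hW ?_ B hB).trans (comp_zero W B)
    intro y hy
    rw [key y hy]
    simp [hc]

private lemma comp_trace_sat (n m : ℕ) (b : List (ℕ × Bool)) (hb : ∀ x ∈ b, x.1 + 1 < m)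
    (hm : 0 < m) (hcyc : ∀ j < m, ∃ r : ℕ, (perm b ^ r) 0 = j) (W : List Slice)
    (hW : Ok W n n) : compTr (parallel n b ++ W) (m * n) = compTr W n := by
  classical
  have hrep : ∀ B : List Bool, List.replicate m B = B :: List.replicate (m - 1) B := by
    intro B
    obtain ⟨k, rfl⟩ : ∃ k, m = k + 1 := ⟨m - 1, by omega⟩
    rw [List.replicate_succ, Nat.add_sub_cancel]
  have hinj : Set.InjOn (fun B : List Bool => (List.replicate m B).flatten) (lists n : Set _) := by
    intro B hB B' hB' H
    have h1 : B.length = n := mem_lists.1 (by simpa using hB)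
    have h2 : B'.length = n := mem_lists.1 (by simpa using hB')
    simp only [hrep, List.flatten_cons] at H
    exact (List.append_inj H (by rw [h1, h2])).1
  have hsub : (lists n).image (fun B : List Bool => (List.replicate m B).flatten) ⊆
      lists (m * n) := by
    intro y hy
    rw [Finset.mem_image] at hy
    obtain ⟨B, hB, rfl⟩ := hy
    rw [mem_lists] at hB ⊢
    rw [comp_flat_len n _ (fun C hC => by rw [List.eq_of_mem_replicate hC]; exact hB)]
    simp [mul_comm]
  rw [compTr, compTr, ← Finset.sum_subset hsub, Finset.sum_image hinj]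
  · apply Finset.sum_congr rfl
    intro B hB
    rw [mem_lists] at hB
    have := comp_term n m b hb hcyc W hW B (List.replicate (m - 1) B) (by simp; omega) (by
      intro C hC
      rcases List.mem_cons.1 hC with rfl | hC
      · exact hB
      · rw [List.eq_of_mem_replicate hC]; exact hB)
    rw [← hrep, if_pos rfl] at this
    exact this
  · intro y hy hy'
    rw [mem_lists] at hy
    obtain ⟨L, h1, h2, rfl⟩ := comp_chunk n m y hy
    rcases L with _ | ⟨B, L⟩
    · simp at h1; omega
    · rw [comp_term n m b hb hcyc W hW B L h1 h2, if_neg]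
      intro H
      apply hy'
      rw [Finset.mem_image]
      exact ⟨B, mem_lists.2 (h2 B (List.mem_cons_self ..)), by rw [← H]⟩

theorem curves_satellite (o : List Bool) (W : List Slice) (hW : dirsAbove W o = some o)
    (m : ℕ) (b : List (ℕ × Bool)) (hb : ∀ x ∈ b, x.1 + 1 < m)
    (h : curves (companion m b) = 1) :
    curves (satellite o W m b) = curves (closeUp o W) := by
  have hWo : Ok W o.length o.length := ok_of_dirs W o o hW
  have hcyc := cycle_of_curves m b hb h
  have hm : 0 < m := by
    rcases Nat.eq_zero_or_pos m with rfl | hm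
    · exfalso
      have hbn : b = [] := by
        rcases b with _ | ⟨x, b⟩
        · rfl
        · exact absurd (hb x (List.mem_cons_self ..)) (by omega)
      subst hbn
      simp [companion, closeUp, braid, curves] at h
    · exact hm
  have hlen : (List.replicate m o).flatten.length = m * o.length := by
    rw [comp_flat_len o.length _ (fun C hC => by rw [List.eq_of_mem_replicate hC])]
    simp [mul_comm]
  have hwide : Ok W (m * o.length) (m * o.length) := by
    obtain ⟨k, rfl⟩ : ∃ k, m = k + 1 := ⟨m - 1, by omega⟩
    have := compOk_wide W _ _ (k * o.length) hWo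
    rwa [show (k + 1) * o.length = o.length + k * o.length by ring]
  have hok : Ok (parallel o.length b ++ W) (List.replicate m o).flatten.length
      (List.replicate m o).flatten.length := by
    rw [hlen]
    exact ok_append _ _ _ _ _ (comp_ok_parallel o.length m b hb) hwide
  have h1 := compCurves (List.replicate m o).flatten (parallel o.length b ++ W) hok
  rw [hlen, comp_trace_sat o.length m b hb hm hcyc W hWo, ← compCurves o W hWo] at h1
  exact Int.pow_right_injective (a := 2) (by decide) h1

end Pool.Agent.Helper77.Sat
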