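import Pool.Agent.Helper2.StateSum

/-!
# Satellites of closed braids: diagrams and the path model over a commutative ring
-/

namespace Pool.Agent.Helper77.Sat

open Pool.Agent.Helper2

/-! ### Diagrams -/

/-- The closure of a stack of pieces `w` which has at the bottom and at the top strands with the
directions `o` (from left to right): the strands are joined by nested arcs on the right. -/
def closeUp (o : List Bool) (w : List Slice) : List Slice :=
  (o.mapIdx fun i u => Slice.cup i u) ++ (w ++ (List.range o.length).reverse.map Slice.cap)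

/-- The pieces of a braid word; the letter `(i, p)` is a crossing of the strands in positions
`i` and `i + 1`. -/
def braid (b : List (ℕ × Bool)) : List Slice := b.map fun x => Slice.cross x.1 x.2

/-- The strand in position `i` crosses the `k` strands to the right of it. -/
def passRight (k i : ℕ) (p : Bool) : List Slice :=
  (List.range k).map fun j => Slice.cross (i + j) p

/-- The `k` strands in the positions `i, ..., i + k - 1` cross the `l` strands to the right of
them. -/
def blockCross (k l i : ℕ) (p : Bool) : List Slice :=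
  (List.range k).reverse.flatMap fun j => passRight l (i + j) p

/-- The `n`-parallel of a braid word: every strand is replaced by `n` parallel strands. -/
def parallel (n : ℕ) (b : List (ℕ × Bool)) : List Slice :=
  b.flatMap fun x => blockCross n n (n * x.1) x.2

/-- The closure of the braid word `b` with `m` strands, all directed upwards. -/
def companion (m : ℕ) (b : List (ℕ × Bool)) : List Slice :=
  closeUp (List.replicate m true) (braid b)

/-- The satellite: the closure of the `n`-parallel of `b` with the pattern `W` (with directions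
`o` of the `n` strands at the bottom and the top) inserted in the first `n` strands. -/
def satellite (o : List Bool) (W : List Slice) (m : ℕ) (b : List (ℕ × Bool)) : List Slice :=
  closeUp (List.replicate m o).flatten (parallel o.length b ++ W)

/-- The exponent sum of a braid word. -/
def expSum (b : List (ℕ × Bool)) : ℤ := (b.map fun x => if x.2 then (1 : ℤ) else -1).sum

/-- The braid word `b` on `m` strands has exponent sum `0` and its closure is a knot. -/
def IsBraidKnot (m : ℕ) (b : List (ℕ × Bool)) : Prop :=
  (∀ x ∈ b, x.1 + 1 < m) ∧ expSum b = 0 ∧ curves (companion m b) = 1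

/-- The winding number of a pattern with directions `o`. -/
def winding (o : List Bool) : ℤ := (o.map fun u => if u then (1 : ℤ) else -1).sum

/-! ### The path model over a commutative ring -/

variable {R : Type} [CommRing R]

/-- Functions on lists of colours. -/
abbrev Fn (R : Type) : Type := List Bool → R

/-- The loop value `A^3 - A^2` (this is `-(A^2 + A^(-2))` if `A^4-A^3+A^2-A+1=0`). -/
def dd (A : R) : R := A ^ 3 - A ^ 2

/-- Coefficient of the vertical smoothing: `A` or `A^(-1) = -A^4`. -/
def ca (A : R) (p : Bool) : R := if p then A else -A ^ 4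

/-- Coefficient of the horizontal smoothing. -/
def cb (A : R) (p : Bool) : R := if p then -A ^ 4 else A

/-- The crossing. -/
def x0 (A : R) (p : Bool) (ψ : Fn R) : Fn R
  | a :: b :: c :: l => if (a || b) = true ∧ (b || c) = true then
      ca A p * ψ (a :: b :: c :: l) +
        cb A p * pCup0 (dd A) (pCap0 (dd A) ψ) (a :: b :: c :: l) else 0
  | _ => 0

/-- The trivalent vertex: one strand is split into two. -/
def s0 (A : R) (ψ : Fn R) : Fn R
  | a :: b :: c :: l => (if (a && c) = true then (if b then -1 else 1) else
      if ((a || c) && b) = true then dd A else 0) * ψ (a :: c :: l)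
  | _ => 0

/-- The trivalent vertex: two strands are merged into one. -/
def m0 (A : R) (ψ : Fn R) : Fn R
  | a :: c :: l => if (a && c) = true then
      (1 - dd A) * ψ (a :: true :: c :: l) + ψ (a :: false :: c :: l) else
      if (a || c) = true then ψ (a :: true :: c :: l) else 0
  | _ => 0

lemma x0_lin (A : R) (p : Bool) : Lin2 (x0 A p) := by
  intro φ₁ φ₂ c₁ c₂
  funext l
  rcases l with _ | ⟨a, _ | ⟨b, _ | ⟨c, l⟩⟩⟩
  · simp [x0]
  · simp [x0]
  · simp [x0]
  · simp only [x0]
    rw [pCap0_lin, pCup0_lin]
    split_ifs <;> ring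

lemma s0_lin (A : R) : Lin2 (s0 A) := by
  intro φ₁ φ₂ c₁ c₂
  funext l
  rcases l with _ | ⟨a, _ | ⟨b, _ | ⟨c, l⟩⟩⟩
  · simp [s0]
  · simp [s0]
  · simp [s0]
  · simp only [s0]
    ring

lemma m0_lin (A : R) : Lin2 (m0 A) := by
  intro φ₁ φ₂ c₁ c₂
  funext l
  rcases l with _ | ⟨a, _ | ⟨c, l⟩⟩
  · simp [m0]
  · simp [m0]
  · simp only [m0]
    split_ifs <;> ring

/-- A linear map from a linear operator. -/
def toLin (T : Fn R → Fn R) (h : Lin2 T) : Fn R →ₗ[R] Fn R where
  toFun := T
  map_add' φ ψ := h.add φ ψ
  map_smul' c φ := h.smul φ c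

@[simp] lemma toLin_apply (T : Fn R → Fn R) (h : Lin2 T) (ψ : Fn R) : toLin T h ψ = T ψ := rfl

lemma lin2_coe (T : Fn R →ₗ[R] Fn R) : Lin2 T := by
  intro φ₁ φ₂ c₁ c₂
  have h : (fun l => c₁ * φ₁ l + c₂ * φ₂ l) = c₁ • φ₁ + c₂ • φ₂ := rfl
  rw [h, map_add, map_smul, map_smul]
  rfl

/-- Let `T` act after skipping `i` strands. -/
def liftM (i : ℕ) (T : Fn R →ₗ[R] Fn R) : Fn R →ₗ[R] Fn R :=
  toLin (lift T i) ((lin2_coe T).lift i)

@[simp] lemma liftM_apply (i : ℕ) (T : Fn R →ₗ[R] Fn R) (ψ : Fn R) :
    liftM i T ψ = lift T i ψ := rfl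

/-- Cup of the path model. -/
def cupL (A : R) : Fn R →ₗ[R] Fn R := toLin (pCup0 (dd A)) (pCup0_lin _)

/-- Cap of the path model. -/
def capL (A : R) : Fn R →ₗ[R] Fn R := toLin (pCap0 (dd A)) (pCap0_lin _)

/-- Crossing of the path model. -/
def crossL (A : R) (p : Bool) : Fn R →ₗ[R] Fn R := toLin (x0 A p) (x0_lin A p)

/-- Split. -/
def splitL (A : R) : Fn R →ₗ[R] Fn R := toLin (s0 A) (s0_lin A)

/-- Merge. -/
def mergeL (A : R) : Fn R →ₗ[R] Fn R := toLin (m0 A) (m0_lin A)

/-- The operator of a piece. -/
def act (A : R) : Slice → Fn R →ₗ[R] Fn R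
  | .cup i _ => liftM i (cupL A)
  | .cap i => liftM i (capL A)
  | .cross i p => liftM i (crossL A p)

/-- The operator of a stack of pieces. -/
def run (A : R) : List Slice → Fn R →ₗ[R] Fn R
  | [] => LinearMap.id
  | s :: w => run A w ∘ₗ act A s

/-! ### Legal paths and traces -/

open Classical in
/-- All lists of length `n`. -/
noncomputable def lists : ℕ → Finset (List Bool)
  | 0 => {[]}
  | n + 1 => (lists n).image (true :: ·) ∪ (lists n).image (false :: ·)

open Classical in
/-- All legal paths with `n` steps. -/
noncomputable def lgl (n : ℕ) : Finset (List Bool) := (lists (n + 1)).filter legal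

lemma mem_lists {n : ℕ} {l : List Bool} : l ∈ lists n ↔ l.length = n := by
  induction n generalizing l with
  | zero => simp [lists]
  | succ n ih =>
    simp only [lists, Finset.mem_union, Finset.mem_image]
    constructor
    · rintro (⟨x, hx, rfl⟩ | ⟨x, hx, rfl⟩) <;> simpa using ih.1 hx
    · intro h
      rcases l with _ | ⟨a, l⟩
      · simp at h
      · have hl : l ∈ lists n := ih.2 (by simpa using h)
        cases a
        · exact Or.inr ⟨l, hl, rfl⟩
        · exact Or.inl ⟨l, hl, rfl⟩

lemma mem_lgl {n : ℕ} {l : List Bool} : l ∈ lgl n ↔ l.length = n + 1 ∧ legal l := by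
  simp [lgl, mem_lists]

/-- Weighted trace over the legal paths with `n` steps. -/
noncomputable def trw (g : List Bool → R) (n : ℕ) (T : Fn R →ₗ[R] Fn R) : R :=
  ∑ p ∈ lgl n, g p * T (Pi.single p 1) p

/-- The weight of the paths from `false`: `1` if they end in `false`, and `x` if they end in
`true`. -/
def gx (x : R) (p : List Bool) : R :=
  if p.head? = some false then (if p.getLast? = some true then x else 1) else 0

/-- The weight of the paths from `false` to `true`. -/
def g1 (p : List Bool) : R :=
  if p.head? = some false ∧ p.getLast? = some true then 1 else 0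

/-- `T` is a local operator from `n` strands to `n'` strands. -/
def Loc (n n' : ℕ) (T : Fn R →ₗ[R] Fn R) : Prop :=
  ∃ K : List Bool → List Bool → R,
    (∀ p q, K p q ≠ 0 → p ∈ lgl n' ∧ q ∈ lgl n ∧ p.head? = q.head? ∧ p.getLast? = q.getLast?) ∧
    ∀ k ψ, PSupp (n + k) ψ → PSupp (n' + k) (T ψ) ∧
      ∀ p r, p.length = n' + 1 → r.length = k → T ψ (p ++ r) = ∑ q ∈ lgl n, K p q * ψ (q ++ r)

/-- `T`, from `s` to `s'` strands, slides across a strand. -/
def Slides (A : R) (s s' : ℕ) (T : Fn R →ₗ[R] Fn R) : Prop :=
  (∀ p n ψ, PSupp (s + 1 + n) ψ →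
    run A (blockCross s' 1 0 p) (T ψ) = liftM 1 T (run A (blockCross s 1 0 p) ψ)) ∧
  (∀ p n ψ, PSupp (s + 1 + n) ψ →
    run A (passRight s' 0 p) (liftM 1 T ψ) = T (run A (passRight s 0 p) ψ))

/-- The permutation of a braid word: the strand in position `j` at the bottom is in position
`perm b j` at the top. -/
def perm : List (ℕ × Bool) → Equiv.Perm ℕ
  | [] => 1
  | x :: b => perm b * Equiv.swap x.1 (x.1 + 1)

end Pool.Agent.Helper77.Sat
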