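import Pool.Agent.Helper77.Sat.Second

/-!
# The pattern of the untwisted Whitehead doubles satisfies the hypotheses
-/

namespace Pool.Agent.Helper77.Sat

open Pool.Agent.Helper2

/-- the clasp on two strands with opposite directions: the pattern of the Whitehead doubles -/
def claspW (p : Bool) : List Slice := [.cup 1 true, .cross 0 p, .cross 2 p, .cap 1]

theorem clasp_dirs (p : Bool) : dirsAbove (claspW p) [true, false] = some [true, false] := by
  cases p <;> decide

theorem clasp_knot (p : Bool) : curves (closeUp [true, false] (claspW p)) = 1 := by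
  cases p <;> decide

theorem clasp_windings (p : Bool) : SmoothWindings [true, false] (claspW p) (fun _ => 2) := by
  intro k hk hs
  have hk' : k < 4 := hk
  have : k = 1 ∨ k = 2 := by
    rcases (by omega : k = 0 ∨ k = 1 ∨ k = 2 ∨ k = 3) with rfl | rfl | rfl | rfl
    · exact absurd (by cases p <;> decide) hs
    · exact Or.inl rfl
    · exact Or.inr rfl
    · exact absurd (by cases p <;> decide) hs
  rcases this with rfl | rfl
  · exact ⟨[true, true], [.cup 1 false, .cap 0, .cup 0 true, .cross 2 p, .cap 1], rfl,
      by cases p <;> decide, by cases p <;> decide, by cases p <;> decide, by decide⟩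
  · exact ⟨[true, true], [.cup 1 true, .cross 0 p, .cap 2, .cup 2 false, .cap 1], rfl,
      by cases p <;> decide, by cases p <;> decide, by cases p <;> decide, by decide⟩

theorem clasp_sum (p : Bool) : ¬ (5 : ℤ) ∣ ∑ k ∈ Finset.range (claspW p).length,
    signAt [true, false] (claspW p) k * (2 : ℤ) ^ 2 := by
  cases p <;> decide

/-- the factor of the untwisted Whitehead doubles is not zero -/
theorem clasp_beta (z : ℂˣ) (hz : IsPrimitiveRoot (z : ℂ) 5) (p : Bool) :
    beta z [true, false] (claspW p) ≠ 0 :=
  beta_ne z hz _ _ (clasp_dirs p) (clasp_knot p) (Or.inr ⟨_, clasp_windings p, clasp_sum p⟩)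

end Pool.Agent.Helper77.Sat
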