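import Pool.Agent.Helper77.Sat.Defs

/-!
# Module U: uniqueness of annular traces
-/

namespace Pool.Agent.Helper77.Sat

open Pool.Agent.Helper2

variable {R : Type} [CommRing R]

/-- A functional on stacks of pieces from `n` strands to `n` strands which behaves like the
bracket of the closure in the annulus. -/
structure AnnularTrace (δ c : R) (τ : ℕ → List Slice → R) : Prop where
  cyc : ∀ n k u v, Ok u n k → Ok v k n → τ n (u ++ v) = τ k (v ++ u)
  rel1 : ∀ n i a w, i ≤ n → Ok w n n → τ n (.cup i a :: .cap i :: w) = δ * τ n w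
  rel2 : ∀ n i a w, i + 1 ≤ n → Ok w n n → τ n (.cup i a :: .cap (i + 1) :: w) = τ n w
  rel3 : ∀ n i a w, i + 1 ≤ n → Ok w n n → τ n (.cup (i + 1) a :: .cap i :: w) = τ n w
  rel4 : ∀ n i k a w, i + k + 2 ≤ n → Ok w n n →
    τ n (.cup i a :: .cap (i + k + 2) :: w) = τ n (.cap (i + k) :: .cup i a :: w)
  rel5 : ∀ n i k a w, i + k + 2 ≤ n → Ok w n n →
    τ n (.cup (i + k + 2) a :: .cap i :: w) = τ n (.cap i :: .cup (i + k) a :: w)
  cross : ∀ n i p w, i + 2 ≤ n → Ok w n n →
    τ n (.cross i p :: w) = c * τ n w + c * τ n (.cap i :: .cup i true :: w)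

/-- Is the piece a crossing? -/
def unIsX : Slice → Bool
  | .cross _ _ => true
  | _ => false

/-- Sum of the widths before the letters. -/
def unWt : ℕ → List Slice → ℕ
  | _, [] => 0
  | n, .cup _ _ :: w => n + unWt (n + 2) w
  | n, .cap _ :: w => n + unWt (n - 2) w
  | n, .cross _ _ :: w => n + unWt n w

lemma un_ok_split (u v : List Slice) : ∀ n m, Ok (u ++ v) n m → ∃ k, Ok u n k ∧ Ok v k m := by
  induction u with
  | nil => intro n m h; exact ⟨n, rfl, h⟩
  | cons s u ih =>
    intro n m h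
    cases s with
    | cup i a =>
      obtain ⟨k, h1, h2⟩ := ih _ _ h.2
      exact ⟨k, ⟨h.1, h1⟩, h2⟩
    | cap i =>
      obtain ⟨k, h1, h2⟩ := ih _ _ h.2
      exact ⟨k, ⟨h.1, h1⟩, h2⟩
    | cross i p =>
      obtain ⟨k, h1, h2⟩ := ih _ _ h.2
      exact ⟨k, ⟨h.1, h1⟩, h2⟩

lemma un_wt_append (u v : List Slice) : ∀ n k, Ok u n k →
    unWt n (u ++ v) = unWt n u + unWt k v := by
  induction u with
  | nil => intro n k h; simp only [Ok] at h; subst h; simp [unWt]
  | cons s u ih =>
    intro n k h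
    cases s with
    | cup i a => simp only [List.cons_append, unWt, ih _ _ h.2]; omega
    | cap i => simp only [List.cons_append, unWt, ih _ _ h.2]; omega
    | cross i p => simp only [List.cons_append, unWt, ih _ _ h.2]; omega

/-- A word without crossings contains a cup followed by a cap, or it consists of caps followed
by cups. -/
lemma un_shape (w : List Slice) : w.countP unIsX = 0 →
    (∃ u v i a j, w = u ++ .cup i a :: .cap j :: v) ∨
      ∃ C U : List Slice, w = C ++ U ∧ (∀ s ∈ C, ∃ j, s = .cap j) ∧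
        ∀ s ∈ U, ∃ i a, s = .cup i a := by
  induction w with
  | nil => intro _; exact Or.inr ⟨[], [], rfl, by simp, by simp⟩
  | cons s w ih =>
    intro h
    cases s with
    | cross i p => simp [unIsX] at h
    | cap j =>
      have h' : w.countP unIsX = 0 := by simpa [unIsX] using h
      rcases ih h' with ⟨u, v, i, a, j', rfl⟩ | ⟨C, U, rfl, hC, hU⟩
      · exact Or.inl ⟨.cap j :: u, v, i, a, j', rfl⟩
      · refine Or.inr ⟨.cap j :: C, U, rfl, ?_, hU⟩
        intro s hs
        rcases List.mem_cons.1 hs with rfl | hs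
        · exact ⟨j, rfl⟩
        · exact hC s hs
    | cup i a =>
      have h' : w.countP unIsX = 0 := by simpa [unIsX] using h
      rcases ih h' with ⟨u, v, i', a', j', rfl⟩ | ⟨C, U, rfl, hC, hU⟩
      · exact Or.inl ⟨.cup i a :: u, v, i', a', j', rfl⟩
      · rcases C with _ | ⟨s, C⟩
        · refine Or.inr ⟨[], .cup i a :: U, rfl, by simp, ?_⟩
          intro s hs
          rcases List.mem_cons.1 hs with rfl | hs
          · exact ⟨i, a, rfl⟩
          · exact hU s hs
        · obtain ⟨j, rfl⟩ := hC s (by simp)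
          exact Or.inl ⟨[], C ++ U, i, a, j, rfl⟩

lemma un_caps (C : List Slice) (hC : ∀ s ∈ C, ∃ j, s = Slice.cap j) : ∀ n m, Ok C n m →
    n = m + 2 * C.length := by
  induction C with
  | nil => intro n m h; simpa [Ok] using h
  | cons s C ih =>
    intro n m h
    obtain ⟨j, rfl⟩ := hC s (by simp)
    have := ih (fun s hs => hC s (List.mem_cons_of_mem _ hs)) _ _ h.2
    have := h.1
    simp only [List.length_cons]
    omega

lemma un_cups (U : List Slice) (hU : ∀ s ∈ U, ∃ i a, s = Slice.cup i a) : ∀ n m, Ok U n m →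
    m = n + 2 * U.length := by
  induction U with
  | nil => intro n m h; simp only [Ok] at h; simp [h]
  | cons s U ih =>
    intro n m h
    obtain ⟨i, a, rfl⟩ := hU s (by simp)
    have := ih (fun s hs => hU s (List.mem_cons_of_mem _ hs)) _ _ h.2
    have := h.1
    simp only [List.length_cons]
    omega

/-- A non-empty word without crossings can be rotated such that it starts with a cup and a cap. -/
lemma un_rotate (w : List Slice) (n : ℕ) (hc : w.countP unIsX = 0) (hw : Ok w n n)
    (hne : w ≠ []) : ∃ u v k i a j, w = u ++ v ∧ Ok u n k ∧ Ok v k n ∧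
      ∃ x, v ++ u = .cup i a :: .cap j :: x := by
  rcases un_shape w hc with ⟨u, v, i, a, j, rfl⟩ | ⟨C, U, rfl, hC, hU⟩
  · obtain ⟨k, h1, h2⟩ := un_ok_split _ _ _ _ hw
    exact ⟨u, .cup i a :: .cap j :: v, k, i, a, j, rfl, h1, h2, v ++ u, rfl⟩
  · obtain ⟨k, h1, h2⟩ := un_ok_split _ _ _ _ hw
    have e1 := un_caps C hC _ _ h1
    have e2 := un_cups U hU _ _ h2
    have hl : C.length = U.length := by omega
    have hCne : C ≠ [] := by
      rintro rfl
      have : U = [] := List.eq_nil_of_length_eq_zero (by simpa using hl.symm)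
      exact hne (by simp [this])
    have hUne : U ≠ [] := by
      rintro rfl
      exact hCne (List.eq_nil_of_length_eq_zero (by simpa using hl))
    obtain ⟨s, C', rfl⟩ := List.exists_cons_of_ne_nil hCne
    obtain ⟨j, rfl⟩ := hC s (by simp)
    obtain ⟨U', t, rfl⟩ : ∃ U' t, U = U' ++ [t] :=
      ⟨U.dropLast, U.getLast hUne, (List.dropLast_append_getLast hUne).symm⟩
    obtain ⟨i, a, rfl⟩ := hU t (by simp)
    have hw' : Ok ((Slice.cap j :: (C' ++ U')) ++ [Slice.cup i a]) n n := by
      simpa using hw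
    obtain ⟨k', h3, h4⟩ := un_ok_split _ _ _ _ hw'
    exact ⟨Slice.cap j :: (C' ++ U'), [Slice.cup i a], k', i, a, j, by simp, h3, h4,
      C' ++ U', by simp⟩

lemma un_nocross {δ c : R} {τ τ' : ℕ → List Slice → R} (h : AnnularTrace δ c τ)
    (h' : AnnularTrace δ c τ') (h0 : ∀ n, τ n [] = τ' n []) : ∀ (N n : ℕ) (w : List Slice),
    unWt n w ≤ N → w.countP unIsX = 0 → Ok w n n → τ n w = τ' n w := by
  intro N
  induction N using Nat.strong_induction_on with
  | _ N ih =>
  intro n w hN hc hw
  by_cases hne : w = []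
  · subst hne; exact h0 n
  obtain ⟨u, v, k, i, a, j, rfl, hu, hv, x, hx⟩ := un_rotate w n hc hw hne
  rw [h.cyc _ _ _ _ hu hv, h'.cyc _ _ _ _ hu hv]
  have hok : Ok (v ++ u) k k := ok_append _ _ _ _ _ hv hu
  have hwt : unWt k (v ++ u) ≤ N := by
    rw [un_wt_append _ _ _ _ hv, add_comm, ← un_wt_append _ _ _ _ hu]
    exact hN
  have hc' : (v ++ u).countP unIsX = 0 := by
    rw [List.countP_append] at hc ⊢
    omega
  rw [hx] at hok hwt hc' ⊢
  obtain ⟨hi, hj, hok⟩ := hok
  have hj' : j ≤ k := by omega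
  have hkk : k + 2 - 2 = k := by omega
  rw [hkk] at hok
  simp only [unWt, hkk] at hwt
  have hcx : x.countP unIsX = 0 := by simpa [unIsX] using hc'
  have IH : ∀ y, unWt k y < N → y.countP unIsX = 0 → Ok y k k → τ k y = τ' k y :=
    fun y hy => ih (unWt k y) hy k y le_rfl
  rcases Nat.lt_trichotomy j i with hlt | rfl | hgt
  · obtain ⟨e, rfl⟩ : ∃ e, i = j + e + 1 := ⟨i - j - 1, by omega⟩
    cases e with
    | zero =>
      rw [add_zero, h.rel3 _ _ _ _ (by omega) hok, h'.rel3 _ _ _ _ (by omega) hok]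
      exact IH x (by omega) hcx hok
    | succ e =>
      have e1 : j + (e + 1) + 1 = j + e + 2 := by ring
      rw [e1, h.rel5 _ _ _ _ _ (by omega) hok, h'.rel5 _ _ _ _ _ (by omega) hok]
      have hk2 : k - 2 + 2 = k := by omega
      refine IH _ ?_ (by simpa [unIsX] using hcx) ⟨by omega, by omega, ?_⟩
      · simp only [unWt, hk2]; omega
      · rw [hk2]; exact hok
  · rw [h.rel1 _ _ _ _ hi hok, h'.rel1 _ _ _ _ hi hok, IH x (by omega) hcx hok]
  · obtain ⟨e, rfl⟩ : ∃ e, j = i + e + 1 := ⟨j - i - 1, by omega⟩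
    cases e with
    | zero =>
      rw [add_zero, h.rel2 _ _ _ _ (by omega) hok, h'.rel2 _ _ _ _ (by omega) hok]
      exact IH x (by omega) hcx hok
    | succ e =>
      have e1 : i + (e + 1) + 1 = i + e + 2 := by ring
      rw [e1, h.rel4 _ _ _ _ _ (by omega) hok, h'.rel4 _ _ _ _ _ (by omega) hok]
      have hk2 : k - 2 + 2 = k := by omega
      refine IH _ ?_ (by simpa [unIsX] using hcx) ⟨by omega, by omega, ?_⟩
      · simp only [unWt, hk2]; omega
      · rw [hk2]; exact hok

theorem annular_unique {δ c : R} {τ τ' : ℕ → List Slice → R} (h : AnnularTrace δ c τ)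
    (h' : AnnularTrace δ c τ') (h0 : ∀ n, τ n [] = τ' n []) (n : ℕ) (w : List Slice)
    (hw : Ok w n n) : τ n w = τ' n w := by
  suffices H : ∀ (N n : ℕ) (w : List Slice), w.countP unIsX = N → Ok w n n → τ n w = τ' n w from
    H _ n w rfl hw
  intro N
  induction N with
  | zero => intro n w hc hw; exact un_nocross h h' h0 _ n w le_rfl hc hw
  | succ N ih =>
    intro n w hc hw
    have hpos : 0 < w.countP unIsX := by omega
    obtain ⟨s, hs, hsx⟩ := List.countP_pos_iff.1 hpos
    obtain ⟨u, v, rfl⟩ := List.append_of_mem hs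
    obtain ⟨i, p, rfl⟩ : ∃ i p, s = Slice.cross i p := by
      cases s with
      | cup i a => simp [unIsX] at hsx
      | cap i => simp [unIsX] at hsx
      | cross i p => exact ⟨i, p, rfl⟩
    obtain ⟨k, hu, hv⟩ := un_ok_split _ _ _ _ hw
    rw [h.cyc _ _ _ _ hu hv, h'.cyc _ _ _ _ hu hv, List.cons_append]
    obtain ⟨hi, hv⟩ := hv
    have hok : Ok (v ++ u) k k := ok_append _ _ _ _ _ hv hu
    have hcx : (v ++ u).countP unIsX = N := by
      rw [List.countP_append, List.countP_cons] at hc
      rw [List.countP_append]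
      simp [unIsX] at hc
      omega
    have hk2 : k - 2 + 2 = k := by omega
    have e1 : (Slice.cap i :: .cup i true :: (v ++ u)).countP unIsX = N := by
      simpa [unIsX] using hcx
    have e2 : Ok (Slice.cap i :: .cup i true :: (v ++ u)) k k :=
      ⟨hi, by omega, by rw [hk2]; exact hok⟩
    rw [h.cross _ _ _ _ hi hok, h'.cross _ _ _ _ hi hok, ih k _ hcx hok, ih k _ e1 e2]

end Pool.Agent.Helper77.Sat
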