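import Pool.Agent.Helper77.Sat.LocOps
import Pool.Agent.Helper77.Sat.Unique
import Pool.Agent.Helper77.Sat.Base

/-!
# Module T: the path trace is an annular trace
-/

namespace Pool.Agent.Helper77.Sat

open Pool.Agent.Helper2

variable {R : Type} [CommRing R]

private lemma pa_dd : dd (-1 : ZMod 5) = -2 := by
  simp only [dd]; decide

private lemma pa_dd_sq : dd (-1 : ZMod 5) * dd (-1 : ZMod 5) = dd (-1 : ZMod 5) + 1 := by
  rw [pa_dd]; decide

private lemma pa_run_cons (A : R) (s : Slice) (w : List Slice) (ψ : Fn R) :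
    run A (s :: w) ψ = run A w (act A s ψ) := rfl

private lemma pa_g1 (p q : List Bool) (h : p.head? = q.head?) (h' : p.getLast? = q.getLast?) :
    (g1 p : R) = g1 q := by
  simp only [g1, h, h']

private lemma pa_cross (i n : ℕ) (p : Bool) (ψ : Fn (ZMod 5)) (hi : i + 2 ≤ n)
    (hψ : PSupp n ψ) : liftM i (crossL (-1 : ZMod 5) p) ψ =
      (-1 : ZMod 5) • ψ +
        (-1 : ZMod 5) • liftM i (cupL (-1 : ZMod 5)) (liftM i (capL (-1 : ZMod 5)) ψ) := by
  have h4 : (-1 : ZMod 5) ^ 4 = 1 := by decide
  have hca : ca (-1 : ZMod 5) p = -1 := by cases p <;> simp [ca, h4]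
  have hcb : cb (-1 : ZMod 5) p = -1 := by cases p <;> simp [cb, h4]
  funext l
  show lift (x0 (-1 : ZMod 5) p) i ψ l = (-1 : ZMod 5) * ψ l +
    (-1 : ZMod 5) * lift (pCup0 (dd (-1))) i (lift (pCap0 (dd (-1))) i ψ) l
  by_cases hlen : l.length < i
  · rw [lift_short _ _ _ _ hlen, lift_short _ _ _ _ hlen]
    have : ψ l = 0 := by
      by_contra h
      have := (hψ l h).1
      omega
    rw [this]; ring
  obtain ⟨q, r, rfl, rfl⟩ := split_list l i (by omega)
  have h1 := lift_comp_append (pCup0 (dd (-1 : ZMod 5))) (pCap0 (dd (-1 : ZMod 5))) q 0 0 ψ r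
  simp only [Nat.add_zero, lift_zero, lift_zero'] at h1
  rw [lift_append, h1]
  have hsh : ∀ r : List Bool, r.length < 3 → ψ (q ++ r) = 0 := by
    intro r hr
    by_contra h
    have := (hψ _ h).1
    rw [List.length_append] at this
    omega
  rcases r with _ | ⟨a, _ | ⟨b, _ | ⟨c, r⟩⟩⟩
  · rw [hsh [] (by simp)]
    simp [x0, pCup0]
  · simp [x0, pCup0, hsh [a] (by simp)]
  · simp [x0, pCup0, hsh [a, b] (by simp)]
  · have hleg : ¬((a || b) = true ∧ (b || c) = true) → ψ (q ++ a :: b :: c :: r) = 0 := by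
      intro h
      by_contra h0
      have := legal_right _ _ (hψ _ h0).2
      exact h ⟨this.1, this.2.1⟩
    simp only [x0, hca, hcb]
    by_cases hc : (a || b) = true ∧ (b || c) = true
    · rw [if_pos hc]
    · rw [if_neg hc, hleg hc]
      simp only [pCup0]
      rw [if_neg]
      · ring
      · rintro ⟨rfl, h2⟩
        apply hc
        refine ⟨h2, ?_⟩
        rw [Bool.or_comm]; exact h2

theorem annular_trw : AnnularTrace (-2 : ZMod 5) (-1)
    (fun n w => trw (g1 : List Bool → ZMod 5) n (run (-1 : ZMod 5) w)) where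
  cyc n k u v hu hv := by
    show trw g1 n (run (-1 : ZMod 5) (u ++ v)) = trw g1 k (run (-1 : ZMod 5) (v ++ u))
    rw [run_append, run_append]
    exact trw_cyc pa_g1 (loc_run _ _ _ _ hv) (loc_run _ _ _ _ hu)
  rel1 n i a w hi hw := by
    show trw g1 n (run (-1 : ZMod 5) (.cup i a :: .cap i :: w)) = -2 * trw g1 n (run (-1) w)
    rw [← trw_smul]
    apply trw_congr
    intro ψ hψ
    rw [pa_run_cons, pa_run_cons, LinearMap.smul_apply, ← map_smul]
    congr 1
    have := p_rel1 pa_dd_sq n i ψ hψ hi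
    rw [pa_dd] at this
    simp only [act, cupL, capL, liftM_apply, pa_dd]
    exact this
  rel2 n i a w hi hw := by
    show trw g1 n (run (-1 : ZMod 5) (.cup i a :: .cap (i + 1) :: w)) = trw g1 n (run (-1) w)
    apply trw_congr
    intro ψ hψ
    rw [pa_run_cons, pa_run_cons]
    congr 1
    exact p_rel2 pa_dd_sq n i ψ hψ hi
  rel3 n i a w hi hw := by
    show trw g1 n (run (-1 : ZMod 5) (.cup (i + 1) a :: .cap i :: w)) = trw g1 n (run (-1) w)
    apply trw_congr
    intro ψ hψ
    rw [pa_run_cons, pa_run_cons]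
    congr 1
    exact p_rel3 pa_dd_sq n i ψ hψ hi
  rel4 n i k a w hi hw := by
    show trw g1 n (run (-1 : ZMod 5) (.cup i a :: .cap (i + k + 2) :: w)) =
      trw g1 n (run (-1 : ZMod 5) (.cap (i + k) :: .cup i a :: w))
    apply trw_congr
    intro ψ hψ
    rw [pa_run_cons, pa_run_cons, pa_run_cons, pa_run_cons]
    congr 1
    exact p_rel4 n i k ψ hψ hi
  rel5 n i k a w hi hw := by
    show trw g1 n (run (-1 : ZMod 5) (.cup (i + k + 2) a :: .cap i :: w)) =
      trw g1 n (run (-1 : ZMod 5) (.cap i :: .cup (i + k) a :: w))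
    apply trw_congr
    intro ψ hψ
    rw [pa_run_cons, pa_run_cons, pa_run_cons, pa_run_cons]
    congr 1
    exact p_rel5 n i k ψ hψ hi
  cross n i p w hi hw := by
    show trw g1 n (run (-1 : ZMod 5) (.cross i p :: w)) =
      -1 * trw g1 n (run (-1 : ZMod 5) w) +
        -1 * trw g1 n (run (-1 : ZMod 5) (.cap i :: .cup i true :: w))
    rw [← trw_smul, ← trw_smul, ← trw_add]
    apply trw_congr
    intro ψ hψ
    rw [pa_run_cons, LinearMap.add_apply, LinearMap.smul_apply, LinearMap.smul_apply,
      pa_run_cons, pa_run_cons, ← map_smul, ← map_smul, ← map_add]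
    congr 1
    exact pa_cross i n p ψ hi hψ

open Classical in
/-- number of legal continuations of `a` ending in `true` -/
private noncomputable def pa_N (a : Bool) (n : ℕ) : ZMod 5 :=
  ∑ l ∈ lists n, if legal (a :: l) ∧ (a :: l).getLast? = some true then 1 else 0

private lemma pa_sum_lists {M : Type} [AddCommMonoid M] (n : ℕ) (F : List Bool → M) :
    ∑ l ∈ lists (n + 1), F l =
      ∑ l ∈ lists n, F (true :: l) + ∑ l ∈ lists n, F (false :: l) := by
  classical
  rw [lists, Finset.sum_union, Finset.sum_image, Finset.sum_image]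
  · intro x _ y _ h; simpa using h
  · intro x _ y _ h; simpa using h
  · rw [Finset.disjoint_left]
    intro l h1 h2
    simp only [Finset.mem_image] at h1 h2
    obtain ⟨x, _, rfl⟩ := h1
    obtain ⟨y, _, h⟩ := h2
    simp at h

private lemma pa_N_zero (a : Bool) : pa_N a 0 = if a then 1 else 0 := by
  simp only [pa_N, lists, Finset.sum_singleton]
  cases a <;> simp [legal]

private lemma pa_P (a b : Bool) (l : List Bool) :
    (legal (a :: b :: l) ∧ (a :: b :: l).getLast? = some true) ↔
      (a || b) = true ∧ (legal (b :: l) ∧ (b :: l).getLast? = some true) := by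
  rw [List.getLast?_cons_cons, legal, and_assoc]

open Classical in
private lemma pa_step (a b : Bool) (n : ℕ) : (∑ l ∈ lists n,
    (if legal (a :: b :: l) ∧ (a :: b :: l).getLast? = some true then (1 : ZMod 5) else 0)) =
      if (a || b) = true then pa_N b n else 0 := by
  by_cases h : (a || b) = true
  · rw [if_pos h, pa_N]
    apply Finset.sum_congr rfl
    intro l _
    have := pa_P a b l
    by_cases h2 : legal (b :: l) ∧ (b :: l).getLast? = some true
    · rw [if_pos (this.2 ⟨h, h2⟩), if_pos h2]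
    · rw [if_neg (fun h3 => h2 (this.1 h3).2), if_neg h2]
  · rw [if_neg h]
    apply Finset.sum_eq_zero
    intro l _
    rw [if_neg (fun h3 => h ((pa_P a b l).1 h3).1)]

private lemma pa_N_true (n : ℕ) : pa_N true (n + 1) = pa_N true n + pa_N false n := by
  rw [pa_N, pa_sum_lists, pa_step, pa_step]
  simp

private lemma pa_N_false (n : ℕ) : pa_N false (n + 1) = pa_N true n := by
  rw [pa_N, pa_sum_lists, pa_step, pa_step]
  simp

private lemma pa_N_eq (n : ℕ) : pa_N false n = 2 * (n * (-2) ^ n) ∧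
    pa_N true n = 2 * ((n + 1 : ℕ) * (-2) ^ (n + 1)) := by
  induction n with
  | zero =>
    rw [pa_N_zero, pa_N_zero]
    refine ⟨by simp, ?_⟩
    simp
    decide
  | succ n ih =>
    rw [pa_N_true, pa_N_false, ih.1, ih.2]
    refine ⟨rfl, ?_⟩
    have h5 : (5 : ZMod 5) = 0 := by decide
    push_cast
    linear_combination ((-2 : ZMod 5) ^ n * (-2 * n - 4)) * h5

/-- number of paths from `false` to `true` -/
theorem trw_id (n : ℕ) : trw (g1 : List Bool → ZMod 5) n LinearMap.id =
    2 * (n * (-2) ^ n) := by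
  classical
  rw [← (pa_N_eq n).1, trw, lgl, Finset.sum_filter, pa_sum_lists]
  have h1 : ∑ l ∈ lists n, (if legal (true :: l) then
      g1 (true :: l) * (LinearMap.id : Fn (ZMod 5) →ₗ[ZMod 5] Fn (ZMod 5))
        (Pi.single (true :: l) 1) (true :: l) else 0) = 0 := by
    apply Finset.sum_eq_zero
    intro l _
    simp [g1]
  rw [h1, zero_add, pa_N]
  apply Finset.sum_congr rfl
  intro l _
  by_cases h : legal (false :: l)
  · simp [g1, h]
  · simp [h]

end Pool.Agent.Helper77.Sat
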