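import Pool.Agent.Helper77.Sat.Defs
import Pool.Agent.Helper2.Final

/-!
# Module W: directions, writhe, and the value of `f`
-/

namespace Pool.Agent.Helper77.Sat

open Pool.Agent.Helper2

variable {R : Type} [CommRing R]

lemma wr_dirs_append (s : Slice) (o o' r : List Bool) (h : s.dirs o = some o') :
    s.dirs (o ++ r) = some (o' ++ r) ∧ s.sign (o ++ r) = s.sign o := by
  cases s with
  | cup i u =>
    simp only [Slice.dirs] at h
    split_ifs at h with hi
    simp only [Option.some.injEq] at h
    subst h
    obtain ⟨p, q, rfl, hp⟩ : ∃ p q, o = p ++ q ∧ p.length = i :=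
      ⟨o.take i, o.drop i, (List.take_append_drop i o).symm, by rw [List.length_take]; omega⟩
    refine ⟨?_, by simp [Slice.sign]⟩
    rw [List.append_assoc, dirs_cup _ _ _ _ hp, take_left' _ _ _ hp, drop_left' _ _ _ hp]
    simp
  | cap i =>
    simp only [Slice.dirs] at h
    rcases hd : o.drop i with _ | ⟨a, _ | ⟨b, q⟩⟩
    · simp [hd] at h
    · simp [hd] at h
    · simp only [hd] at h
      split_ifs at h with hab
      simp only [Option.some.injEq] at h
      subst h
      have hl : (o.drop i).length = q.length + 2 := by simp [hd]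
      rw [List.length_drop] at hl
      have hp : (o.take i).length = i := by rw [List.length_take]; omega
      have ho : o = o.take i ++ a :: b :: q := by rw [← hd, List.take_append_drop]
      refine ⟨?_, by simp [Slice.sign]⟩
      have e : o ++ r = o.take i ++ a :: b :: (q ++ r) := by
        conv_lhs => rw [ho]
        simp
      rw [e, dirs_cap _ _ _ _ _ hp hab]
      simp
  | cross i p =>
    simp only [Slice.dirs] at h
    rcases hd : o.drop i with _ | ⟨a, _ | ⟨b, q⟩⟩
    · simp [hd] at h
    · simp [hd] at h
    · simp only [hd, Option.some.injEq] at h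
      subst h
      have hl : (o.drop i).length = q.length + 2 := by simp [hd]
      rw [List.length_drop] at hl
      have hp : (o.take i).length = i := by rw [List.length_take]; omega
      have ho : o = o.take i ++ a :: b :: q := by rw [← hd, List.take_append_drop]
      have e : o ++ r = o.take i ++ a :: b :: (q ++ r) := by
        conv_lhs => rw [ho]
        simp
      refine ⟨?_, ?_⟩
      · rw [e, dirs_cross _ _ _ _ _ _ hp]
        simp
      · rw [e, sign_cross _ _ _ _ _ _ hp]
        conv_rhs => rw [ho]
        rw [sign_cross _ _ _ _ _ _ hp]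

lemma wr_run_append (w : List Slice) (r : List Bool) : ∀ (o o' : List Bool),
    dirsAbove w o = some o' →
    dirsAbove w (o ++ r) = some (o' ++ r) ∧ signSum w (o ++ r) = signSum w o := by
  induction w with
  | nil =>
    intro o o' h
    simp only [dirsAbove, Option.some.injEq] at h
    subst h
    simp [dirsAbove, signSum]
  | cons s w ih =>
    intro o o' h
    simp only [dirsAbove] at h
    rcases hs : s.dirs o with _ | o₁
    · rw [hs] at h; simp at h
    · rw [hs] at h
      simp only [Option.bind_some] at h
      obtain ⟨h1, h2⟩ := wr_dirs_append s o o₁ r hs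
      obtain ⟨h3, h4⟩ := ih o₁ o' h
      refine ⟨?_, ?_⟩
      · simp only [dirsAbove, h1, Option.bind_some, h3]
      · simp only [signSum, h1, h2, hs, Option.getD_some, h4]

lemma wr_cups (o : List Bool) : ∀ (p q : List Bool) (k : ℕ), p.length = k →
    dirsAbove (o.mapIdx fun i u => Slice.cup (i + k) u) (p ++ q) =
      some (p ++ (o ++ ((o.reverse.map fun u => !u) ++ q))) ∧
    signSum (o.mapIdx fun i u => Slice.cup (i + k) u) (p ++ q) = 0 := by
  induction o with
  | nil => intro p q k _; simp [dirsAbove, signSum]
  | cons u o ih =>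
    intro p q k hp
    rw [List.mapIdx_cons]
    obtain ⟨h1, h2⟩ := ih (p ++ [u]) ((!u) :: q) (k + 1) (by simp [hp])
    have e : (fun i u => Slice.cup (i + 1 + k) u) = fun i u => Slice.cup (i + (k + 1)) u := by
      funext i u
      congr 1
      ring
    have e1 : (Slice.cup (0 + k) u).dirs (p ++ q) = some (p ++ [u] ++ (!u) :: q) := by
      rw [dirs_cup _ _ _ _ (by omega)]
      simp
    rw [e]
    refine ⟨?_, ?_⟩
    · simp only [dirsAbove, e1, Option.bind_some, h1]
      simp
    · simp only [signSum, e1, Option.getD_some, h2]
      simp [Slice.sign]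

lemma wr_caps (o : List Bool) :
    dirsAbove ((List.range o.length).reverse.map Slice.cap) (o ++ (o.reverse.map fun u => !u)) =
      some [] ∧
    signSum ((List.range o.length).reverse.map Slice.cap)
      (o ++ (o.reverse.map fun u => !u)) = 0 := by
  induction o using List.reverseRecOn with
  | nil => simp [dirsAbove, signSum]
  | append_singleton o a ih =>
    obtain ⟨h1, h2⟩ := ih
    have e1 : (List.range (o ++ [a]).length).reverse.map Slice.cap =
        Slice.cap o.length :: (List.range o.length).reverse.map Slice.cap := by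
      rw [List.length_append, List.length_singleton, List.range_succ, List.reverse_append]
      rfl
    have e2 : (o ++ [a]) ++ ((o ++ [a]).reverse.map fun u => !u) =
        o ++ a :: (!a) :: (o.reverse.map fun u => !u) := by
      simp
    have e3 : (Slice.cap o.length).dirs (o ++ a :: (!a) :: (o.reverse.map fun u => !u)) =
        some (o ++ (o.reverse.map fun u => !u)) :=
      dirs_cap _ _ _ _ _ rfl (by cases a <;> simp)
    rw [e1, e2]
    refine ⟨?_, ?_⟩
    · simp only [dirsAbove, e3, Option.bind_some, h1]
    · simp only [signSum, e3, Option.getD_some, h2]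
      simp [Slice.sign]

lemma wr_closeUp (o : List Bool) (w : List Slice) (hw : dirsAbove w o = some o) :
    dirsAbove (closeUp o w) [] = some [] ∧ signSum (closeUp o w) [] = signSum w o := by
  obtain ⟨h1, h2⟩ := wr_cups o [] [] 0 rfl
  simp only [Nat.add_zero, List.nil_append, List.append_nil] at h1 h2
  obtain ⟨h3, h4⟩ := dirsAbove_append (o.mapIdx fun i u => Slice.cup i u)
    (w ++ (List.range o.length).reverse.map Slice.cap) _ _ h1
  obtain ⟨h5, h6⟩ := wr_run_append w (o.reverse.map fun u => !u) o o hw
  obtain ⟨h7, h8⟩ := dirsAbove_append w ((List.range o.length).reverse.map Slice.cap) _ _ h5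
  obtain ⟨h9, h10⟩ := wr_caps o
  refine ⟨?_, ?_⟩
  · rw [closeUp, h3, h7, h9]
  · rw [closeUp, h4, h8, h10, h2, h6]
    ring

theorem dirs_closeUp (o : List Bool) (w : List Slice) (hw : dirsAbove w o = some o) :
    dirsAbove (closeUp o w) [] = some [] := (wr_closeUp o w hw).1

theorem writhe_closeUp (o : List Bool) (w : List Slice) (hw : dirsAbove w o = some o) :
    writhe (closeUp o w) = signSum w o := (wr_closeUp o w hw).2

lemma wr_replicate_split (m i : ℕ) (h : i + 1 < m) (a : Bool) : List.replicate m a =
    List.replicate i a ++ a :: a :: List.replicate (m - i - 2) a := by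
  obtain ⟨k, rfl⟩ : ∃ k, m = i + (k + 1 + 1) := ⟨m - i - 2, by omega⟩
  have : i + (k + 1 + 1) - i - 2 = k := by omega
  rw [this, List.replicate_add, List.replicate_succ, List.replicate_succ]

theorem dirs_braid (m : ℕ) (b : List (ℕ × Bool)) (hb : ∀ x ∈ b, x.1 + 1 < m) :
    dirsAbove (braid b) (List.replicate m true) = some (List.replicate m true) ∧
      signSum (braid b) (List.replicate m true) = expSum b := by
  induction b with
  | nil => simp [braid, dirsAbove, signSum, expSum]
  | cons x b ih =>
    obtain ⟨h1, h2⟩ := ih fun y hy => hb y (List.mem_cons_of_mem _ hy)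
    have hx := hb x List.mem_cons_self
    have e0 := wr_replicate_split m x.1 hx true
    have e1 : (Slice.cross x.1 x.2).dirs (List.replicate m true) =
        some (List.replicate m true) := by
      conv_lhs => rw [e0]
      rw [dirs_cross _ _ _ _ _ _ (by simp), ← e0]
    have e2 : (Slice.cross x.1 x.2).sign (List.replicate m true) =
        if x.2 then 1 else -1 := by
      rw [e0, sign_cross _ _ _ _ _ _ (by simp)]
      simp
    have e3 : braid (x :: b) = Slice.cross x.1 x.2 :: braid b := rfl
    rw [e3]
    refine ⟨?_, ?_⟩
    · simp only [dirsAbove, e1, Option.bind_some, h1]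
    · simp only [signSum, e1, e2, Option.getD_some, h2]
      simp [expSum]

/-- The sign of a Boolean. -/
def wr_sg (u : Bool) : ℤ := if u then 1 else -1

lemma wr_winding_cons (u : Bool) (o : List Bool) : winding (u :: o) = wr_sg u + winding o := by
  simp [winding, wr_sg]

lemma wr_winding_append (o o' : List Bool) : winding (o ++ o') = winding o + winding o' := by
  simp [winding]

lemma wr_passRight_succ (k i : ℕ) (p : Bool) :
    passRight (k + 1) i p = Slice.cross i p :: passRight k (i + 1) p := by
  simp only [passRight, List.range_succ_eq_map, List.map_cons, List.map_map, Nat.add_zero]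
  congr 1
  apply List.map_congr_left
  intro j _
  simp only [Function.comp_apply]
  congr 1
  omega

lemma wr_passRight (b : List Bool) (p x : Bool) : ∀ (P r : List Bool) (i : ℕ), P.length = i →
    dirsAbove (passRight b.length i p) (P ++ x :: (b ++ r)) = some (P ++ (b ++ x :: r)) ∧
    signSum (passRight b.length i p) (P ++ x :: (b ++ r)) = wr_sg p * wr_sg x * winding b := by
  induction b with
  | nil =>
    intro P r i _
    simp [passRight, dirsAbove, signSum, winding]
  | cons y b ih =>
    intro P r i hP
    obtain ⟨h1, h2⟩ := ih (P ++ [y]) r (i + 1) (by simp [hP])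
    have e1 : (Slice.cross i p).dirs (P ++ x :: (y :: b ++ r)) =
        some (P ++ [y] ++ x :: (b ++ r)) := by
      rw [List.cons_append, dirs_cross _ _ _ _ _ _ hP]
      simp
    have e2 : (Slice.cross i p).sign (P ++ x :: (y :: b ++ r)) =
        wr_sg p * wr_sg x * wr_sg y := by
      rw [List.cons_append, sign_cross _ _ _ _ _ _ hP]
      cases x <;> cases y <;> cases p <;> simp [wr_sg]
    rw [List.length_cons, wr_passRight_succ]
    refine ⟨?_, ?_⟩
    · simp only [dirsAbove, e1, Option.bind_some, h1]
      simp
    · simp only [signSum, e1, e2, Option.getD_some, h2, wr_winding_cons]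
      ring

lemma wr_blockCross_succ (k l i : ℕ) (p : Bool) :
    blockCross (k + 1) l i p = passRight l (i + k) p ++ blockCross k l i p := by
  simp only [blockCross, List.range_succ, List.reverse_append, List.reverse_cons,
    List.reverse_nil, List.nil_append, List.cons_append, List.flatMap_cons]

lemma wr_blockCross (a b : List Bool) (p : Bool) : ∀ (P r : List Bool) (i : ℕ), P.length = i →
    dirsAbove (blockCross a.length b.length i p) (P ++ (a ++ (b ++ r))) =
      some (P ++ (b ++ (a ++ r))) ∧
    signSum (blockCross a.length b.length i p) (P ++ (a ++ (b ++ r))) =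
      wr_sg p * winding a * winding b := by
  induction a using List.reverseRecOn with
  | nil =>
    intro P r i _
    simp [blockCross, dirsAbove, signSum, winding]
  | append_singleton a x ih =>
    intro P r i hP
    obtain ⟨h1, h2⟩ := ih P (x :: r) i hP
    obtain ⟨h3, h4⟩ := wr_passRight b p x (P ++ a) r (i + a.length) (by simp [hP])
    have e1 : P ++ (a ++ [x] ++ (b ++ r)) = P ++ a ++ x :: (b ++ r) := by simp
    have e2 : P ++ a ++ (b ++ x :: r) = P ++ (a ++ (b ++ x :: r)) := by simp
    have e3 : P ++ (b ++ (a ++ [x] ++ r)) = P ++ (b ++ (a ++ x :: r)) := by simp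
    rw [e2] at h3
    rw [List.length_append, List.length_singleton, wr_blockCross_succ]
    obtain ⟨h5, h6⟩ := dirsAbove_append (passRight b.length (i + a.length) p)
      (blockCross a.length b.length i p) _ _ h3
    rw [e1, e3, h5, h6, h1, h2, h4, wr_winding_append]
    refine ⟨rfl, ?_⟩
    have : winding [x] = wr_sg x := by simp [winding, wr_sg]
    rw [this]
    ring

lemma wr_flatten_split (m i : ℕ) (h : i + 1 < m) (o : List Bool) : (List.replicate m o).flatten =
    (List.replicate i o).flatten ++ (o ++ (o ++ (List.replicate (m - i - 2) o).flatten)) := by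
  obtain ⟨k, rfl⟩ : ∃ k, m = i + (k + 1 + 1) := ⟨m - i - 2, by omega⟩
  have : i + (k + 1 + 1) - i - 2 = k := by omega
  rw [this, List.replicate_add, List.replicate_succ, List.replicate_succ]
  simp

lemma wr_parallel (o : List Bool) (m : ℕ) (b : List (ℕ × Bool)) (hb : ∀ x ∈ b, x.1 + 1 < m) :
    dirsAbove (parallel o.length b) (List.replicate m o).flatten =
      some (List.replicate m o).flatten ∧
    signSum (parallel o.length b) (List.replicate m o).flatten =
      expSum b * winding o ^ 2 := by
  induction b with
  | nil => simp [parallel, dirsAbove, signSum, expSum]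
  | cons x b ih =>
    obtain ⟨h1, h2⟩ := ih fun y hy => hb y (List.mem_cons_of_mem _ hy)
    have hx := hb x List.mem_cons_self
    have e0 := wr_flatten_split m x.1 hx o
    obtain ⟨h3, h4⟩ := wr_blockCross o o x.2 (List.replicate x.1 o).flatten
      (List.replicate (m - x.1 - 2) o).flatten (o.length * x.1) (by simp [Nat.mul_comm])
    rw [← e0] at h3 h4
    have e3 : parallel o.length (x :: b) =
      blockCross o.length o.length (o.length * x.1) x.2 ++ parallel o.length b := rfl
    obtain ⟨h5, h6⟩ := dirsAbove_append (blockCross o.length o.length (o.length * x.1) x.2)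
      (parallel o.length b) _ _ h3
    rw [e3, h5, h6, h1, h2, h4]
    refine ⟨rfl, ?_⟩
    have : expSum (x :: b) = wr_sg x.2 + expSum b := by simp [expSum, wr_sg]
    rw [this]
    ring

theorem dirs_satellite (o : List Bool) (W : List Slice) (hW : dirsAbove W o = some o)
    (m : ℕ) (hm : 0 < m) (b : List (ℕ × Bool)) (hb : ∀ x ∈ b, x.1 + 1 < m) :
    dirsAbove (parallel o.length b ++ W) (List.replicate m o).flatten =
      some (List.replicate m o).flatten ∧
    signSum (parallel o.length b ++ W) (List.replicate m o).flatten =
      expSum b * winding o ^ 2 + signSum W o := by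
  obtain ⟨h1, h2⟩ := wr_parallel o m b hb
  obtain ⟨h3, h4⟩ := dirsAbove_append (parallel o.length b) W _ _ h1
  obtain ⟨k, rfl⟩ : ∃ k, m = k + 1 := ⟨m - 1, by omega⟩
  have e : (List.replicate (k + 1) o).flatten = o ++ (List.replicate k o).flatten := by
    rw [List.replicate_succ]; simp
  obtain ⟨h5, h6⟩ := wr_run_append W (List.replicate k o).flatten o o hW
  rw [← e] at h5 h6
  rw [h3, h4, h5, h2, h6]
  exact ⟨rfl, rfl⟩

lemma wr_states_parity (w : List Slice) : ∀ s ∈ states w, Even (s.1 - crossings w) := by
  induction w with
  | nil => intro s hs; simp [states] at hs; subst hs; simp [crossings]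
  | cons s w ih =>
    intro t ht
    cases s with
    | cup i u =>
      rw [states] at ht
      · rw [List.mem_map] at ht
        obtain ⟨t', ht', rfl⟩ := ht
        exact ih t' ht'
      · intro j p; exact Slice.noConfusion
    | cap i =>
      rw [states] at ht
      · rw [List.mem_map] at ht
        obtain ⟨t', ht', rfl⟩ := ht
        exact ih t' ht'
      · intro j p; exact Slice.noConfusion
    | cross i p =>
      rw [states, List.mem_flatMap] at ht
      obtain ⟨t', ht', ht⟩ := ht
      obtain ⟨k, hk⟩ := ih t' ht'
      have e : crossings (Slice.cross i p :: w) = crossings w + 1 := rfl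
      rw [e]
      push_cast
      simp only [List.mem_cons, List.not_mem_nil, or_false] at ht
      rcases ht with rfl | rfl
      · cases p
        · exact ⟨k - 1, by simp; omega⟩
        · exact ⟨k, by simp; omega⟩
      · cases p
        · exact ⟨k, by simp; omega⟩
        · exact ⟨k - 1, by simp; omega⟩

lemma wr_neg_zpow (z : ℂˣ) (n : ℤ) (m : ℕ) (h : Even (n - m)) :
    (((-z) ^ n : ℂˣ) : ℂ) = (-1) ^ m * ((z ^ n : ℂˣ) : ℂ) := by
  have h1 : (-z) ^ n = (-1 : ℂˣ) ^ m * z ^ n := by
    rw [neg_eq_neg_one_mul z, mul_zpow]
    congr 1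
    obtain ⟨k, hk⟩ := h
    have : n = (m : ℤ) + 2 * k := by omega
    rw [this, zpow_add, zpow_mul, zpow_natCast]
    simp
  rw [h1]
  push_cast
  rfl

lemma wr_loopVal_neg (z : ℂˣ) :
    evalAt (-z) loopVal = evalAt z loopVal := by
  simp only [loopVal, map_neg, map_add]
  simp only [evalAt, LaurentPolynomial.eval₂_T]
  rw [wr_neg_zpow z 2 0 (by decide), wr_neg_zpow z (-2) 0 (by decide)]
  simp

lemma wr_bracket_neg (z : ℂˣ) (D : List Slice) :
    evalAt (-z) (bracket D) = (-1) ^ crossings D * evalAt z (bracket D) := by
  rw [bracket, sum_map_hom, sum_map_hom, ← List.sum_map_mul_left]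
  congr 1
  apply List.map_congr_left
  intro s hs
  rw [map_mul, map_mul, map_pow, map_pow, wr_loopVal_neg]
  have h4 : ∀ x : ℂˣ, evalAt x (LaurentPolynomial.T s.1) = ((x ^ s.1 : ℂˣ) : ℂ) := by
    intro x
    simp [evalAt, LaurentPolynomial.eval₂_T]
  rw [h4, h4, wr_neg_zpow z s.1 (crossings D) (wr_states_parity D s hs)]
  ring

theorem eval_fPoly_neg (z : ℂˣ) (D : List Slice)
    (hD : dirsAbove D [] = some []) :
    evalAt z (fPoly D) = ((z ^ (-3 * writhe D) : ℂˣ) : ℂ) * evalAt (-z) (bracket D) := by
  rw [eval_fPoly, wr_bracket_neg,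
    neg_one_pow_natAbs (writhe D) (crossings D) (sign_parity D [] [] hD)]
  ring

end Pool.Agent.Helper77.Sat
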