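import Pool.Agent.Helper77.Sat.Vertex
import Pool.Agent.Helper77.Sat.Writhe

/-!
# Module K: the vertex model on a knot
-/

namespace Pool.Agent.Helper77.Sat

open Pool.Agent.Helper2

/-! ### The colouring trace of a closure -/

/-- Locality and congruence of the colouring model. -/
lemma kv_congr (w : List Slice) : ∀ (n m : ℕ) (φ φ' : List Bool → ℤ), Ok w n m →
    (∀ x, x.length = n → φ x = φ' x) → ∀ x, x.length = m →
      colOps.run w φ x = colOps.run w φ' x := by
  induction w with
  | nil =>
    intro n m φ φ' h H x hx
    simp only [Ok] at h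
    subst h
    exact H x hx
  | cons s w ih =>
    intro n m φ φ' h H
    cases s with
    | cup i u =>
      refine ih _ _ _ _ h.2 ?_
      intro x hx
      have hi := h.1
      obtain ⟨p, r, rfl, rfl⟩ := split_list x i (by omega)
      change lift eCup0 p.length φ (p ++ r) = lift eCup0 p.length φ' (p ++ r)
      rw [lift_append, lift_append]
      rcases r with _ | ⟨a, _ | ⟨b, r⟩⟩
      · rfl
      · rfl
      simp only [eCup0]
      rw [H _ (by simp at hx ⊢; omega)]
    | cap i =>
      refine ih _ _ _ _ h.2 ?_
      intro x hx
      have hi := h.1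
      obtain ⟨p, r, rfl, rfl⟩ := split_list x i (by omega)
      change lift eCap0 p.length φ (p ++ r) = lift eCap0 p.length φ' (p ++ r)
      rw [lift_append, lift_append]
      simp only [eCap0]
      rw [H _ (by simp at hx ⊢; omega), H _ (by simp at hx ⊢; omega)]
    | cross i p =>
      refine ih _ _ _ _ h.2 ?_
      intro x hx
      have hi := h.1
      obtain ⟨p, r, rfl, rfl⟩ := split_list x i (by omega)
      change lift eX0 p.length φ (p ++ r) = lift eX0 p.length φ' (p ++ r)
      rw [lift_append, lift_append]
      rcases r with _ | ⟨a, _ | ⟨b, r⟩⟩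
      · rfl
      · rfl
      simp only [eX0]
      rw [H _ (by simp at hx ⊢; omega)]

lemma kv_local (w : List Slice) : ∀ (n m : ℕ) (φ : List Bool → ℤ) (r : List Bool), Ok w n m →
    ∀ x, x.length = m →
      colOps.run w φ (x ++ r) = colOps.run w (fun y => φ (y ++ r)) x := by
  induction w with
  | nil =>
    intro n m φ r h x hx
    rfl
  | cons s w ih =>
    intro n m φ r h x hx
    cases s with
    | cup i u =>
      have h1 := ih _ _ (colOps.act (.cup i u) φ) r h.2 x hx
      refine h1.trans (kv_congr w _ _ _ _ h.2 ?_ x hx)
      intro y hy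
      have hi := h.1
      obtain ⟨p, q, rfl, rfl⟩ := split_list y i (by omega)
      change lift eCup0 p.length φ (p ++ q ++ r) =
        lift eCup0 p.length (fun y => φ (y ++ r)) (p ++ q)
      rw [List.append_assoc, lift_append, lift_append]
      rcases q with _ | ⟨a, _ | ⟨b, q⟩⟩
      · simp at hy; omega
      · simp at hy; omega
      simp [eCup0]
    | cap i =>
      have h1 := ih _ _ (colOps.act (.cap i) φ) r h.2 x hx
      refine h1.trans (kv_congr w _ _ _ _ h.2 ?_ x hx)
      intro y hy
      have hi := h.1
      obtain ⟨p, q, rfl, rfl⟩ := split_list y i (by omega)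
      change lift eCap0 p.length φ (p ++ q ++ r) =
        lift eCap0 p.length (fun y => φ (y ++ r)) (p ++ q)
      rw [List.append_assoc, lift_append, lift_append]
      simp [eCap0]
    | cross i c =>
      have h1 := ih _ _ (colOps.act (.cross i c) φ) r h.2 x hx
      refine h1.trans (kv_congr w _ _ _ _ h.2 ?_ x hx)
      intro y hy
      have hi := h.1
      obtain ⟨p, q, rfl, rfl⟩ := split_list y i (by omega)
      change lift eX0 p.length φ (p ++ q ++ r) =
        lift eX0 p.length (fun y => φ (y ++ r)) (p ++ q)
      rw [List.append_assoc, lift_append, lift_append]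
      rcases q with _ | ⟨a, _ | ⟨b, q⟩⟩
      · simp at hy; omega
      · simp at hy; omega
      simp [eX0]

/-- The state after nested cups. -/
def kvNest (n : ℕ) (l : List Bool) : ℤ := if l.length = 2 * n ∧ l.reverse = l then 1 else 0

lemma kv_nest_append (n : ℕ) (x z : List Bool) (hx : x.length = n) :
    kvNest n (x ++ z) = if z = x.reverse then 1 else 0 := by
  unfold kvNest
  congr 1
  apply propext
  constructor
  · rintro ⟨h1, h2⟩
    rw [List.reverse_append] at h2
    rw [List.length_append] at h1
    have := List.append_inj h2 (by simp; omega)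
    exact this.2.symm
  · rintro rfl
    simp
    omega

lemma kv_cups (o : List Bool) : colOps.run (o.mapIdx fun i u => Slice.cup i u) eInit =
    kvNest o.length := by
  induction o using List.reverseRecOn with
  | nil =>
    funext l
    rcases l with _ | ⟨a, l⟩ <;> simp [Ops.run, eInit, kvNest]
  | append_singleton o u ih =>
    rw [List.mapIdx_concat, Ops.run_append, ih]
    change lift eCup0 o.length (kvNest o.length) = _
    funext l
    by_cases hl : l.length < o.length
    · rw [lift_short _ _ _ _ hl]
      unfold kvNest
      rw [if_neg]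
      simp
      omega
    obtain ⟨p, r, rfl, hp⟩ := split_list l o.length (by omega)
    rw [← hp, lift_append]
    rcases r with _ | ⟨a, _ | ⟨b, r⟩⟩
    · unfold kvNest
      simp only [eCup0]
      rw [if_neg]
      simp
      omega
    · unfold kvNest
      simp only [eCup0]
      rw [if_neg]
      simp
      omega
    simp only [eCup0]
    have e1 : p ++ a :: b :: r = (p ++ [a]) ++ (b :: r) := by simp
    rw [hp, kv_nest_append _ _ _ hp, e1, kv_nest_append _ _ _ (by simp [hp])]
    by_cases hab : a = b
    · subst hab
      simp
    · rw [if_neg hab, if_neg]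
      intro h
      simp at h
      exact hab h.1.symm

lemma kv_sum_lists (n : ℕ) (g : List Bool → ℤ) : ∑ x ∈ lists (n + 1), g x =
    ∑ x ∈ lists n, (g (x ++ [true]) + g (x ++ [false])) := by
  classical
  have h : lists (n + 1) = (lists n).image (· ++ [true]) ∪ (lists n).image (· ++ [false]) := by
    ext l
    simp only [mem_lists, Finset.mem_union, Finset.mem_image]
    constructor
    · intro hl
      rcases List.eq_nil_or_concat l with rfl | ⟨l', a, rfl⟩
      · simp at hl
      · cases a
        · exact Or.inr ⟨l', by simpa using hl, by simp⟩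
        · exact Or.inl ⟨l', by simpa using hl, by simp⟩
    · rintro (⟨x, hx, rfl⟩ | ⟨x, hx, rfl⟩) <;> simp [hx]
  rw [h, Finset.sum_union, Finset.sum_image, Finset.sum_image, Finset.sum_add_distrib]
  · intro x _ y _ hxy
    exact List.append_cancel_right hxy
  · intro x _ y _ hxy
    exact List.append_cancel_right hxy
  · rw [Finset.disjoint_left]
    intro x hx hy
    simp only [Finset.mem_image] at hx hy
    obtain ⟨a, _, rfl⟩ := hx
    obtain ⟨b, _, hb⟩ := hy
    have := congrArg List.getLast? hb
    simp at this

lemma kv_caps (n : ℕ) : ∀ χ : List Bool → ℤ,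
    colOps.run ((List.range n).reverse.map Slice.cap) χ [] =
      ∑ x ∈ lists n, χ (x ++ x.reverse) := by
  induction n with
  | zero => intro χ; simp [lists, Ops.run]
  | succ n ih =>
    intro χ
    rw [List.range_succ, List.reverse_append, kv_sum_lists]
    change colOps.run ((List.range n).reverse.map Slice.cap) (lift eCap0 n χ) [] = _
    rw [ih]
    apply Finset.sum_congr rfl
    intro x hx
    rw [mem_lists] at hx
    rw [← hx, lift_append]
    simp [eCap0]

lemma kv_col_closeUp (o : List Bool) (w : List Slice) (hw : Ok w o.length o.length) :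
    colOps.run (closeUp o w) eInit [] =
      ∑ x ∈ lists o.length, colOps.run w (Pi.single x 1) x := by
  unfold closeUp
  rw [Ops.run_append, Ops.run_append, kv_cups, kv_caps]
  apply Finset.sum_congr rfl
  intro x hx
  rw [mem_lists] at hx
  rw [kv_local w _ _ _ _ hw x hx]
  apply kv_congr w _ _ _ _ hw _ x hx
  intro y hy
  rw [kv_nest_append _ _ _ hy]
  by_cases hxy : y = x
  · subst hxy; simp
  · rw [if_neg, Pi.single_eq_of_ne hxy]
    intro h
    exact hxy (List.reverse_injective h).symm

/-! ### The comparison -/

/-- The labelling with the two-colouring `x` relative to the directions `o`. -/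
def kvTr (o x : List Bool) : List Bool := List.zipWith (fun a b => a == b) o x

lemma kvTr_append (p q x y : List Bool) (h : p.length = x.length) :
    kvTr (p ++ q) (x ++ y) = kvTr p x ++ kvTr q y := by
  unfold kvTr
  exact List.zipWith_append h

lemma kvTr_cons (a b : Bool) (p x : List Bool) : kvTr (a :: p) (b :: x) = (a == b) :: kvTr p x :=
  rfl

lemma kvTr_length (o x : List Bool) (h : x.length = o.length) : (kvTr o x).length = o.length := by
  simp [kvTr, h]

lemma kvTr_kvTr (o : List Bool) : ∀ x : List Bool, x.length = o.length →
    kvTr o (kvTr o x) = x := by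
  induction o with
  | nil => intro x h; simp at h; subst h; rfl
  | cons a o ih =>
    intro x h
    rcases x with _ | ⟨b, x⟩
    · simp at h
    rw [kvTr_cons, kvTr_cons, ih x (by simpa using h)]
    cases a <;> cases b <;> rfl

lemma kv_mono_mid (p r : List Bool) (a b : Bool) :
    mono b (p ++ a :: a :: r) ↔ a = b ∧ mono b (p ++ r) := by
  simp only [mono_append, mono_cons]
  tauto

lemma kv_mono_swap (p r : List Bool) (a b c : Bool) :
    mono b (p ++ a :: c :: r) ↔ mono b (p ++ c :: a :: r) := by
  simp only [mono_append, mono_cons]
  tauto

/-- The comparison between a family `v` of states of the vertex model and a family `c` of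
states of the two-colouring model. -/
structure KV (k : ℕ) (o : List Bool) (v c : List Bool → List Bool → ℤ) (s t : ℤ) : Prop where
  low : ∀ y x, y.length = k → x.length = o.length → lb (x ++ y) ≤ c y x
  val : ∀ y x, y.length = k → x.length = o.length → c y x = lb (x ++ y) →
    v y (kvTr o x) = (if mono true (x ++ y) then s else 0) +
      (if mono false (x ++ y) then t else 0)

lemma KV.cup {k : ℕ} {p' q' : List Bool} {v c : List Bool → List Bool → ℤ} {s t : ℤ}
    (h : KV k (p' ++ q') v c s t) (u : Bool) :
    KV k (p' ++ u :: (!u) :: q') (fun y => lift vCup0 p'.length (v y))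
      (fun y => lift eCup0 p'.length (c y)) ((if u then 1 else -1) * s)
      (-(if u then 1 else -1) * t) := by
  have key : ∀ x : List Bool, x.length = (p' ++ u :: (!u) :: q').length →
      ∃ p a b q, x = p ++ a :: b :: q ∧ p.length = p'.length ∧ q.length = q'.length := by
    intro x hx
    obtain ⟨p, r, rfl, hp⟩ := split_list x p'.length (by rw [hx]; simp)
    rcases r with _ | ⟨a, _ | ⟨b, r⟩⟩
    · simp at hx; omega
    · simp at hx; omega
    · exact ⟨p, a, b, r, rfl, hp, by simp at hx; omega⟩
  constructor
  · intro y x hy hx
    obtain ⟨p, a, b, q, rfl, hp, hq⟩ := key x hx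
    have e1 : lift eCup0 p'.length (c y) (p ++ a :: b :: q) =
        if a = b then c y (p ++ q) else 0 := by
      rw [← hp, lift_append]
      simp only [eCup0]
    simp only [e1, List.append_assoc, List.cons_append]
    split_ifs with hab
    · subst hab
      refine (lb_cup p (q ++ y) a).trans ?_
      have := h.low y (p ++ q) hy (by simp; omega)
      rwa [List.append_assoc] at this
    · rw [lb_cup_ne _ _ _ _ hab]
  · intro y x hy hx hc
    obtain ⟨p, a, b, q, rfl, hp, hq⟩ := key x hx
    have e1 : lift eCup0 p'.length (c y) (p ++ a :: b :: q) =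
        if a = b then c y (p ++ q) else 0 := by
      rw [← hp, lift_append]
      simp only [eCup0]
    have e2 : lift vCup0 p'.length (v y) (kvTr (p' ++ u :: (!u) :: q') (p ++ a :: b :: q)) =
        if a = b then (if (u == a) = true then 1 else -1) * v y (kvTr (p' ++ q') (p ++ q))
        else 0 := by
      rw [kvTr_append _ _ _ _ hp.symm, kvTr_append _ _ _ _ hp.symm, kvTr_cons, kvTr_cons]
      have e3 : p'.length = (kvTr p' p).length := (kvTr_length _ _ hp).symm
      rw [e3, lift_append]
      simp only [vCup0]
      cases u <;> cases a <;> cases b <;> simp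
    simp only [e1, List.append_assoc, List.cons_append] at hc ⊢
    rw [e2]
    by_cases hab : a = b
    · subst hab
      rw [if_pos rfl] at hc ⊢
      have h1 := h.low y (p ++ q) hy (by simp; omega)
      have h2 := lb_cup p (q ++ y) a
      rw [List.append_assoc] at h1
      have h3 : c y (p ++ q) = lb (p ++ (q ++ y)) := by omega
      have h4 : lb (p ++ a :: a :: (q ++ y)) = lb (p ++ (q ++ y)) := by omega
      have h5 := h.val y (p ++ q) hy (by simp; omega) (by rw [List.append_assoc]; exact h3)
      rw [h5, List.append_assoc]
      simp only [lb, kv_mono_mid] at h4 ⊢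
      by_cases hMT : mono true (p ++ (q ++ y))
      · by_cases hMF : mono false (p ++ (q ++ y))
        · cases a <;> simp [hMT, hMF] at h4
        · cases a
          · simp [hMT, hMF] at h4
          · cases u <;> simp [hMT, hMF]
      · by_cases hMF : mono false (p ++ (q ++ y))
        · cases a
          · cases u <;> simp [hMT, hMF]
          · simp [hMT, hMF] at h4
        · cases a <;> simp [hMT, hMF]
    · rw [if_neg hab, if_neg, if_neg]
      · rfl
      · rw [mono_append, mono_cons, mono_cons]
        rintro ⟨-, rfl, rfl, -⟩
        exact hab rfl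
      · rw [mono_append, mono_cons, mono_cons]
        rintro ⟨-, rfl, rfl, -⟩
        exact hab rfl

lemma KV.cap {k : ℕ} {p' q' : List Bool} {v c : List Bool → List Bool → ℤ} {s t : ℤ} {u : Bool}
    (h : KV k (p' ++ u :: (!u) :: q') v c s t) :
    KV k (p' ++ q') (fun y => lift vCap0 p'.length (v y))
      (fun y => lift eCap0 p'.length (c y)) ((if u then -1 else 1) * s)
      (-(if u then -1 else 1) * t) := by
  have key : ∀ x : List Bool, x.length = (p' ++ q').length →
      ∃ p q, x = p ++ q ∧ p.length = p'.length ∧ q.length = q'.length := by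
    intro x hx
    obtain ⟨p, r, rfl, hp⟩ := split_list x p'.length (by rw [hx]; simp)
    exact ⟨p, r, rfl, hp, by simp at hx; omega⟩
  constructor
  · intro y x hy hx
    obtain ⟨p, q, rfl, hp, hq⟩ := key x hx
    have e1 : lift eCap0 p'.length (c y) (p ++ q) =
        c y (p ++ true :: true :: q) + c y (p ++ false :: false :: q) := by
      rw [← hp, lift_append]
      simp only [eCap0]
    have hT := h.low y (p ++ true :: true :: q) hy (by simp; omega)
    have hF := h.low y (p ++ false :: false :: q) hy (by simp; omega)
    have hcap := lb_cap p (q ++ y)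
    simp only [e1, List.append_assoc, List.cons_append] at hT hF hcap ⊢
    omega
  · intro y x hy hx hc
    obtain ⟨p, q, rfl, hp, hq⟩ := key x hx
    have e1 : lift eCap0 p'.length (c y) (p ++ q) =
        c y (p ++ true :: true :: q) + c y (p ++ false :: false :: q) := by
      rw [← hp, lift_append]
      simp only [eCap0]
    have e2 : lift vCap0 p'.length (v y) (kvTr (p' ++ q') (p ++ q)) =
        (if u then -1 else 1) *
          (v y (kvTr (p' ++ u :: (!u) :: q') (p ++ true :: true :: q)) -
            v y (kvTr (p' ++ u :: (!u) :: q') (p ++ false :: false :: q))) := by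
      rw [kvTr_append _ _ _ _ hp.symm, kvTr_append _ _ _ _ hp.symm, kvTr_append _ _ _ _ hp.symm,
        kvTr_cons, kvTr_cons, kvTr_cons, kvTr_cons]
      have e3 : p'.length = (kvTr p' p).length := (kvTr_length _ _ hp).symm
      rw [e3, lift_append]
      simp only [vCap0]
      cases u <;> simp
    have hT := h.low y (p ++ true :: true :: q) hy (by simp; omega)
    have hF := h.low y (p ++ false :: false :: q) hy (by simp; omega)
    have hcap := lb_cap p (q ++ y)
    have hvT := h.val y (p ++ true :: true :: q) hy (by simp; omega)
    have hvF := h.val y (p ++ false :: false :: q) hy (by simp; omega)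
    simp only [e1, List.append_assoc, List.cons_append] at hT hF hcap hc hvT hvF
    rw [e2, hvT (by omega), hvF (by omega)]
    simp only [kv_mono_mid, List.append_assoc]
    by_cases hMT : mono true (p ++ (q ++ y)) <;> by_cases hMF : mono false (p ++ (q ++ y)) <;>
      cases u <;> simp [hMT, hMF] <;> ring

lemma KV.cross {k : ℕ} {p' q' : List Bool} {v c : List Bool → List Bool → ℤ} {s t : ℤ}
    {u u' : Bool} (h : KV k (p' ++ u :: u' :: q') v c s t) :
    KV k (p' ++ u' :: u :: q') (fun y => lift vX0 p'.length (v y))
      (fun y => lift eX0 p'.length (c y)) (-s) (-t) := by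
  have key : ∀ x : List Bool, x.length = (p' ++ u' :: u :: q').length →
      ∃ p a b q, x = p ++ a :: b :: q ∧ p.length = p'.length ∧ q.length = q'.length := by
    intro x hx
    obtain ⟨p, r, rfl, hp⟩ := split_list x p'.length (by rw [hx]; simp)
    rcases r with _ | ⟨a, _ | ⟨b, r⟩⟩
    · simp at hx; omega
    · simp at hx; omega
    · exact ⟨p, a, b, r, rfl, hp, by simp at hx; omega⟩
  have e1 : ∀ y p a b q, p.length = p'.length → lift eX0 p'.length (c y) (p ++ a :: b :: q) =
      c y (p ++ b :: a :: q) := by
    intro y p a b q hp
    rw [← hp, lift_append]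
    simp only [eX0]
  constructor
  · intro y x hy hx
    obtain ⟨p, a, b, q, rfl, hp, hq⟩ := key x hx
    have := h.low y (p ++ b :: a :: q) hy (by simp; omega)
    simp only [e1 _ _ _ _ _ hp, List.append_assoc, List.cons_append] at this ⊢
    rw [lb_swap]
    exact this
  · intro y x hy hx hc
    obtain ⟨p, a, b, q, rfl, hp, hq⟩ := key x hx
    have hv := h.val y (p ++ b :: a :: q) hy (by simp; omega)
    have e2 : lift vX0 p'.length (v y) (kvTr (p' ++ u' :: u :: q') (p ++ a :: b :: q)) =
        - v y (kvTr (p' ++ u :: u' :: q') (p ++ b :: a :: q)) := by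
      rw [kvTr_append _ _ _ _ hp.symm, kvTr_append _ _ _ _ hp.symm,
        kvTr_cons, kvTr_cons, kvTr_cons, kvTr_cons]
      have e3 : p'.length = (kvTr p' p).length := (kvTr_length _ _ hp).symm
      rw [e3, lift_append]
      simp only [vX0]
    simp only [e1 _ _ _ _ _ hp, List.append_assoc, List.cons_append] at hc hv ⊢
    rw [lb_swap] at hc
    rw [e2, hv hc]
    have hT := kv_mono_swap p (q ++ y) b true a
    have hF := kv_mono_swap p (q ++ y) b false a
    by_cases hMT : mono true (p ++ a :: b :: (q ++ y)) <;>
      by_cases hMF : mono false (p ++ a :: b :: (q ++ y)) <;> (simp [hMT, hMF, hT, hF]; try ring)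

lemma kv_dirs_split {i : ℕ} {o : List Bool} {a b : Bool} {r : List Bool}
    (h : o.drop i = a :: b :: r) : o = o.take i ++ a :: b :: r ∧ (o.take i).length = i := by
  have hl : (o.drop i).length = r.length + 2 := by simp [h]
  rw [List.length_drop] at hl
  refine ⟨?_, by rw [List.length_take]; omega⟩
  rw [← h, List.take_append_drop]

lemma KV.run {k : ℕ} (w : List Slice) : ∀ (o o' : List Bool) (v c : List Bool → List Bool → ℤ)
    (s t : ℤ), dirsAbove w o = some o' → KV k o v c s t →
    ∃ s' t', KV k o' (fun y => vOps.run w (v y)) (fun y => colOps.run w (c y)) s' t' ∧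
      s' * t' * (-1) ^ (o'.length / 2) = s * t * (-1) ^ (o.length / 2) ∧ s' ^ 2 = s ^ 2 := by
  induction w with
  | nil =>
    intro o o' v c s t h hk
    simp [dirsAbove] at h
    subst h
    exact ⟨s, t, hk, rfl, rfl⟩
  | cons sl w ih =>
    intro o o' v c s t h hk
    cases sl with
    | cup i u =>
      simp only [dirsAbove, Slice.dirs] at h
      split_ifs at h with hi
      · simp only [Option.bind_some] at h
        have hlen : (o.take i).length = i := by rw [List.length_take]; omega
        rw [← List.take_append_drop i o] at hk
        have h1 := hk.cup u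
        rw [hlen] at h1
        obtain ⟨s', t', h2, h3, h4⟩ := ih _ _ _ _ _ _ h h1
        refine ⟨s', t', h2, ?_, ?_⟩
        · rw [h3]
          have e : (o.take i ++ u :: (!u) :: o.drop i).length / 2 = o.length / 2 + 1 := by
            simp
            omega
          rw [e, pow_succ]
          cases u <;> simp
        · rw [h4]
          cases u <;> simp
      · simp at h
    | cap i =>
      simp only [dirsAbove, Slice.dirs] at h
      rcases hd : o.drop i with _ | ⟨a, _ | ⟨b, r⟩⟩
      · simp [hd] at h
      · simp [hd] at h
      · simp only [hd] at h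
        split_ifs at h with hab
        · simp at h
        · simp only [Option.bind_some] at h
          obtain ⟨ho, hlen⟩ := kv_dirs_split hd
          have hb : b = !a := by cases a <;> cases b <;> simp at hab ⊢
          subst hb
          have hk' := hk
          rw [ho] at hk'
          have h1 := hk'.cap
          rw [hlen] at h1
          obtain ⟨s', t', h2, h3, h4⟩ := ih _ _ _ _ _ _ h h1
          refine ⟨s', t', h2, ?_, ?_⟩
          · rw [h3]
            have e : o.length / 2 = (o.take i ++ r).length / 2 + 1 := by
              have := congrArg List.length ho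
              simp at this ⊢
              omega
            rw [e, pow_succ]
            cases a <;> simp
          · rw [h4]
            cases a <;> simp
    | cross i p =>
      simp only [dirsAbove, Slice.dirs] at h
      rcases hd : o.drop i with _ | ⟨a, _ | ⟨b, r⟩⟩
      · simp [hd] at h
      · simp [hd] at h
      · simp only [hd, Option.bind_some] at h
        obtain ⟨ho, hlen⟩ := kv_dirs_split hd
        have hk' := hk
        rw [ho] at hk'
        have h1 := hk'.cross
        rw [hlen] at h1
        obtain ⟨s', t', h2, h3, h4⟩ := ih _ _ _ _ _ _ h h1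
        refine ⟨s', t', h2, ?_, ?_⟩
        · rw [h3]
          have e : (o.take i ++ b :: a :: r).length / 2 = o.length / 2 := by
            have := congrArg List.length ho
            simp at this ⊢
            omega
          rw [e]
          ring
        · rw [h4]
          ring

/-! ### The value on a knot -/

lemma kv_mono_iff (b : Bool) (x : List Bool) (n : ℕ) (h : x.length = n) :
    mono b x ↔ x = List.replicate n b := by
  rw [List.eq_replicate_iff]
  exact ⟨fun H => ⟨h, H⟩, fun H => H.2⟩

lemma kvTr_true (o : List Bool) : kvTr o (List.replicate o.length true) = o := by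
  induction o with
  | nil => rfl
  | cons a o ih =>
    rw [List.length_cons, List.replicate_succ, kvTr_cons, ih]
    simp

lemma kvTr_false (o : List Bool) :
    kvTr o (List.replicate o.length false) = o.map (! ·) := by
  induction o with
  | nil => rfl
  | cons a o ih =>
    rw [List.length_cons, List.replicate_succ, kvTr_cons, ih]
    simp

lemma kv_winding_not (o : List Bool) : winding (o.map (! ·)) = - winding o := by
  unfold winding
  induction o with
  | nil => simp
  | cons a o ih =>
    simp only [List.map_cons, List.sum_cons] at ih ⊢
    rw [ih]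
    cases a <;> simp <;> ring

lemma kv_init (o : List Bool) (ho : 0 < o.length) :
    KV o.length o (fun y => Pi.single (kvTr o y) 1) (fun y => Pi.single y 1) 1 1 := by
  have key : ∀ x y : List Bool, y.length = o.length → x.length = o.length →
      ¬ (mono true (x ++ y) ∧ mono false (x ++ y)) := by
    intro x y hy hx h
    rcases x with _ | ⟨a, x⟩
    · simp at hx; omega
    · have h1 := h.1 a (by simp)
      have h2 := h.2 a (by simp)
      rw [h1] at h2
      exact absurd h2 (by decide)
  have key2 : ∀ (b : Bool) (x y : List Bool), y.length = o.length → x.length = o.length →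
      mono b (x ++ y) → x = y := by
    intro b x y hy hx h
    rw [mono_append] at h
    rw [(kv_mono_iff b x _ hx).1 h.1, (kv_mono_iff b y _ hy).1 h.2]
  constructor
  · intro y x hy hx
    by_cases hxy : x = y
    · subst hxy
      have := key x x hy hx
      simp only [lb, Pi.single_eq_same]
      by_cases h1 : mono true (x ++ x) <;> by_cases h2 : mono false (x ++ x) <;>
        simp [h1, h2] at this ⊢
    · rw [Pi.single_eq_of_ne hxy]
      have h1 : ¬ mono true (x ++ y) := fun h => hxy (key2 _ _ _ hy hx h)
      have h2 : ¬ mono false (x ++ y) := fun h => hxy (key2 _ _ _ hy hx h)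
      simp [lb, h1, h2]
  · intro y x hy hx h
    change (Pi.single (kvTr o y) (1 : ℤ) : List Bool → ℤ) (kvTr o x) = lb (x ++ y)
    rw [← h]
    by_cases hxy : x = y
    · subst hxy
      rw [Pi.single_eq_same, Pi.single_eq_same]
    · rw [Pi.single_eq_of_ne hxy, Pi.single_eq_of_ne]
      intro h'
      apply hxy
      rw [← kvTr_kvTr o x hx, h', kvTr_kvTr o y hy]

lemma kv_init_zero (u : Bool) :
    KV 0 [u, !u] (fun _ => lift vCup0 0 (Pi.single [] 1)) (fun _ => lift eCup0 0 eInit)
      (if u then 1 else -1) (if u then -1 else 1) := by
  constructor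
  · intro y x hy hx
    obtain rfl := List.eq_nil_of_length_eq_zero hy
    rw [List.append_nil]
    exact LB.first x (by simpa using hx)
  · intro y x hy hx h
    obtain rfl := List.eq_nil_of_length_eq_zero hy
    rw [List.append_nil] at h ⊢
    rcases x with _ | ⟨a, _ | ⟨b, _ | ⟨c, x⟩⟩⟩
    · simp at hx
    · simp at hx
    · simp only [kvTr, List.zipWith, lift_zero, vCup0]
      cases u <;> cases a <;> cases b <;> simp [mono]
    · simp at hx

/-- the value on a knot, up to sign -/
theorem vTr_knot (o : List Bool) (w : List Slice) (hw : dirsAbove w o = some o)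
    (hk : curves (closeUp o w) = 1) :
    ∃ ε : ℤ, (ε = 1 ∨ ε = -1) ∧ ∀ f : ℤ → ℤ,
      vTr f o.length w = ε * (f (winding o) + f (-winding o)) := by
  have hok : Ok w o.length o.length := ok_of_dirs w o o hw
  have hcol := colour_curves (closeUp o w) (ok_of_dirs _ [] [] (dirs_closeUp o w hw))
  rw [hk, pow_one] at hcol
  change colOps.run (closeUp o w) eInit [] = 2 at hcol
  rcases Nat.eq_zero_or_pos o.length with h0 | hpos
  · obtain rfl := List.eq_nil_of_length_eq_zero h0
    have hcl : closeUp [] w = w := by simp [closeUp]
    rw [hcl] at hcol hk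
    have hne : w ≠ [] := by
      rintro rfl
      simp [curves] at hk
    obtain ⟨u, w', rfl, hw'⟩ := first_slice w 0 hok hne
    have hd : dirsAbove w' [u, !u] = some [] := by
      simpa [dirsAbove, Slice.dirs] using hw
    obtain ⟨s, t, h1, h2, h3⟩ := KV.run w' _ _ _ _ _ _ hd (kv_init_zero u)
    have hst : s * t = 1 := by
      have : s * t * (-1) ^ (([] : List Bool).length / 2) = s * t := by simp
      rw [this] at h2
      rw [h2]
      cases u <;> simp
    have hs : s ^ 2 = 1 := by
      rw [h3]; cases u <;> simp
    have hts : t = s := by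
      have : t = s ^ 2 * t := by rw [hs, one_mul]
      rw [this, pow_two, mul_assoc, hst, mul_one]
    have hv := h1.val [] [] rfl rfl (by
      change colOps.run (Slice.cup 0 u :: w') eInit [] = _
      rw [hcol]
      decide)
    simp only [List.append_nil, mono_nil, if_true] at hv
    refine ⟨s, ?_, ?_⟩
    · exact mul_self_eq_one_iff.1 (by rw [← pow_two]; exact hs)
    · intro f
      unfold vTr
      have e : vOps.run (Slice.cup 0 u :: w') (Pi.single [] 1) [] = s + t := hv
      simp only [List.length_nil, pow_zero, one_mul, lists, Finset.sum_singleton, e, hts]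
      simp [winding]
      ring
  · obtain ⟨s, t, h1, h2, h3⟩ := KV.run w _ _ _ _ _ _ hw (kv_init o hpos)
    have hst : s * t = 1 := by
      have hne : ((-1 : ℤ) ^ (o.length / 2)) ≠ 0 := pow_ne_zero _ (by decide)
      rw [one_mul] at h2
      exact mul_right_cancel₀ hne h2
    have hs : s ^ 2 = 1 := by rw [h3, one_pow]
    have hts : t = s := by
      have : t = s ^ 2 * t := by rw [hs, one_mul]
      rw [this, pow_two, mul_assoc, hst, mul_one]
    have hmm : ∀ (b : Bool) (x : List Bool), mono b (x ++ x) ↔ mono b x := by
      intro b x
      rw [mono_append, and_self]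
    have hrep : ∀ (b : Bool) (x : List Bool), x ∈ lists o.length →
        (mono b (x ++ x) ↔ x = List.replicate o.length b) := by
      intro b x hx
      rw [hmm, kv_mono_iff b x _ (mem_lists.1 hx)]
    have hsum : ∀ (b : Bool) (g : List Bool → ℤ),
        ∑ x ∈ lists o.length, (if mono b (x ++ x) then g x else 0) =
          g (List.replicate o.length b) := by
      intro b g
      rw [Finset.sum_eq_single (List.replicate o.length b)]
      · rw [if_pos]
        rw [hmm]
        exact (kv_mono_iff b _ o.length (by simp)).2 rfl
      · intro x hx hne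
        rw [if_neg]
        rw [hrep b x hx]
        exact hne
      · intro h
        exact absurd (mem_lists.2 (by simp)) h
    have hlb : ∑ x ∈ lists o.length, lb (x ++ x) = 2 := by
      simp only [lb]
      rw [Finset.sum_add_distrib, hsum true (fun _ => 1), hsum false (fun _ => 1)]
      norm_num
    have hle : ∀ x ∈ lists o.length, lb (x ++ x) ≤ colOps.run w (Pi.single x 1) x :=
      fun x hx => h1.low x x (mem_lists.1 hx) (mem_lists.1 hx)
    have heq := (Finset.sum_eq_sum_iff_of_le hle).1 (by
      rw [hlb, ← hcol, kv_col_closeUp o w hok])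
    refine ⟨(-1) ^ o.length * s, ?_, ?_⟩
    · apply mul_self_eq_one_iff.1
      rw [← pow_two, mul_pow, hs, ← pow_mul, mul_comm o.length 2, pow_mul]
      norm_num
    · intro f
      unfold vTr
      rw [mul_assoc]
      congr 1
      have hre : ∑ y ∈ lists o.length, f (winding y) * vOps.run w (Pi.single y 1) y =
          ∑ x ∈ lists o.length, f (winding (kvTr o x)) *
            vOps.run w (Pi.single (kvTr o x) 1) (kvTr o x) := by
        refine Finset.sum_nbij' (kvTr o) (kvTr o) ?_ ?_ ?_ ?_ ?_
        · intro x hx
          rw [mem_lists] at hx ⊢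
          exact kvTr_length o x hx
        · intro x hx
          rw [mem_lists] at hx ⊢
          exact kvTr_length o x hx
        · intro x hx
          exact kvTr_kvTr o x (mem_lists.1 hx)
        · intro x hx
          exact kvTr_kvTr o x (mem_lists.1 hx)
        · intro x hx
          rw [kvTr_kvTr o x (mem_lists.1 hx)]
      rw [hre]
      have hval : ∀ x ∈ lists o.length, f (winding (kvTr o x)) *
            vOps.run w (Pi.single (kvTr o x) 1) (kvTr o x) =
          (if mono true (x ++ x) then f (winding (kvTr o x)) * s else 0) +
            (if mono false (x ++ x) then f (winding (kvTr o x)) * s else 0) := by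
        intro x hx
        have := h1.val x x (mem_lists.1 hx) (mem_lists.1 hx) (heq x hx).symm
        rw [hts] at this
        rw [this]
        split_ifs <;> ring
      rw [Finset.sum_congr rfl hval, Finset.sum_add_distrib,
        hsum true (fun x => f (winding (kvTr o x)) * s),
        hsum false (fun x => f (winding (kvTr o x)) * s), kvTr_true, kvTr_false,
        kv_winding_not]
      ring

end Pool.Agent.Helper77.Sat
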