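import Pool.Agent.Helper77.Sat.Main
import Pool.Agent.Helper77.Sat.Closure
import Pool.Agent.Helper77.Sat.Comp
import Pool.Agent.Helper77.Sat.Writhe
import Pool.Agent.Helper77.Sat.PathAnn
import Pool.Agent.Helper77.Sat.VertexKnot
import Pool.Agent.Helper77.Sat.Arith

/-!
# The f-polynomials of satellites at a primitive fifth root of unity
-/

namespace Pool.Agent.Helper77.Sat

open Pool.Agent.Helper2

/-! ### The trace of a knot pattern modulo 5 -/

theorem AnnularTrace.map {R S : Type} [CommRing R] [CommRing S] (φ : R →+* S) {δ c : R}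
    {τ : ℕ → List Slice → R} (h : AnnularTrace δ c τ) :
    AnnularTrace (φ δ) (φ c) (fun n w => φ (τ n w)) where
  cyc n k u v hu hv := by rw [h.cyc n k u v hu hv]
  rel1 n i a w hi hw := by rw [h.rel1 n i a w hi hw, map_mul]
  rel2 n i a w hi hw := by rw [h.rel2 n i a w hi hw]
  rel3 n i a w hi hw := by rw [h.rel3 n i a w hi hw]
  rel4 n i k a w hi hw := by rw [h.rel4 n i k a w hi hw]
  rel5 n i k a w hi hw := by rw [h.rel5 n i k a w hi hw]
  cross n i p w hi hw := by rw [h.cross n i p w hi hw, map_add, map_mul, map_mul]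

theorem AnnularTrace.smul {R : Type} [CommRing R] (x : R) {δ c : R}
    {τ : ℕ → List Slice → R} (h : AnnularTrace δ c τ) :
    AnnularTrace δ c (fun n w => x * τ n w) where
  cyc n k u v hu hv := by rw [h.cyc n k u v hu hv]
  rel1 n i a w hi hw := by rw [h.rel1 n i a w hi hw]; ring
  rel2 n i a w hi hw := by rw [h.rel2 n i a w hi hw]
  rel3 n i a w hi hw := by rw [h.rel3 n i a w hi hw]
  rel4 n i k a w hi hw := by rw [h.rel4 n i k a w hi hw]
  rel5 n i k a w hi hw := by rw [h.rel5 n i k a w hi hw]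
  cross n i p w hi hw := by rw [h.cross n i p w hi hw]; ring

theorem annular_one : AnnularTrace (-2 : ZMod 3) (-1) (fun _ _ => (1 : ZMod 3)) where
  cyc _ _ _ _ _ _ := rfl
  rel1 _ _ _ _ _ _ := by decide
  rel2 _ _ _ _ _ _ := rfl
  rel3 _ _ _ _ _ _ := rfl
  rel4 _ _ _ _ _ _ _ := rfl
  rel5 _ _ _ _ _ _ _ := rfl
  cross _ _ _ _ _ _ := by decide

theorem trace_mod_five (o : List Bool) (w : List Slice) (hw : dirsAbove w o = some o)
    (hk : curves (closeUp o w) = 1) :
    trw (g1 : List Bool → ZMod 5) o.length (run (-1 : ZMod 5) w) = ((winding o : ℤ) : ZMod 5) ^ 2 := by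
  have hok : Ok w o.length o.length := ok_of_dirs w o o hw
  obtain ⟨ε, hε, hv⟩ := vTr_knot o w hw hk
  -- the sign
  have h3 := annular_unique (R := ZMod 3) (by
      simpa using (annular_vTr (fun _ => 1)).map (Int.castRingHom (ZMod 3))) annular_one (by
      intro n
      rw [vTr_nil_one]
      push_cast
      have : (-2 : ZMod 3) = 1 := by decide
      rw [this, one_pow]) o.length w hok
  rw [hv] at h3
  have hε' : ε = -1 := by
    rcases hε with h | h
    · exfalso
      rw [h] at h3
      revert h3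
      push_cast
      decide
    · exact h
  -- the value
  have h5 := annular_unique (R := ZMod 5) annular_trw (by
      simpa using ((annular_vTr (fun x => x ^ 2)).map (Int.castRingHom (ZMod 5))).smul 2) (by
      intro n
      have h6 := trw_id n
      have h7 : run (-1 : ZMod 5) [] = LinearMap.id := rfl
      rw [h7, h6]
      rw [vTr_nil_sq]
      push_cast
      ring) o.length w hok
  rw [h5, hv, hε']
  push_cast
  have h8 : (2 : ZMod 5) * 2 = -1 := by decide
  linear_combination (-((winding o : ℤ) : ZMod 5) ^ 2) * h8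

theorem trw_mem (z : ℂ) (n : ℕ) (w : List Slice) :
    trw g1 n (run (-z) w) ∈ Algebra.adjoin ℤ {z} := by
  have hzm : z ∈ Algebra.adjoin ℤ {z} := Algebra.subset_adjoin rfl
  have h := run_map ((Algebra.adjoin ℤ {z}).val : Algebra.adjoin ℤ {z} →+* ℂ)
    (⟨-z, neg_mem hzm⟩ : Algebra.adjoin ℤ {z}) w n
  have e : ((Algebra.adjoin ℤ {z}).val : Algebra.adjoin ℤ {z} →+* ℂ)
    (⟨-z, neg_mem hzm⟩ : Algebra.adjoin ℤ {z}) = -z := rfl
  rw [e] at h
  rw [← h]
  exact (trw g1 n (run (⟨-z, neg_mem hzm⟩ : Algebra.adjoin ℤ {z}) w)).2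

/-! ### The value of `f` on closures -/

theorem trw_gx_sub {R : Type} [CommRing R] (x y : R) (n : ℕ) (T : Fn R →ₗ[R] Fn R) :
    trw (gx x) n T - trw (gx y) n T = (x - y) * trw g1 n T := by
  unfold trw
  rw [← Finset.sum_sub_distrib, Finset.mul_sum]
  refine Finset.sum_congr rfl fun p _ => ?_
  unfold gx g1
  by_cases h1 : p.head? = some false
  · by_cases h2 : p.getLast? = some true
    · simp [h1, h2]; ring
    · simp [h1, h2]
  · simp [h1]

theorem trw_g1_zero {R : Type} [CommRing R] (T : Fn R →ₗ[R] Fn R) : trw g1 0 T = 0 := by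
  unfold trw
  refine Finset.sum_eq_zero fun p hp => ?_
  rw [mem_lgl] at hp
  obtain ⟨a, rfl⟩ := List.length_eq_one_iff.1 (by simpa using hp.1)
  cases a <;> simp [g1]

section

variable (z : ℂˣ) (hz : IsPrimitiveRoot (z : ℂ) 5)

include hz

lemma phi_neg : ((-z : ℂˣ) : ℂ) ^ 4 - ((-z : ℂˣ) : ℂ) ^ 3 + ((-z : ℂˣ) : ℂ) ^ 2 -
    ((-z : ℂˣ) : ℂ) + 1 = 0 := by
  have := hz.geom_sum_eq_zero (by norm_num)
  simp only [Finset.sum_range_succ, Finset.sum_range_zero] at this
  push_cast
  linear_combination this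

lemma dd_ne : dd ((-z : ℂˣ) : ℂ) ≠ 0 := by
  intro h
  have := dd_sq (phi_neg z hz)
  rw [h] at this
  simp at this

/-- the value of `f` on the closure of `w`, in terms of the trace -/
theorem value_closeUp (o : List Bool) (ho : o ≠ []) (w : List Slice)
    (hw : dirsAbove w o = some o) :
    dd ((-z : ℂˣ) : ℂ) * evalAt z (fPoly (closeUp o w)) =
      ((z ^ (-3 * signSum w o) : ℂˣ) : ℂ) *
        trw (gx (dd ((-z : ℂˣ) : ℂ))) o.length (run ((-z : ℂˣ) : ℂ) w) := by
  rw [eval_fPoly_neg z (closeUp o w) (dirs_closeUp o w hw), writhe_closeUp o w hw,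
    ← bracket_closeUp (-z) (phi_neg z hz) o ho w (ok_of_dirs w o o hw)]
  ring

theorem value_companion (m : ℕ) (hm : 0 < m) (b : List (ℕ × Bool)) (hb : ∀ x ∈ b, x.1 + 1 < m)
    (h0 : expSum b = 0) :
    dd ((-z : ℂˣ) : ℂ) * evalAt z (fPoly (companion m b)) =
      trw (gx (dd ((-z : ℂˣ) : ℂ))) m (run ((-z : ℂˣ) : ℂ) (braid b)) := by
  obtain ⟨h1, h2⟩ := dirs_braid m b hb
  have h3 := value_closeUp z hz (List.replicate m true) (by
    intro h
    have := congrArg List.length h
    simp at this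
    omega) (braid b) h1
  rw [h2, h0, List.length_replicate] at h3
  unfold companion
  rw [h3]
  simp

theorem value_satellite (o : List Bool) (ho : o ≠ []) (W : List Slice)
    (hW : dirsAbove W o = some o) (m : ℕ) (hm : 0 < m) (b : List (ℕ × Bool))
    (hb : ∀ x ∈ b, x.1 + 1 < m) (h0 : expSum b = 0)
    (hc : ∀ j < m, ∃ r : ℕ, (perm b ^ r) 0 = j) :
    dd ((-z : ℂˣ) : ℂ) * evalAt z (fPoly (satellite o W m b)) =
      ((z ^ (-3 * signSum W o) : ℂˣ) : ℂ) *
        trw (gx (dd ((-z : ℂˣ) : ℂ) * evalAt z (fPoly (companion m b)))) o.length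
          (run ((-z : ℂˣ) : ℂ) W) := by
  obtain ⟨h1, h2⟩ := dirs_satellite o W hW m hm b hb
  have hne : (List.replicate m o).flatten ≠ [] := by
    intro h
    have h4 := congrArg List.length h
    rw [List.length_flatten, List.map_replicate, List.sum_replicate] at h4
    simp only [smul_eq_mul, List.length_nil, mul_eq_zero] at h4
    rcases h4 with h4 | h4
    · omega
    · exact ho (List.eq_nil_of_length_eq_zero h4)
  have h3 := value_closeUp z hz _ hne _ h1
  rw [h2, h0, zero_mul, zero_add] at h3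
  unfold satellite
  rw [h3]
  congr 1
  have hlen : (List.replicate m o).flatten.length = o.length * m := by
    rw [List.length_flatten, List.map_replicate, List.sum_replicate, smul_eq_mul, mul_comm]
  rw [hlen, run_append, main_trace (phi_neg z hz) m hm b hb hc o.length _
    (loc_run _ W _ _ (ok_of_dirs W o o hW)), value_companion z hz m hm b hb h0]

/-- powers of `z` are congruent to `1` -/
lemma zpow_mem (k : ℤ) : ((z ^ k : ℂˣ) : ℂ) ∈ Algebra.adjoin ℤ {(z : ℂ)} ∧
    ∃ γ ∈ Algebra.adjoin ℤ {(z : ℂ)}, ((z ^ k : ℂˣ) : ℂ) = 1 + (1 - (z : ℂ)) * γ := by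
  have hzm : (z : ℂ) ∈ Algebra.adjoin ℤ {(z : ℂ)} := Algebra.subset_adjoin rfl
  have h5 : z ^ (5 : ℤ) = 1 := by
    ext
    push_cast
    exact_mod_cast hz.pow_eq_one
  obtain ⟨j, hj⟩ : ∃ j : ℕ, z ^ k = z ^ j := by
    refine ⟨(k % 5).toNat, ?_⟩
    rw [← zpow_natCast, Int.toNat_of_nonneg (Int.emod_nonneg k (by norm_num))]
    conv_lhs => rw [← Int.emod_add_mul_ediv k 5, zpow_add, zpow_mul, h5, one_zpow, mul_one]
  rw [hj, Units.val_pow_eq_pow_val]
  refine ⟨pow_mem hzm j, -∑ i ∈ Finset.range j, (z : ℂ) ^ i,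
    neg_mem (sum_mem fun i _ => pow_mem hzm i), ?_⟩
  have := mul_neg_geom_sum (z : ℂ) j
  linear_combination this

/-- the factor of a pattern -/
noncomputable def beta (z : ℂˣ) (o : List Bool) (W : List Slice) : ℂ :=
  ((z ^ (-3 * signSum W o) : ℂˣ) : ℂ) * trw g1 o.length (run (-(z : ℂ)) W)

theorem satellites (o : List Bool) (W : List Slice) (hW : dirsAbove W o = some o) :
    beta z o W ∈ Algebra.adjoin ℤ {(z : ℂ)} ∧
      (∀ (m : ℕ) (b : List (ℕ × Bool)), IsBraidKnot m b →
        IsDiagram (satellite o W m b) ∧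
        curves (satellite o W m b) = curves (closeUp o W) ∧
        evalAt z (fPoly (satellite o W m b)) - evalAt z (fPoly (closeUp o W)) =
          beta z o W * (evalAt z (fPoly (companion m b)) - 1)) ∧
      (curves (closeUp o W) = 1 →
        ∃ γ ∈ Algebra.adjoin ℤ {(z : ℂ)}, beta z o W = (winding o : ℂ) ^ 2 + (1 - z) * γ) := by
  have hval : ((-z : ℂˣ) : ℂ) = -(z : ℂ) := by push_cast; rfl
  have hcong : curves (closeUp o W) = 1 →
      trw g1 o.length (run (-(z : ℂ)) W) ∈ Algebra.adjoin ℤ {(z : ℂ)} ∧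
      ∃ γ ∈ Algebra.adjoin ℤ {(z : ℂ)},
        trw g1 o.length (run (-(z : ℂ)) W) = (winding o : ℂ) ^ 2 + (1 - z) * γ := fun hk =>
    congruence (z : ℂ) hz o.length W (winding o) (trace_mod_five o W hW hk)
  obtain ⟨h1, γ₁, hγ₁, h2⟩ := zpow_mem z hz (-3 * signSum W o)
  refine ⟨mul_mem h1 (trw_mem (z : ℂ) o.length W), ?_, ?_⟩
  · intro m b hmb
    obtain ⟨hb, h0, hk⟩ := hmb
    have hc := cycle_of_curves m b hb hk
    have hm : 0 < m := by
      rcases Nat.eq_zero_or_pos m with h | h
      · exfalso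
        subst h
        rcases b with _ | ⟨x, b⟩
        · simp [companion, closeUp, braid, curves] at hk
        · have := hb x (by simp)
          omega
      · exact h
    refine ⟨?_, curves_satellite o W hW m b hb hk, ?_⟩
    · exact dirs_closeUp _ _ (dirs_satellite o W hW m hm b hb).1
    · unfold beta
      by_cases ho : o = []
      · subst ho
        have e1 : satellite [] W m b = closeUp [] W := by
          unfold satellite
          have e2 : (List.replicate m ([] : List Bool)).flatten = [] := by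
            rw [List.flatten_eq_nil_iff]
            intro l hl
            exact (List.mem_replicate.1 hl).2
          have e3 : parallel ([] : List Bool).length b = [] := by
            unfold parallel
            rw [List.flatMap_eq_nil_iff]
            intro x _
            simp [blockCross]
          rw [e2, e3, List.nil_append]
        rw [e1, sub_self, List.length_nil, trw_g1_zero, mul_zero, zero_mul]
      · have e1 := value_satellite z hz o ho W hW m hm b hb h0 hc
        have e2 := value_closeUp z hz o ho W hW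
        have e3 := trw_gx_sub (dd ((-z : ℂˣ) : ℂ) * evalAt z (fPoly (companion m b)))
          (dd ((-z : ℂˣ) : ℂ)) o.length (run ((-z : ℂˣ) : ℂ) W)
        have hd := dd_ne z hz
        apply mul_left_cancel₀ hd
        rw [hval] at e1 e2 e3 ⊢
        linear_combination e1 - e2 + ((z ^ (-3 * signSum W o) : ℂˣ) : ℂ) * e3
  · intro hk
    obtain ⟨-, γ₂, hγ₂, h4⟩ := hcong hk
    have h5 : beta z o W = (winding o : ℂ) ^ 2 + (1 - z) *
          (γ₁ * ((winding o : ℂ) ^ 2 + (1 - z) * γ₂) + γ₂) := by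
      unfold beta
      rw [h2, h4]
      ring
    have hwm : (winding o : ℂ) ∈ Algebra.adjoin ℤ {(z : ℂ)} := intCast_mem _ _
    have hzm : (z : ℂ) ∈ Algebra.adjoin ℤ {(z : ℂ)} := Algebra.subset_adjoin rfl
    have h6 : (γ₁ * ((winding o : ℂ) ^ 2 + (1 - z) * γ₂) + γ₂) ∈ Algebra.adjoin ℤ {(z : ℂ)} :=
      add_mem (mul_mem hγ₁ (add_mem (pow_mem hwm 2)
        (mul_mem (sub_mem (one_mem _) hzm) hγ₂))) hγ₂
    exact ⟨_, h6, h5⟩

end

end Pool.Agent.Helper77.Sat
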