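import Pool.Agent.Helper77.Sat.Local

/-!
# Module O: the basic operators are local
-/

namespace Pool.Agent.Helper77.Sat

open Pool.Agent.Helper2

variable {R : Type} [CommRing R]

lemma locops_cases_len1 {l : List Bool} (h : l.length = 1) : ∃ a, l = [a] :=
  List.length_eq_one_iff.1 h

lemma locops_cases_len2 {l : List Bool} (h : l.length = 2) : ∃ a b, l = [a, b] :=
  List.length_eq_two.1 h

lemma locops_cases_len3 {l : List Bool} (h : l.length = 3) : ∃ a b c, l = [a, b, c] :=
  List.length_eq_three.1 h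

lemma locops_sum0 {M : Type} [AddCommMonoid M] (f : List Bool → M) :
    ∑ q ∈ lgl 0, f q = f [true] + f [false] := by
  classical
  have h : lgl 0 = {[true], [false]} := by
    ext l
    rw [mem_lgl]
    constructor
    · rintro ⟨h1, -⟩
      obtain ⟨a, rfl⟩ := locops_cases_len1 h1
      cases a <;> simp
    · intro h1
      simp only [Finset.mem_insert, Finset.mem_singleton] at h1
      rcases h1 with rfl | rfl <;> simp [legal]
  rw [h, Finset.sum_insert (by simp), Finset.sum_singleton]

lemma locops_sum1 {M : Type} [AddCommMonoid M] (f : List Bool → M) :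
    ∑ q ∈ lgl 1, f q = f [true, true] + (f [true, false] + f [false, true]) := by
  classical
  have h : lgl 1 = {[true, true], [true, false], [false, true]} := by
    ext l
    rw [mem_lgl]
    constructor
    · rintro ⟨h1, h2⟩
      obtain ⟨a, b, rfl⟩ := locops_cases_len2 h1
      cases a <;> cases b <;> simp [legal] at h2 ⊢
    · intro h1
      simp only [Finset.mem_insert, Finset.mem_singleton] at h1
      rcases h1 with rfl | rfl | rfl <;> simp [legal]
  rw [h, Finset.sum_insert (by simp), Finset.sum_insert (by simp), Finset.sum_singleton]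

lemma locops_sum2 {M : Type} [AddCommMonoid M] (f : List Bool → M) :
    ∑ q ∈ lgl 2, f q = f [true, true, true] + (f [true, true, false] + (f [true, false, true] +
      (f [false, true, true] + f [false, true, false]))) := by
  classical
  have h : lgl 2 = {[true, true, true], [true, true, false], [true, false, true],
      [false, true, true], [false, true, false]} := by
    ext l
    rw [mem_lgl]
    constructor
    · rintro ⟨h1, h2⟩
      obtain ⟨a, b, c, rfl⟩ := locops_cases_len3 h1
      cases a <;> cases b <;> cases c <;> simp [legal] at h2 ⊢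
    · intro h1
      simp only [Finset.mem_insert, Finset.mem_singleton] at h1
      rcases h1 with rfl | rfl | rfl | rfl | rfl <;> simp [legal]
  rw [h, Finset.sum_insert (by simp), Finset.sum_insert (by simp), Finset.sum_insert (by simp),
    Finset.sum_insert (by simp), Finset.sum_singleton]

/-- A criterion for locality. -/
lemma Loc.of_kernel {n n' : ℕ} (T : Fn R →ₗ[R] Fn R) (K : List Bool → List Bool → R)
    (hK : ∀ p q, K p q ≠ 0 → p ∈ lgl n' ∧ q ∈ lgl n ∧ p.head? = q.head? ∧
      p.getLast? = q.getLast?)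
    (h0 : ∀ ψ l, l.length < n' + 1 → T ψ l = 0)
    (h1 : ∀ k ψ, PSupp (n + k) ψ → ∀ p r, p.length = n' + 1 →
      T ψ (p ++ r) = ∑ q ∈ lgl n, K p q * ψ (q ++ r)) : Loc n n' T := by
  refine ⟨K, hK, fun k ψ hψ => ⟨?_, fun p r hp _ => h1 k ψ hψ p r hp⟩⟩
  intro l hl
  by_cases hlen : l.length < n' + 1
  · exact absurd (h0 ψ l hlen) hl
  obtain ⟨p, r, rfl, hp⟩ := split_list l (n' + 1) (by omega)
  rw [h1 k ψ hψ p r hp] at hl
  obtain ⟨q, hq, hne⟩ := Finset.exists_ne_zero_of_sum_ne_zero hl
  obtain ⟨a1, a2, a3, a4⟩ := hK _ _ (left_ne_zero_of_mul hne)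
  obtain ⟨h5, h6⟩ := hψ _ (right_ne_zero_of_mul hne)
  rw [List.length_append, (mem_lgl.1 hq).1] at h5
  refine ⟨by rw [List.length_append]; omega, ?_⟩
  obtain ⟨x, v, rfl, hx⟩ := loc_snoc hp
  rw [List.getLast?_concat] at a4
  exact loc_legal_replace a4.symm (List.getLast?_concat ..) h6 (mem_lgl.1 a1).2

/-- Kernel of the cup. -/
def kCup (d : R) : List Bool → List Bool → R
  | [a, b, c], [x] => if c = a ∧ x = a ∧ (a || b) = true then wt d b else 0
  | _, _ => 0

/-- Kernel of the cap. -/
def kCap (d : R) : List Bool → List Bool → R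
  | [a], [x, y, z] => if x = a ∧ z = a ∧ (a || y) = true then wti d a else 0
  | _, _ => 0

/-- Kernel of the crossing. -/
def kCross (A : R) (p : Bool) : List Bool → List Bool → R
  | [a, b, c], [x, y, z] => if (x = a ∧ z = c) ∧ ((a || b) = true ∧ (b || c) = true) ∧
      ((x || y) = true ∧ (y || z) = true) then
      (if y = b then ca A p else 0) +
        (if c = a then cb A p * (wt (dd A) b * wti (dd A) a) else 0) else 0
  | _, _ => 0

/-- Kernel of the split. -/
def kSplit (A : R) : List Bool → List Bool → R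
  | [a, b, c], [x, z] => if x = a ∧ z = c then (if (a && c) = true then (if b then -1 else 1) else
      if ((a || c) && b) = true then dd A else 0) else 0
  | _, _ => 0

/-- Kernel of the merge. -/
def kMerge (A : R) : List Bool → List Bool → R
  | [a, c], [x, y, z] => if x = a ∧ z = c then (if (a && c) = true then
      (if y then 1 - dd A else 1) else if ((a || c) && y) = true then 1 else 0) else 0
  | _, _ => 0

theorem loc_cupL (A : R) : Loc 0 2 (cupL A) := by
  refine Loc.of_kernel _ (kCup (dd A)) ?_ ?_ ?_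
  · intro p q h
    rcases p with _ | ⟨a, _ | ⟨b, _ | ⟨c, _ | ⟨e, p⟩⟩⟩⟩ <;>
      rcases q with _ | ⟨x, _ | ⟨y, q⟩⟩ <;> simp only [kCup, ne_eq, not_true_eq_false] at h
    split_ifs at h with hc
    · obtain ⟨rfl, rfl, h3⟩ := hc
      simp only [mem_lgl, legal]
      rw [Bool.or_eq_true] at h3
      simp
      tauto
    · exact absurd rfl h
  · intro ψ l hl
    rcases l with _ | ⟨a, _ | ⟨b, _ | ⟨c, l⟩⟩⟩
    · rfl
    · rfl
    · rfl
    · simp at hl; omega
  · intro k ψ _ p r hp
    obtain ⟨a, b, c, rfl⟩ := locops_cases_len3 hp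
    rw [locops_sum0]
    cases a <;> cases b <;> cases c <;> simp [cupL, pCup0, kCup]

theorem loc_capL (A : R) : Loc 2 0 (capL A) := by
  refine Loc.of_kernel _ (kCap (dd A)) ?_ ?_ ?_
  · intro p q h
    rcases p with _ | ⟨a, _ | ⟨b, p⟩⟩ <;>
      rcases q with _ | ⟨x, _ | ⟨y, _ | ⟨z, _ | ⟨e, q⟩⟩⟩⟩ <;>
      simp only [kCap, ne_eq, not_true_eq_false] at h
    split_ifs at h with hc
    · obtain ⟨rfl, rfl, h3⟩ := hc
      simp only [mem_lgl, legal]
      rw [Bool.or_eq_true] at h3
      simp
      tauto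
    · exact absurd rfl h
  · intro ψ l hl
    rcases l with _ | ⟨a, l⟩
    · rfl
    · simp at hl
  · intro k ψ _ p r hp
    obtain ⟨a, rfl⟩ := locops_cases_len1 hp
    rw [locops_sum2]
    cases a <;> simp [capL, pCap0, kCap]
    ring

theorem loc_crossL (A : R) (p : Bool) : Loc 2 2 (crossL A p) := by
  refine Loc.of_kernel _ (kCross A p) ?_ ?_ ?_
  · intro p q h
    rcases p with _ | ⟨a, _ | ⟨b, _ | ⟨c, _ | ⟨e, p⟩⟩⟩⟩ <;>
      rcases q with _ | ⟨x, _ | ⟨y, _ | ⟨z, _ | ⟨e, q⟩⟩⟩⟩ <;>
      simp only [kCross, ne_eq, not_true_eq_false] at h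
    by_cases hc : (x = a ∧ z = c) ∧ ((a || b) = true ∧ (b || c) = true) ∧
      ((x || y) = true ∧ (y || z) = true)
    · obtain ⟨⟨rfl, rfl⟩, h3, h4⟩ := hc
      simp only [mem_lgl, legal]
      simp [h3.1, h3.2, h4.1, h4.2]
    · rw [if_neg hc] at h
      exact absurd rfl h
  · intro ψ l hl
    rcases l with _ | ⟨a, _ | ⟨b, _ | ⟨c, l⟩⟩⟩
    · rfl
    · rfl
    · rfl
    · simp at hl; omega
  · intro k ψ _ q r hq
    obtain ⟨a, b, c, rfl⟩ := locops_cases_len3 hq
    rw [locops_sum2]
    cases a <;> cases b <;> cases c <;> simp [crossL, x0, pCup0, pCap0, kCross] <;> ring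

theorem loc_splitL (A : R) : Loc 1 2 (splitL A) := by
  refine Loc.of_kernel _ (kSplit A) ?_ ?_ ?_
  · intro p q h
    rcases p with _ | ⟨a, _ | ⟨b, _ | ⟨c, _ | ⟨e, p⟩⟩⟩⟩ <;>
      rcases q with _ | ⟨x, _ | ⟨y, _ | ⟨z, q⟩⟩⟩ <;>
      simp only [kSplit, ne_eq, not_true_eq_false] at h
    by_cases hc : x = a ∧ y = c
    · obtain ⟨rfl, rfl⟩ := hc
      simp only [mem_lgl, legal]
      cases x <;> cases b <;> cases y <;> simp at h ⊢
    · rw [if_neg hc] at h
      exact absurd rfl h
  · intro ψ l hl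
    rcases l with _ | ⟨a, _ | ⟨b, _ | ⟨c, l⟩⟩⟩
    · rfl
    · rfl
    · rfl
    · simp at hl; omega
  · intro k ψ _ p r hp
    obtain ⟨a, b, c, rfl⟩ := locops_cases_len3 hp
    rw [locops_sum1]
    cases a <;> cases b <;> cases c <;> simp [splitL, s0, kSplit]

theorem loc_mergeL (A : R) : Loc 2 1 (mergeL A) := by
  refine Loc.of_kernel _ (kMerge A) ?_ ?_ ?_
  · intro p q h
    rcases p with _ | ⟨a, _ | ⟨c, _ | ⟨e, p⟩⟩⟩ <;>
      rcases q with _ | ⟨x, _ | ⟨y, _ | ⟨z, _ | ⟨e, q⟩⟩⟩⟩ <;>
      simp only [kMerge, ne_eq, not_true_eq_false] at h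
    by_cases hc : x = a ∧ z = c
    · obtain ⟨rfl, rfl⟩ := hc
      simp only [mem_lgl, legal]
      cases x <;> cases y <;> cases z <;> simp at h ⊢
    · rw [if_neg hc] at h
      exact absurd rfl h
  · intro ψ l hl
    rcases l with _ | ⟨a, _ | ⟨c, l⟩⟩
    · rfl
    · rfl
    · simp at hl
  · intro k ψ _ p r hp
    obtain ⟨a, c, rfl⟩ := locops_cases_len2 hp
    rw [locops_sum2]
    cases a <;> cases c <;> simp [mergeL, m0, kMerge]

lemma loc_at {n n' : ℕ} {T : Fn R →ₗ[R] Fn R} (hT : Loc n n' T) {i N N' : ℕ}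
    (h : i + n ≤ N) (h' : N + n' = N' + n) : Loc N N' (liftM i T) := by
  have := (hT.lift i).ext (N - (i + n))
  have e1 : i + n + (N - (i + n)) = N := by omega
  have e2 : i + n' + (N - (i + n)) = N' := by omega
  rwa [e1, e2] at this

theorem loc_run (A : R) (w : List Slice) (n n' : ℕ) (h : Ok w n n') : Loc n n' (run A w) := by
  induction w generalizing n with
  | nil =>
    have : n = n' := h
    subst this
    exact Loc.id n
  | cons s w ih =>
    cases s with
    | cup i u => exact (ih _ h.2).comp (loc_at (loc_cupL A) (by have := h.1; omega) (by omega))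
    | cap i =>
      have h1 := h.1
      exact (ih _ h.2).comp (loc_at (loc_capL A) (by omega) (by omega))
    | cross i p =>
      have h1 := h.1
      exact (ih _ h.2).comp (loc_at (loc_crossL A p) (by omega) (by omega))

theorem run_append (A : R) (w w' : List Slice) : run A (w ++ w') = run A w' ∘ₗ run A w := by
  induction w with
  | nil => rfl
  | cons s w ih =>
    rw [List.cons_append, run, ih, run, LinearMap.comp_assoc]

end Pool.Agent.Helper77.Sat
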