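import Pool.Agent.Helper77.Sat.Defs

/-!
# Module L: local operators
-/

namespace Pool.Agent.Helper77.Sat

open Pool.Agent.Helper2

variable {R : Type} [CommRing R]

/-! ### Auxiliary facts on lists -/

lemma loc_legal_left (p r : List Bool) (h : legal (p ++ r)) : legal p := by
  induction p with
  | nil => simp [legal]
  | cons x p ih =>
    cases p with
    | nil => simp [legal]
    | cons y p => exact ⟨h.1, ih h.2⟩

/-- legality of a concatenation, in terms of the last entry of the first list -/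
lemma loc_legal_append_of (p : List Bool) (v : Bool) (r : List Bool) (h1 : legal (p ++ [v]))
    (h2 : legal (v :: r)) : legal (p ++ v :: r) := (legal_append p v r).2 ⟨h1, h2⟩

lemma loc_snoc {n : ℕ} {l : List Bool} (h : l.length = n + 1) :
    ∃ q v, l = q ++ [v] ∧ q.length = n := by
  obtain ⟨p, r, rfl, hp⟩ := split_list l n (by omega)
  rw [List.length_append] at h
  obtain ⟨v, rfl⟩ : ∃ v, r = [v] := List.length_eq_one_iff.1 (by omega)
  exact ⟨p, v, rfl, hp⟩

lemma loc_cons {n : ℕ} {l : List Bool} (h : l.length = n + 1) :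
    ∃ v q, l = v :: q ∧ q.length = n := by
  rcases l with _ | ⟨v, q⟩
  · simp at h
  · exact ⟨v, q, rfl, by simpa using h⟩

lemma loc_psupp_append {n i : ℕ} {ψ : Fn R} (h : PSupp (i + n) ψ) (p : List Bool)
    (hp : p.length = i) : PSupp n (fun l => ψ (p ++ l)) := by
  intro l hl
  have h1 := h _ hl
  refine ⟨?_, legal_right _ _ h1.2⟩
  have := h1.1
  rw [List.length_append] at this
  omega

lemma loc_psupp_single {n : ℕ} {p : List Bool} (hp : p ∈ lgl n) :
    PSupp n (Pi.single p 1 : Fn R) := by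
  intro l hl
  by_cases h : l = p
  · subst h
    exact mem_lgl.1 hp
  · exact absurd (Pi.single_eq_of_ne (M := fun _ : List Bool => R) h 1) hl

lemma loc_legal_replace {p q r : List Bool} {v : Bool} (hp : p.getLast? = some v)
    (hq : q.getLast? = some v) (h : legal (p ++ r)) (hq' : legal q) : legal (q ++ r) := by
  obtain ⟨p', rfl⟩ := List.getLast?_eq_some_iff.1 hp
  obtain ⟨q', rfl⟩ := List.getLast?_eq_some_iff.1 hq
  rw [List.append_assoc] at h ⊢
  exact loc_legal_append_of _ _ _ hq' (legal_right _ _ h)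

lemma loc_legal_replace' {p r s : List Bool} {v : Bool} (hr : r.head? = some v)
    (hs : s.head? = some v) (h : legal (p ++ r)) (hs' : legal s) : legal (p ++ s) := by
  rcases r with _ | ⟨a, r⟩
  · simp at hr
  rcases s with _ | ⟨b, s⟩
  · simp at hs
  simp only [List.head?_cons, Option.some.injEq] at hr hs
  subst hr
  subst hs
  rw [legal_append] at h ⊢
  exact ⟨h.1, hs'⟩

/-! ### Lifts -/

theorem liftM_comp (i : ℕ) (T S : Fn R →ₗ[R] Fn R) :
    liftM i (T ∘ₗ S) = liftM i T ∘ₗ liftM i S := by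
  refine LinearMap.ext fun ψ => ?_
  exact lift_comp T S i ψ

theorem liftM_liftM (i j : ℕ) (T : Fn R →ₗ[R] Fn R) : liftM j (liftM i T) = liftM (i + j) T := by
  refine LinearMap.ext fun ψ => ?_
  exact (lift_add T i j ψ).symm

theorem liftM_zero (T : Fn R →ₗ[R] Fn R) : liftM 0 T = T := by
  refine LinearMap.ext fun ψ => ?_
  exact lift_zero' T ψ

lemma liftM_of_append (T : Fn R →ₗ[R] Fn R) {i : ℕ} (p r : List Bool) (hp : p.length = i)
    (ψ : Fn R) : liftM i T ψ (p ++ r) = T (fun l => ψ (p ++ l)) r := by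
  subst hp
  exact lift_append T p ψ r

lemma liftM_of_short (T : Fn R →ₗ[R] Fn R) {i : ℕ} (l : List Bool) (hl : l.length < i)
    (ψ : Fn R) : liftM i T ψ l = 0 := lift_short T i ψ l hl

theorem liftM_add' (i : ℕ) (T S : Fn R →ₗ[R] Fn R) : liftM i (T + S) = liftM i T + liftM i S := by
  refine LinearMap.ext fun ψ => funext fun l => ?_
  rw [LinearMap.add_apply, Pi.add_apply]
  by_cases h : l.length < i
  · rw [liftM_of_short _ _ h, liftM_of_short _ _ h, liftM_of_short _ _ h, add_zero]
  · obtain ⟨p, r, rfl, hp⟩ := split_list l i (by omega)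
    rw [liftM_of_append _ _ _ hp, liftM_of_append _ _ _ hp, liftM_of_append _ _ _ hp]
    rfl

theorem liftM_smul' (i : ℕ) (c : R) (T : Fn R →ₗ[R] Fn R) : liftM i (c • T) = c • liftM i T := by
  refine LinearMap.ext fun ψ => funext fun l => ?_
  rw [LinearMap.smul_apply, Pi.smul_apply]
  by_cases h : l.length < i
  · rw [liftM_of_short _ _ h, liftM_of_short _ _ h, smul_zero]
  · obtain ⟨p, r, rfl, hp⟩ := split_list l i (by omega)
    rw [liftM_of_append _ _ _ hp, liftM_of_append _ _ _ hp]
    rfl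

/-- an identity between operators can be lifted -/
theorem liftM_congr {n i : ℕ} {S T : Fn R →ₗ[R] Fn R} (h : ∀ ψ, PSupp n ψ → S ψ = T ψ)
    (ψ : Fn R) (hψ : PSupp (i + n) ψ) : liftM i S ψ = liftM i T ψ := by
  funext l
  by_cases hl : l.length < i
  · rw [liftM_of_short _ _ hl, liftM_of_short _ _ hl]
  · obtain ⟨p, r, rfl, hp⟩ := split_list l i (by omega)
    rw [liftM_of_append _ _ _ hp, liftM_of_append _ _ _ hp,
      h _ (loc_psupp_append hψ p hp)]

theorem liftM_id {n i : ℕ} (hi : i ≤ n) (ψ : Fn R) (hψ : PSupp n ψ) :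
    liftM i LinearMap.id ψ = ψ := by
  funext l
  by_cases hl : l.length < i
  · rw [liftM_of_short _ _ hl]
    by_contra hne
    have := (hψ l (Ne.symm hne)).1
    omega
  · obtain ⟨p, r, rfl, hp⟩ := split_list l i (by omega)
    rw [liftM_of_append _ _ _ hp]
    rfl

/-! ### Local operators -/

theorem Loc.id (n : ℕ) : Loc n n (LinearMap.id : Fn R →ₗ[R] Fn R) := by
  classical
  refine ⟨fun p q => if p = q ∧ p ∈ lgl n then 1 else 0, ?_, ?_⟩
  · intro p q h
    simp only [ne_eq, ite_eq_right_iff, Classical.not_imp] at h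
    obtain ⟨⟨rfl, hp⟩, -⟩ := h
    exact ⟨hp, hp, rfl, rfl⟩
  · intro k ψ hψ
    refine ⟨hψ, fun p r hp hr => ?_⟩
    rw [LinearMap.id_apply]
    by_cases hleg : p ∈ lgl n
    · rw [Finset.sum_eq_single p]
      · simp [hleg]
      · intro q _ hq
        beta_reduce
        rw [if_neg (fun h => hq h.1.symm), zero_mul]
      · intro h
        exact absurd hleg h
    · rw [Finset.sum_eq_zero]
      · by_contra hne
        exact hleg (mem_lgl.2 ⟨hp, loc_legal_left _ _ (hψ _ hne).2⟩)
      · intro q _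
        beta_reduce
        rw [if_neg (fun h => hleg h.2), zero_mul]

theorem Loc.comp {n n' n'' : ℕ} {S T : Fn R →ₗ[R] Fn R} (hT : Loc n' n'' T) (hS : Loc n n' S) :
    Loc n n'' (T ∘ₗ S) := by
  obtain ⟨K, hK, HK⟩ := hT
  obtain ⟨L, hL, HL⟩ := hS
  refine ⟨fun p q => ∑ m ∈ lgl n', K p m * L m q, ?_, ?_⟩
  · intro p q h
    obtain ⟨m, hm, hne⟩ := Finset.exists_ne_zero_of_sum_ne_zero h
    obtain ⟨a1, a2, a3, a4⟩ := hK p m (left_ne_zero_of_mul hne)
    obtain ⟨b1, b2, b3, b4⟩ := hL m q (right_ne_zero_of_mul hne)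
    exact ⟨a1, b2, a3.trans b3, a4.trans b4⟩
  · intro k ψ hψ
    obtain ⟨h1, h2⟩ := HL k ψ hψ
    obtain ⟨h3, h4⟩ := HK k (S ψ) h1
    refine ⟨h3, fun p r hp hr => ?_⟩
    rw [LinearMap.comp_apply, h4 p r hp hr]
    have : ∀ m ∈ lgl n', K p m * S ψ (m ++ r) = ∑ q ∈ lgl n, K p m * L m q * ψ (q ++ r) := by
      intro m hm
      rw [h2 m r (mem_lgl.1 hm).1 hr, Finset.mul_sum]
      refine Finset.sum_congr rfl fun q _ => ?_
      rw [mul_assoc]
    rw [Finset.sum_congr rfl this, Finset.sum_comm]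
    refine Finset.sum_congr rfl fun q _ => ?_
    rw [Finset.sum_mul]

theorem Loc.add {n n' : ℕ} {S T : Fn R →ₗ[R] Fn R} (hT : Loc n n' T) (hS : Loc n n' S) :
    Loc n n' (T + S) := by
  obtain ⟨K, hK, HK⟩ := hT
  obtain ⟨L, hL, HL⟩ := hS
  refine ⟨fun p q => K p q + L p q, ?_, ?_⟩
  · intro p q h
    by_cases h0 : K p q = 0
    · exact hL p q (fun h1 => h (by beta_reduce; rw [h0, h1, add_zero]))
    · exact hK p q h0
  · intro k ψ hψ
    obtain ⟨h1, h2⟩ := HL k ψ hψ
    obtain ⟨h3, h4⟩ := HK k ψ hψ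
    refine ⟨?_, fun p r hp hr => ?_⟩
    · intro l hl
      by_cases h0 : T ψ l = 0
      · exact h1 l (fun h5 => hl (by
          rw [LinearMap.add_apply, Pi.add_apply, h0, h5, add_zero]))
      · exact h3 l h0
    · rw [LinearMap.add_apply, Pi.add_apply, h2 p r hp hr, h4 p r hp hr,
        ← Finset.sum_add_distrib]
      refine Finset.sum_congr rfl fun q _ => ?_
      rw [add_mul]

theorem Loc.smul {n n' : ℕ} {T : Fn R →ₗ[R] Fn R} (c : R) (hT : Loc n n' T) :
    Loc n n' (c • T) := by
  obtain ⟨K, hK, HK⟩ := hT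
  refine ⟨fun p q => c * K p q, ?_, ?_⟩
  · intro p q h
    exact hK p q (right_ne_zero_of_mul h)
  · intro k ψ hψ
    obtain ⟨h3, h4⟩ := HK k ψ hψ
    refine ⟨?_, fun p r hp hr => ?_⟩
    · intro l hl
      rw [LinearMap.smul_apply, Pi.smul_apply, smul_eq_mul] at hl
      exact h3 l (right_ne_zero_of_mul hl)
    · rw [LinearMap.smul_apply, Pi.smul_apply, h4 p r hp hr, smul_eq_mul, Finset.mul_sum]
      refine Finset.sum_congr rfl fun q _ => ?_
      rw [mul_assoc]

theorem Loc.ext {n n' : ℕ} {T : Fn R →ₗ[R] Fn R} (hT : Loc n n' T) (k : ℕ) :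
    Loc (n + k) (n' + k) T := by
  classical
  obtain ⟨K, hK, HK⟩ := hT
  refine ⟨fun p q => if p ∈ lgl (n' + k) ∧ q ∈ lgl (n + k) ∧ p.drop (n' + 1) = q.drop (n + 1)
    then K (p.take (n' + 1)) (q.take (n + 1)) else 0, ?_, ?_⟩
  · intro p q h
    beta_reduce at h
    split_ifs at h with hc
    · obtain ⟨hp, hq, hd⟩ := hc
      obtain ⟨a1, a2, a3, a4⟩ := hK _ _ h
      have hp1 := (mem_lgl.1 hp).1
      have hq1 := (mem_lgl.1 hq).1
      refine ⟨hp, hq, ?_, ?_⟩
      · rcases p with _ | ⟨x, p⟩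
        · simp at hp1
        rcases q with _ | ⟨y, q⟩
        · simp at hq1
        simpa using a3
      · rw [← List.take_append_drop (n' + 1) p, ← List.take_append_drop (n + 1) q,
          List.getLast?_append, List.getLast?_append, hd, a4]
    · exact absurd rfl h
  · intro k' ψ hψ
    rw [Nat.add_assoc] at hψ
    obtain ⟨h3, h4⟩ := HK (k + k') ψ hψ
    rw [← Nat.add_assoc] at h3
    refine ⟨h3, fun p r hp hr => ?_⟩
    by_cases hleg : p ∈ lgl (n' + k)
    · obtain ⟨p1, p2, rfl, hp1⟩ := split_list p (n' + 1) (by omega)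
      have hp2 : p2.length = k := by
        rw [List.length_append] at hp
        omega
      rw [List.append_assoc, h4 p1 (p2 ++ r) hp1 (by rw [List.length_append]; omega)]
      have e1 : (p1 ++ p2).drop (n' + 1) = p2 := by
        rw [← hp1, List.drop_left]
      have e2 : (p1 ++ p2).take (n' + 1) = p1 := by
        rw [← hp1, List.take_left]
      beta_reduce
      rw [e1, e2]
      -- restrict to the nonzero terms
      have key : ∀ q ∈ lgl n, K p1 q ≠ 0 → q ++ p2 ∈ lgl (n + k) := by
        intro q hq hne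
        obtain ⟨a1, a2, a3, a4⟩ := hK _ _ hne
        obtain ⟨x, v, rfl, hx⟩ := loc_snoc hp1
        rw [List.getLast?_concat] at a4
        refine mem_lgl.2 ⟨?_, ?_⟩
        · rw [List.length_append, (mem_lgl.1 hq).1, hp2]
          omega
        · exact loc_legal_replace (List.getLast?_concat ..) a4.symm (mem_lgl.1 hleg).2
            (mem_lgl.1 hq).2
      have hinj : ∀ q : List Bool, q.length = n + 1 →
          (q ++ p2).take (n + 1) = q ∧ (q ++ p2).drop (n + 1) = p2 := by
        intro q hq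
        rw [← hq, List.take_left, List.drop_left]
        exact ⟨rfl, rfl⟩
      symm
      rw [← Finset.sum_subset (s₁ := ((lgl n).filter fun q => K p1 q ≠ 0).image (· ++ p2))]
      · rw [Finset.sum_image]
        · rw [Finset.sum_filter]
          refine Finset.sum_congr rfl fun q hq => ?_
          have hq1 := (mem_lgl.1 hq).1
          split_ifs with h1 h2
          · rw [(hinj q hq1).1, List.append_assoc]
          · exact absurd ⟨hleg, key q hq h1, (hinj q hq1).2.symm⟩ h2
          · push Not at h1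
            rw [h1, zero_mul]
        · intro q hq q' hq' h
          simp only [Finset.coe_filter, Set.mem_ofPred_eq] at hq hq'
          have := congrArg (List.take (n + 1)) h
          simp only at this
          rwa [(hinj q (mem_lgl.1 hq.1).1).1, (hinj q' (mem_lgl.1 hq'.1).1).1] at this
      · intro q hq
        obtain ⟨q', hq', rfl⟩ := Finset.mem_image.1 hq
        rw [Finset.mem_filter] at hq'
        exact key q' hq'.1 hq'.2
      · intro q hq hnot
        split_ifs with hc
        · have hq1 := (mem_lgl.1 hq).1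
          have : K p1 (q.take (n + 1)) = 0 := by
            by_contra hne
            apply hnot
            refine Finset.mem_image.2 ⟨q.take (n + 1), ?_, ?_⟩
            · rw [Finset.mem_filter]
              exact ⟨(hK _ _ hne).2.1, hne⟩
            · rw [hc.2.2, List.take_append_drop]
          rw [this, zero_mul]
        · rw [zero_mul]
    · rw [Finset.sum_eq_zero]
      · by_contra hne
        exact hleg (mem_lgl.2 ⟨hp, loc_legal_left _ _ (h3 _ hne).2⟩)
      · intro q _
        beta_reduce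
        rw [if_neg (fun h => hleg h.1), zero_mul]

theorem Loc.lift {n n' : ℕ} {T : Fn R →ₗ[R] Fn R} (hT : Loc n n' T) (i : ℕ) :
    Loc (i + n) (i + n') (liftM i T) := by
  classical
  obtain ⟨K, hK, HK⟩ := hT
  have supp : ∀ k ψ, PSupp (i + n + k) ψ → PSupp (i + n' + k) (liftM i T ψ) := by
    intro k ψ hψ l hl
    by_cases hlen : l.length < i
    · exact absurd (liftM_of_short _ _ hlen _) hl
    obtain ⟨p, r, rfl, hp⟩ := split_list l i (by omega)
    rw [liftM_of_append _ _ _ hp] at hl
    rw [Nat.add_assoc] at hψ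
    obtain ⟨h1, h2⟩ := HK k _ (loc_psupp_append hψ p hp)
    obtain ⟨h3, h4⟩ := h1 r hl
    refine ⟨by rw [List.length_append]; omega, ?_⟩
    obtain ⟨r1, r2, rfl, hr1⟩ := split_list r (n' + 1) (by omega)
    have hr2 : r2.length = k := by
      rw [List.length_append] at h3
      omega
    rw [h2 r1 r2 hr1 hr2] at hl
    obtain ⟨q, hq, hne⟩ := Finset.exists_ne_zero_of_sum_ne_zero hl
    obtain ⟨a1, a2, a3, a4⟩ := hK _ _ (left_ne_zero_of_mul hne)
    have h5 := (hψ _ (right_ne_zero_of_mul hne)).2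
    obtain ⟨v, x, rfl, hx⟩ := loc_cons hr1
    obtain ⟨v', x', rfl, hx'⟩ := loc_cons (mem_lgl.1 hq).1
    exact loc_legal_replace' (v := v') rfl (by simpa using a3) h5 h4
  refine ⟨fun p q => if p ∈ lgl (i + n') ∧ q ∈ lgl (i + n) ∧ p.take i = q.take i
    then K (p.drop i) (q.drop i) else 0, ?_, ?_⟩
  · intro p q h
    beta_reduce at h
    split_ifs at h with hc
    · obtain ⟨hp, hq, hd⟩ := hc
      obtain ⟨a1, a2, a3, a4⟩ := hK _ _ h
      have hp1 := (mem_lgl.1 a1).1
      have hq1 := (mem_lgl.1 a2).1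
      refine ⟨hp, hq, ?_, ?_⟩
      · rw [← List.take_append_drop i p, ← List.take_append_drop i q, hd]
        rw [List.head?_append, List.head?_append, a3]
      · rw [← List.take_append_drop i p, ← List.take_append_drop i q, hd]
        rw [List.getLast?_append, List.getLast?_append, a4]
    · exact absurd rfl h
  · intro k ψ hψ
    refine ⟨supp k ψ hψ, fun p r hp hr => ?_⟩
    by_cases hleg : p ∈ lgl (i + n')
    · obtain ⟨p1, p2, rfl, hp1⟩ := split_list p i (by omega)
      have hp2 : p2.length = n' + 1 := by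
        rw [List.length_append] at hp
        omega
      have hψ' := hψ
      rw [Nat.add_assoc] at hψ'
      obtain ⟨h3, h4⟩ := HK k _ (loc_psupp_append hψ' p1 hp1)
      rw [List.append_assoc, liftM_of_append _ _ _ hp1, h4 p2 r hp2 hr]
      have e1 : (p1 ++ p2).drop i = p2 := by
        rw [← hp1, List.drop_left]
      have e2 : (p1 ++ p2).take i = p1 := by
        rw [← hp1, List.take_left]
      beta_reduce
      rw [e1, e2]
      have key : ∀ q ∈ lgl n, K p2 q ≠ 0 → p1 ++ q ∈ lgl (i + n) := by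
        intro q hq hne
        obtain ⟨a1, a2, a3, a4⟩ := hK _ _ hne
        obtain ⟨v, x, rfl, hx⟩ := loc_cons hp2
        refine mem_lgl.2 ⟨?_, ?_⟩
        · rw [List.length_append, (mem_lgl.1 hq).1, hp1]
          omega
        · exact loc_legal_replace' (v := v) rfl (by rw [← a3]; rfl) (mem_lgl.1 hleg).2
            (mem_lgl.1 hq).2
      have hinj : ∀ q : List Bool, (p1 ++ q).drop i = q ∧ (p1 ++ q).take i = p1 := by
        intro q
        rw [← hp1, List.take_left, List.drop_left]
        exact ⟨rfl, rfl⟩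
      symm
      rw [← Finset.sum_subset (s₁ := ((lgl n).filter fun q => K p2 q ≠ 0).image (p1 ++ ·))]
      · rw [Finset.sum_image]
        · rw [Finset.sum_filter]
          refine Finset.sum_congr rfl fun q hq => ?_
          split_ifs with h1 h2
          · rw [(hinj q).1, List.append_assoc]
          · exact absurd ⟨hleg, key q hq h1, (hinj q).2.symm⟩ h2
          · push Not at h1
            rw [h1, zero_mul]
        · intro q hq q' hq' h
          exact List.append_cancel_left h
      · intro q hq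
        obtain ⟨q', hq', rfl⟩ := Finset.mem_image.1 hq
        rw [Finset.mem_filter] at hq'
        exact key q' hq'.1 hq'.2
      · intro q hq hnot
        split_ifs with hc
        · have : K p2 (q.drop i) = 0 := by
            by_contra hne
            apply hnot
            refine Finset.mem_image.2 ⟨q.drop i, ?_, ?_⟩
            · rw [Finset.mem_filter]
              exact ⟨(hK _ _ hne).2.1, hne⟩
            · rw [hc.2.2, List.take_append_drop]
          rw [this, zero_mul]
        · rw [zero_mul]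
    · rw [Finset.sum_eq_zero]
      · by_contra hne
        exact hleg (mem_lgl.2 ⟨hp, loc_legal_left _ _ (supp k ψ hψ _ hne).2⟩)
      · intro q _
        beta_reduce
        rw [if_neg (fun h => hleg h.1), zero_mul]

theorem Loc.supp {n n' : ℕ} {T : Fn R →ₗ[R] Fn R} (hT : Loc n n' T) {N : ℕ} {ψ : Fn R} (k : ℕ)
    (hN : N = n + k) (hψ : PSupp N ψ) : PSupp (n' + k) (T ψ) := by
  subst hN
  obtain ⟨K, hK, HK⟩ := hT
  exact (HK k ψ hψ).1

/-- operators on different strands commute -/
theorem interchange {n n' s s' : ℕ} {S T : Fn R →ₗ[R] Fn R} (hT : Loc n n' T) (hS : Loc s s' S)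
    (k : ℕ) (ψ : Fn R) (hψ : PSupp (n + s + k) ψ) :
    T (liftM n S ψ) = liftM n' S (T ψ) := by
  have hψ1 : PSupp (n + s' + k) (liftM n S ψ) := (hS.lift n).supp k rfl hψ
  have hψ2 : PSupp (n' + s' + k) (T (liftM n S ψ)) := by
    have := hT.supp (s' + k) (by ring) hψ1
    rwa [← Nat.add_assoc] at this
  have hψ3 : PSupp (n' + (s + k)) (T ψ) := hT.supp (s + k) (by ring) hψ
  have hψ4 : PSupp (n' + s' + k) (liftM n' S (T ψ)) :=
    (hS.lift n').supp k (by ring) hψ3
  refine PSupp.ext hψ2 hψ4 fun l hl hleg => ?_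
  obtain ⟨K, hK, HK⟩ := hT
  obtain ⟨L, hL, HL⟩ := hS
  obtain ⟨p0, r, rfl, hp0⟩ := split_list l n' (by omega)
  rw [List.length_append] at hl
  obtain ⟨v, r', rfl, hr'⟩ := loc_cons (n := s' + k) (l := r) (by omega)
  obtain ⟨r1, r2, rfl, hr1⟩ := split_list r' s' (by omega)
  have hr2 : r2.length = k := by
    rw [List.length_append] at hr'
    omega
  -- the left side
  have hψ1' : PSupp (n + (s' + k)) (liftM n S ψ) := by
    rw [← Nat.add_assoc]
    exact hψ1
  have hl1 : T (liftM n S ψ) (p0 ++ v :: (r1 ++ r2)) =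
      ∑ q ∈ lgl n, K (p0 ++ [v]) q * ∑ t ∈ lgl s, L (v :: r1) t * ψ (q.take n ++ t ++ r2) := by
    have e1 : p0 ++ v :: (r1 ++ r2) = (p0 ++ [v]) ++ (r1 ++ r2) := by simp
    rw [e1, (HK (s' + k) _ hψ1').2 (p0 ++ [v]) (r1 ++ r2) (by simp [hp0])
      (by rw [List.length_append]; omega)]
    refine Finset.sum_congr rfl fun q hq => ?_
    by_cases hz : K (p0 ++ [v]) q = 0
    · rw [hz, zero_mul, zero_mul]
    congr 1
    obtain ⟨a1, a2, a3, a4⟩ := hK _ _ hz
    obtain ⟨q0, u, rfl, hq0⟩ := loc_snoc (mem_lgl.1 hq).1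
    rw [List.getLast?_concat, List.getLast?_concat, Option.some.injEq] at a4
    subst a4
    have e2 : (q0 ++ [v]).take n = q0 := by rw [← hq0, List.take_left]
    rw [e2]
    have e3 : q0 ++ [v] ++ (r1 ++ r2) = q0 ++ ((v :: r1) ++ r2) := by simp
    have hψ' : PSupp (n + (s + k)) ψ := by
      rw [← Nat.add_assoc]
      exact hψ
    rw [e3, liftM_of_append _ _ _ hq0, (HL k _ (loc_psupp_append hψ' q0 hq0)).2 (v :: r1) r2
      (by simp [hr1]) hr2]
    refine Finset.sum_congr rfl fun t _ => ?_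
    rw [List.append_assoc]
  -- the right side
  have hr : liftM n' S (T ψ) (p0 ++ v :: (r1 ++ r2)) =
      ∑ t ∈ lgl s, L (v :: r1) t * ∑ q ∈ lgl n, K (p0 ++ [v]) q * ψ (q.take n ++ t ++ r2) := by
    have e1 : v :: (r1 ++ r2) = (v :: r1) ++ r2 := by simp
    rw [liftM_of_append _ _ _ hp0, e1,
      (HL k _ (loc_psupp_append hψ3 p0 hp0)).2 (v :: r1) r2 (by simp [hr1]) hr2]
    refine Finset.sum_congr rfl fun t ht => ?_
    by_cases hz : L (v :: r1) t = 0
    · rw [hz, zero_mul, zero_mul]
    congr 1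
    obtain ⟨a1, a2, a3, a4⟩ := hL _ _ hz
    obtain ⟨u, t0, rfl, ht0⟩ := loc_cons (mem_lgl.1 ht).1
    rw [List.head?_cons, List.head?_cons, Option.some.injEq] at a3
    subst a3
    have hψ' : PSupp (n + (s + k)) ψ := by
      rw [← Nat.add_assoc]
      exact hψ
    have e2 : p0 ++ (v :: t0 ++ r2) = (p0 ++ [v]) ++ (t0 ++ r2) := by simp
    rw [e2, (HK (s + k) _ hψ').2 (p0 ++ [v]) (t0 ++ r2) (by simp [hp0])
      (by rw [List.length_append]; omega)]
    refine Finset.sum_congr rfl fun q hq => ?_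
    by_cases hz2 : K (p0 ++ [v]) q = 0
    · rw [hz2, zero_mul, zero_mul]
    congr 1
    obtain ⟨b1, b2, b3, b4⟩ := hK _ _ hz2
    obtain ⟨q0, u, rfl, hq0⟩ := loc_snoc (mem_lgl.1 hq).1
    rw [List.getLast?_concat, List.getLast?_concat, Option.some.injEq] at b4
    subst b4
    have e3 : (q0 ++ [v]).take n = q0 := by rw [← hq0, List.take_left]
    rw [e3]
    simp
  rw [hl1, hr]
  simp only [Finset.mul_sum]
  rw [Finset.sum_comm]
  refine Finset.sum_congr rfl fun t _ => Finset.sum_congr rfl fun q _ => ?_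
  ring

/-! ### Traces -/

lemma loc_kernel {n n' : ℕ} {T : Fn R →ₗ[R] Fn R} {K : List Bool → List Bool → R}
    (HK : ∀ k ψ, PSupp (n + k) ψ → PSupp (n' + k) (T ψ) ∧
      ∀ p r, p.length = n' + 1 → r.length = k → T ψ (p ++ r) = ∑ q ∈ lgl n, K p q * ψ (q ++ r))
    {p q : List Bool} (hp : p.length = n' + 1) (hq : q ∈ lgl n) :
    T (Pi.single q 1) p = K p q := by
  classical
  have h := (HK 0 (Pi.single q 1) (loc_psupp_single hq)).2 p [] hp rfl
  rw [List.append_nil] at h
  rw [h, Finset.sum_eq_single q]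
  · rw [List.append_nil, Pi.single_eq_same, mul_one]
  · intro q' _ hne
    rw [List.append_nil, Pi.single_eq_of_ne hne, mul_zero]
  · intro h
    exact absurd hq h

/-- traces are cyclic -/
theorem trw_cyc {g : List Bool → R}
    (hg : ∀ p q : List Bool, p.head? = q.head? → p.getLast? = q.getLast? → g p = g q)
    {n n' : ℕ} {S T : Fn R →ₗ[R] Fn R} (hS : Loc n n' S) (hT : Loc n' n T) :
    trw g n' (S ∘ₗ T) = trw g n (T ∘ₗ S) := by
  obtain ⟨K, hK, HK⟩ := hS
  obtain ⟨L, hL, HL⟩ := hT
  have e1 : trw g n' (S ∘ₗ T) = ∑ p ∈ lgl n', ∑ q ∈ lgl n, g p * (K p q * L q p) := by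
    refine Finset.sum_congr rfl fun p hp => ?_
    rw [LinearMap.comp_apply, ← Finset.mul_sum]
    congr 1
    have h := (HK 0 (T (Pi.single p 1))
      ((HL 0 (Pi.single p 1) (loc_psupp_single hp)).1)).2 p [] (mem_lgl.1 hp).1 rfl
    rw [List.append_nil] at h
    rw [h]
    refine Finset.sum_congr rfl fun q hq => ?_
    rw [List.append_nil, loc_kernel HL (mem_lgl.1 hq).1 hp]
  have e2 : trw g n (T ∘ₗ S) = ∑ q ∈ lgl n, ∑ p ∈ lgl n', g q * (L q p * K p q) := by
    refine Finset.sum_congr rfl fun q hq => ?_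
    rw [LinearMap.comp_apply, ← Finset.mul_sum]
    congr 1
    have h := (HL 0 (S (Pi.single q 1))
      ((HK 0 (Pi.single q 1) (loc_psupp_single hq)).1)).2 q [] (mem_lgl.1 hq).1 rfl
    rw [List.append_nil] at h
    rw [h]
    refine Finset.sum_congr rfl fun p hp => ?_
    rw [List.append_nil, loc_kernel HK (mem_lgl.1 hp).1 hq]
  rw [e1, e2, Finset.sum_comm]
  refine Finset.sum_congr rfl fun q _ => Finset.sum_congr rfl fun p _ => ?_
  by_cases hz : K p q = 0
  · rw [hz, zero_mul, mul_zero, mul_zero, mul_zero]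
  · obtain ⟨a1, a2, a3, a4⟩ := hK _ _ hz
    rw [hg p q a3 a4]
    ring

theorem trw_congr (g : List Bool → R) {n : ℕ} {S T : Fn R →ₗ[R] Fn R}
    (h : ∀ ψ, PSupp n ψ → S ψ = T ψ) : trw g n S = trw g n T := by
  refine Finset.sum_congr rfl fun p hp => ?_
  rw [h _ (loc_psupp_single hp)]

theorem trw_add (g : List Bool → R) (n : ℕ) (S T : Fn R →ₗ[R] Fn R) :
    trw g n (S + T) = trw g n S + trw g n T := by
  unfold trw
  rw [← Finset.sum_add_distrib]
  refine Finset.sum_congr rfl fun p _ => ?_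
  rw [LinearMap.add_apply, Pi.add_apply, mul_add]

theorem trw_smul (g : List Bool → R) (n : ℕ) (c : R) (T : Fn R →ₗ[R] Fn R) :
    trw g n (c • T) = c * trw g n T := by
  unfold trw
  rw [Finset.mul_sum]
  refine Finset.sum_congr rfl fun p _ => ?_
  rw [LinearMap.smul_apply, Pi.smul_apply, smul_eq_mul]
  ring

end Pool.Agent.Helper77.Sat
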