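import Pool.Agent.Helper77.Sat.Blocks
import Pool.Agent.Helper77.Sat.Base

/-!
# Module M: the main trace formula
-/

namespace Pool.Agent.Helper77.Sat

open Pool.Agent.Helper2

variable {R : Type} [CommRing R]

lemma Loc.pres {n n' : ℕ} {T : Fn R →ₗ[R] Fn R} (hT : Loc n n' T) {ψ : Fn R}
    (hψ : PSupp n ψ) : PSupp n' (T ψ) := hT.supp 0 rfl hψ

/-! ### Abstract part -/

section abs

variable {g : List Bool → R}
  (hg : ∀ p q : List Bool, p.head? = q.head? → p.getLast? = q.getLast? → g p = g q)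
  {N m : ℕ} {B : Fn R →ₗ[R] Fn R} (hB : Loc N N B) {e : ℕ → Fn R →ₗ[R] Fn R}
  (he : ∀ j < m, Loc N N (e j)) {π : Equiv.Perm ℕ} (hπ : ∀ j < m, π j < m)
  (hs : ∀ j < m, ∀ ψ, PSupp N ψ → B (e j ψ) = e (π j) (B ψ))

include hg hB he hs in
lemma tr_step {V : Fn R →ₗ[R] Fn R} (hV : Loc N N V) {j : ℕ} (hj : j < m)
    (hcom : ∀ ψ, PSupp N ψ → V (e j ψ) = e j (V ψ)) :
    trw g N (V ∘ₗ e j ∘ₗ B) = trw g N (V ∘ₗ e (π j) ∘ₗ B) := by
  have h1 : trw g N (V ∘ₗ e j ∘ₗ B) = trw g N (e j ∘ₗ (V ∘ₗ B)) :=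
    trw_congr g fun ψ hψ => hcom _ (hB.pres hψ)
  have h2 : trw g N (e j ∘ₗ (V ∘ₗ B)) = trw g N ((V ∘ₗ B) ∘ₗ e j) :=
    trw_cyc hg (he j hj) (hV.comp hB)
  have h3 : trw g N ((V ∘ₗ B) ∘ₗ e j) = trw g N (V ∘ₗ e (π j) ∘ₗ B) :=
    trw_congr g fun ψ hψ => congrArg V (hs j hj ψ hψ)
  rw [h1, h2, h3]

include hg hB he hs in
lemma tr_step0 {V : Fn R →ₗ[R] Fn R} (hV : Loc N N V) (hm : 0 < m) :
    trw g N (e 0 ∘ₗ V ∘ₗ B) = trw g N (V ∘ₗ e (π 0) ∘ₗ B) := by
  have h2 : trw g N (e 0 ∘ₗ (V ∘ₗ B)) = trw g N ((V ∘ₗ B) ∘ₗ e 0) :=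
    trw_cyc hg (he 0 hm) (hV.comp hB)
  have h3 : trw g N ((V ∘ₗ B) ∘ₗ e 0) = trw g N (V ∘ₗ e (π 0) ∘ₗ B) :=
    trw_congr g fun ψ hψ => congrArg V (hs 0 hm ψ hψ)
  rw [h2, h3]

include hπ in
lemma pow_lt (hm : 0 < m) (r : ℕ) : (π ^ r) 0 < m := by
  induction r with
  | zero => simpa using hm
  | succ r ih =>
    rw [pow_succ', Equiv.Perm.mul_apply]
    exact hπ _ ih

include hg hB he hs hπ in
/-- inserting one more operator -/
lemma tr_insert {V : Fn R →ₗ[R] Fn R} (hV : Loc N N V) {δ : R}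
    (hcom : ∀ j < m, ∀ ψ, PSupp N ψ → V (e j ψ) = e j (V ψ))
    (hV0 : ∀ ψ, PSupp N ψ → V (e 0 ψ) = δ • V ψ) (hm : 0 < m)
    {j : ℕ} (hc : ∃ r : ℕ, (π ^ r) 0 = j) :
    trw g N (V ∘ₗ e j ∘ₗ B) = δ * trw g N (V ∘ₗ B) := by
  obtain ⟨r, rfl⟩ := hc
  have h1 : trw g N (V ∘ₗ e ((π ^ r) 0) ∘ₗ B) = trw g N (V ∘ₗ e 0 ∘ₗ B) := by
    induction r with
    | zero => rfl
    | succ r ih =>
      rw [← ih, pow_succ', Equiv.Perm.mul_apply]
      exact (tr_step hg hB he hs hV (pow_lt hπ hm r) (hcom _ (pow_lt hπ hm r))).symm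
  rw [h1, ← trw_smul]
  refine trw_congr g fun ψ hψ => ?_
  exact hV0 _ (hB.pres hψ)

include hg hB he hs hπ in
/-- moving an operator from the left to the right -/
lemma tr_swap {V : Fn R →ₗ[R] Fn R} (hV : Loc N N V)
    (hcom : ∀ j < m, j ≠ 0 → ∀ ψ, PSupp N ψ → V (e j ψ) = e j (V ψ)) (hm : 0 < m) :
    trw g N (e 0 ∘ₗ V ∘ₗ B) = trw g N (V ∘ₗ e 0 ∘ₗ B) := by
  classical
  have hex : ∃ L : ℕ, 0 < L ∧ (π ^ L) 0 = 0 := by
    obtain ⟨x, y, hxy, h⟩ : ∃ x y : ℕ, x < y ∧ (π ^ x) 0 = (π ^ y) 0 := by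
      by_contra hcon
      push Not at hcon
      have hinj : Function.Injective (fun r : ℕ => (⟨(π ^ r) 0, pow_lt hπ hm r⟩ : Fin m)) := by
        intro x y h
        simp only [Fin.mk.injEq] at h
        rcases lt_trichotomy x y with h1 | h1 | h1
        · exact absurd h (hcon x y h1)
        · exact h1
        · exact absurd h.symm (hcon y x h1)
      exact not_injective_infinite_finite _ hinj
    refine ⟨y - x, by omega, ?_⟩
    have h1 : π ^ y = π ^ x * π ^ (y - x) := by
      rw [← pow_add]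
      congr 1
      omega
    rw [h1, Equiv.Perm.mul_apply] at h
    exact ((π ^ x).injective h).symm
  set L := Nat.find hex with hL
  have hL1 := (Nat.find_spec hex).1
  have hL2 := (Nat.find_spec hex).2
  have key : ∀ r, r + 1 ≤ L → trw g N (V ∘ₗ e ((π ^ (r + 1)) 0) ∘ₗ B) =
      trw g N (e 0 ∘ₗ V ∘ₗ B) := by
    intro r
    induction r with
    | zero =>
      intro _
      rw [tr_step0 hg hB he hs hV hm, zero_add, pow_one]
    | succ r ih =>
      intro hr
      rw [← ih (by omega), pow_succ' π (r + 1), Equiv.Perm.mul_apply]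
      have hne : (π ^ (r + 1)) 0 ≠ 0 := by
        intro h
        exact Nat.find_min hex (m := r + 1) (by omega) ⟨by omega, h⟩
      exact (tr_step hg hB he hs hV (pow_lt hπ hm (r + 1)) (hcom _ (pow_lt hπ hm _) hne)).symm
  have h := key (L - 1) (by omega)
  have h2 : L - 1 + 1 = L := by omega
  rw [h2, hL2] at h
  exact h.symm

end abs

/-! ### The key identity -/

section key

variable {A : R} {s s' : ℕ} {Γ Δ : Fn R →ₗ[R] Fn R} (hΓ : Loc s s' Γ) (hΔ : Loc s' s Δ)
  {δ ε : R} (hδ : δ * ε = 1) (hdd : ∀ n ψ, PSupp (s + n) ψ → Δ (Γ ψ) = δ • ψ)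
  (sΓ : Slides A s s' Γ) (sE : Slides A s' s' (Γ ∘ₗ Δ)) (u : ℕ)

include hdd in
lemma lift_dd (n : ℕ) (ψ : Fn R) (hψ : PSupp ((u + s) + n) ψ) :
    liftM u Δ (liftM u Γ ψ) = δ • ψ := by
  have h1 : liftM u (Δ ∘ₗ Γ) ψ = liftM u (δ • LinearMap.id) ψ :=
    liftM_congr (n := s + n) (fun φ hφ => hdd n φ hφ) ψ (by rwa [← Nat.add_assoc])
  rw [liftM_comp, liftM_smul'] at h1
  have h2 : liftM u LinearMap.id ψ = ψ := liftM_id (n := (u + s) + n) (by omega) ψ hψ
  rw [LinearMap.comp_apply] at h1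
  rw [h1, LinearMap.smul_apply, h2]

include hΔ in
lemma loc_allD (m : ℕ) : Loc ((u + s') * m) ((u + s) * m) (allD Δ u (u + s) m) := by
  induction m with
  | zero =>
    show Loc _ _ (LinearMap.id : Fn R →ₗ[R] Fn R)
    exact loc_cast (Loc.id (R := R) 0) (by simp) (by simp)
  | succ m ih =>
    have h1 : Loc ((u + s) + (u + s') * m) ((u + s) + (u + s) * m)
        (liftM (u + s) (allD Δ u (u + s) m)) := ih.lift (u + s)
    have h2 : Loc ((u + s') + (u + s') * m) ((u + s) + (u + s') * m) (liftM u Δ) :=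
      (hΔ.lift u).ext ((u + s') * m)
    have h3 := h1.comp h2
    exact loc_cast h3 (by ring) (by ring)

include hΓ hdd in
lemma allD_allG : ∀ (m : ℕ) (ψ : Fn R), PSupp ((u + s) * m) ψ →
    allD Δ u (u + s) m (allG Γ u (u + s) m ψ) = δ ^ m • ψ := by
  intro m
  induction m with
  | zero => intro ψ _; simp [allD, allG]
  | succ m ih =>
    intro ψ hψ
    have hψ' : PSupp ((u + s) + (u + s) * m) ψ := psupp_cast hψ (by ring)
    have hχ : PSupp ((u + s) + (u + s') * m) (liftM (u + s) (allG Γ u (u + s) m) ψ) :=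
      ((loc_allG hΓ u m).lift (u + s)).pres hψ'
    show liftM (u + s) (allD Δ u (u + s) m) (liftM u Δ (liftM u Γ
      (liftM (u + s) (allG Γ u (u + s) m) ψ))) = _
    rw [lift_dd hdd u _ _ hχ, map_smul]
    have h1 : liftM (u + s) (allD Δ u (u + s) m ∘ₗ allG Γ u (u + s) m) ψ =
        liftM (u + s) (δ ^ m • LinearMap.id) ψ :=
      liftM_congr (n := (u + s) * m) (fun φ hφ => ih φ hφ) ψ hψ'
    rw [liftM_comp, liftM_smul', LinearMap.comp_apply, LinearMap.smul_apply,
      liftM_id (n := (u + s) + (u + s) * m) (by omega) ψ hψ'] at h1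
    rw [h1, smul_smul, pow_succ']

include hΓ hΔ in
lemma allG_allD : ∀ (m : ℕ) (ψ : Fn R), PSupp ((u + s') * m) ψ →
    allG Γ u (u + s) m (allD Δ u (u + s) m ψ) = allG (Γ ∘ₗ Δ) u (u + s') m ψ := by
  intro m
  induction m with
  | zero => intro ψ _; rfl
  | succ m ih =>
    intro ψ hψ
    have hψ' : PSupp ((u + s') + (u + s') * m) ψ := psupp_cast hψ (by ring)
    have hχ : PSupp ((u + s) + (u + s') * m) (liftM u Δ ψ) :=
      ((hΔ.lift u).ext ((u + s') * m)).pres hψ'
    show liftM u Γ (liftM (u + s) (allG Γ u (u + s) m) (liftM (u + s) (allD Δ u (u + s) m)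
      (liftM u Δ ψ))) = liftM u (Γ ∘ₗ Δ) (liftM (u + s') (allG (Γ ∘ₗ Δ) u (u + s') m) ψ)
    have h1 : liftM (u + s) (allG Γ u (u + s) m ∘ₗ allD Δ u (u + s) m) (liftM u Δ ψ) =
        liftM (u + s) (allG (Γ ∘ₗ Δ) u (u + s') m) (liftM u Δ ψ) :=
      liftM_congr (n := (u + s') * m) (fun φ hφ => ih φ hφ) _ hχ
    rw [liftM_comp, LinearMap.comp_apply] at h1
    rw [h1, liftM_comp, LinearMap.comp_apply]
    have h2 := interchange (hΔ.lift u) (loc_allG (hΓ.comp hΔ) u m) 0 ψ hψ'
    rw [h2]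

/-- the projector in the block `j` -/
def eJ (E : Fn R →ₗ[R] Fn R) (u k : ℕ) (j : ℕ) : Fn R →ₗ[R] Fn R := liftM (k * j + u) E

lemma eJ_loc {E : Fn R →ₗ[R] Fn R} (hE : Loc s' s' E) {m j : ℕ} (hj : j < m) :
    Loc ((u + s') * m) ((u + s') * m) (eJ E u (u + s') j) := by
  refine loc_at hE ?_ rfl
  calc (u + s') * j + u + s' = (u + s') * (j + 1) := by ring
    _ ≤ (u + s') * m := Nat.mul_le_mul_left _ hj

lemma eJ_far {E : Fn R →ₗ[R] Fn R} (hE : Loc s' s' E) {m a j : ℕ} (haj : a ≤ j) (hj : j < m)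
    {V : Fn R →ₗ[R] Fn R} (hV : Loc ((u + s') * a) ((u + s') * a) V) (ψ : Fn R)
    (hψ : PSupp ((u + s') * m) ψ) :
    V (eJ E u (u + s') j ψ) = eJ E u (u + s') j (V ψ) := by
  obtain ⟨t, rfl⟩ := Nat.exists_eq_add_of_le haj
  obtain ⟨r, rfl⟩ := Nat.exists_eq_add_of_lt hj
  have h1 : Loc ((u + s') * t + u + s') ((u + s') * t + u + s') (liftM ((u + s') * t + u) E) :=
    hE.lift _
  have h2 := interchange hV h1 ((u + s') * r) ψ (psupp_cast hψ (by ring))
  rw [liftM_liftM] at h2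
  have h3 : eJ E u (u + s') (a + t) = liftM ((u + s') * t + u + (u + s') * a) E := by
    unfold eJ
    congr 1
    ring
  rw [h3]
  exact h2

lemma eJ_comm {E : Fn R →ₗ[R] Fn R} (hE : Loc s' s' E) {m i j : ℕ} (hi : i < m) (hj : j < m)
    (ψ : Fn R) (hψ : PSupp ((u + s') * m) ψ) :
    eJ E u (u + s') i (eJ E u (u + s') j ψ) = eJ E u (u + s') j (eJ E u (u + s') i ψ) := by
  rcases lt_trichotomy i j with h | h | h
  · exact eJ_far u hE h hj (eJ_loc u hE (Nat.lt_succ_self i)) ψ hψ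
  · rw [h]
  · exact (eJ_far u hE h hi (eJ_loc u hE (Nat.lt_succ_self j)) ψ hψ).symm

/-- the projectors in the last `t` blocks -/
noncomputable def qT (E : Fn R →ₗ[R] Fn R) (u k m t : ℕ) : Fn R →ₗ[R] Fn R :=
  liftM (k * (m - t)) (allG E u k t)

lemma qT_zero {E : Fn R →ₗ[R] Fn R} {m : ℕ} (ψ : Fn R) (hψ : PSupp ((u + s') * m) ψ) :
    qT E u (u + s') m 0 ψ = ψ :=
  liftM_id (n := (u + s') * m) (by simp) ψ hψ

lemma qT_succ {E : Fn R →ₗ[R] Fn R} {m t : ℕ} (ht : t + 1 ≤ m) :
    qT E u (u + s') m (t + 1) = eJ E u (u + s') (m - (t + 1)) ∘ₗ qT E u (u + s') m t := by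
  unfold qT eJ
  show liftM _ (liftM u E ∘ₗ liftM (u + s') (allG E u (u + s') t)) = _
  rw [liftM_comp, liftM_liftM, liftM_liftM]
  have e1 : u + (u + s') * (m - (t + 1)) = (u + s') * (m - (t + 1)) + u := by ring
  have e2 : u + s' + (u + s') * (m - (t + 1)) = (u + s') * (m - t) := by
    have : m - t = (m - (t + 1)) + 1 := by omega
    rw [this]
    ring
  rw [e1, e2]

lemma qT_loc {E : Fn R →ₗ[R] Fn R} (hE : Loc s' s' E) {m t : ℕ} (ht : t ≤ m) :
    Loc ((u + s') * m) ((u + s') * m) (qT E u (u + s') m t) := by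
  have h1 := (loc_allG hE u t).lift ((u + s') * (m - t))
  have e : (u + s') * (m - t) + (u + s') * t = (u + s') * m := by
    rw [← Nat.mul_add]
    congr 1
    omega
  exact loc_cast h1 e e

lemma qT_comm {E : Fn R →ₗ[R] Fn R} (hE : Loc s' s' E) {m : ℕ} : ∀ t, t ≤ m → ∀ j < m,
    ∀ ψ, PSupp ((u + s') * m) ψ →
    qT E u (u + s') m t (eJ E u (u + s') j ψ) = eJ E u (u + s') j (qT E u (u + s') m t ψ) := by
  intro t
  induction t with
  | zero =>
    intro _ j hj ψ hψ
    rw [qT_zero u ψ hψ, qT_zero u _ ((eJ_loc u hE hj).pres hψ)]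
  | succ t ih =>
    intro ht j hj ψ hψ
    rw [qT_succ u ht, LinearMap.comp_apply, LinearMap.comp_apply, ih (by omega) j hj ψ hψ,
      eJ_comm u hE (by omega) hj _ ((qT_loc u hE (by omega)).pres hψ)]

include hΓ hΔ hδ hdd sΓ sE in
theorem key_trace {g : List Bool → R}
    (hg : ∀ p q : List Bool, p.head? = q.head? → p.getLast? = q.getLast? → g p = g q)
    (m : ℕ) (hm : 0 < m) (b : List (ℕ × Bool)) (hb : ∀ x ∈ b, x.1 + 1 < m)
    (hc : ∀ j < m, ∃ r : ℕ, (perm b ^ r) 0 = j) {T : Fn R →ₗ[R] Fn R}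
    (hT : Loc (u + s') (u + s') T) :
    trw g ((u + s') * m) (T ∘ₗ liftM u (Γ ∘ₗ Δ) ∘ₗ run A (parallel (u + s') b)) =
      trw g ((u + s) * m) ((liftM u Δ ∘ₗ T ∘ₗ liftM u Γ) ∘ₗ run A (parallel (u + s) b)) := by
  obtain ⟨m', rfl⟩ : ∃ m', m = m' + 1 := ⟨m - 1, by omega⟩
  set m := m' + 1 with hmdef
  have hE : Loc s' s' (Γ ∘ₗ Δ) := hΓ.comp hΔ
  set E := Γ ∘ₗ Δ with hEdef
  set B' := run A (parallel (u + s') b) with hB'def
  set B := run A (parallel (u + s) b) with hBdef
  have hpar : ∀ k, Loc (k * m) (k * m) (run A (parallel k b)) := by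
    intro k
    refine loc_run A _ _ _ ?_
    have : ∀ b : List (ℕ × Bool), (∀ x ∈ b, x.1 + 1 < m) → Ok (parallel k b) (k * m) (k * m) := by
      intro b
      induction b with
      | nil => intro _; simp [parallel, Ok]
      | cons x b ih =>
        intro hb
        have h : parallel k (x :: b) = blockCross k k (k * x.1) x.2 ++ parallel k b := by
          simp [parallel]
        rw [h]
        refine ok_append _ _ _ _ _ (ok_blockCross k k (k * x.1) x.2 (k * m) ?_)
          (ih (fun y hy => hb y (by simp [hy])))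
        calc k * x.1 + k + k = k * (x.1 + 1 + 1) := by ring
          _ ≤ k * m := Nat.mul_le_mul_left k (hb x (by simp))
    exact this b hb
  have hB' : Loc ((u + s') * m) ((u + s') * m) B' := hpar (u + s')
  have hB : Loc ((u + s) * m) ((u + s) * m) B := hpar (u + s)
  have he : ∀ j < m, Loc ((u + s') * m) ((u + s') * m) (eJ E u (u + s') j) :=
    fun j hj => eJ_loc u hE hj
  have hπ : ∀ j < m, perm b j < m := fun j hj => perm_lt m b hb j hj
  have hs : ∀ j < m, ∀ ψ, PSupp ((u + s') * m) ψ →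
      B' (eJ E u (u + s') j ψ) = eJ E u (u + s') (perm b j) (B' ψ) :=
    fun j hj ψ hψ => block_slide hE sE u m b hb j hj ψ hψ
  have hTN : Loc ((u + s') * m) ((u + s') * m) T :=
    loc_cast (hT.ext ((u + s') * m')) (by rw [hmdef]; ring) (by rw [hmdef]; ring)
  have e0 : eJ E u (u + s') 0 = liftM u E := by
    unfold eJ
    rw [Nat.mul_zero, Nat.zero_add]
  have hee : ∀ ψ, PSupp ((u + s') * m) ψ →
      eJ E u (u + s') 0 (eJ E u (u + s') 0 ψ) = δ • eJ E u (u + s') 0 ψ := by
    intro ψ hψ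
    rw [e0, hEdef, liftM_comp]
    show liftM u Γ (liftM u Δ (liftM u Γ (liftM u Δ ψ))) = δ • liftM u Γ (liftM u Δ ψ)
    have h1 : PSupp ((u + s) + (u + s') * m') (liftM u Δ ψ) :=
      ((hΔ.lift u).ext ((u + s') * m')).pres (psupp_cast hψ (by rw [hmdef]; ring))
    rw [lift_dd hdd u _ _ h1, map_smul]
  have hTcom : ∀ j < m, j ≠ 0 → ∀ ψ, PSupp ((u + s') * m) ψ →
      T (eJ E u (u + s') j ψ) = eJ E u (u + s') j (T ψ) := by
    intro j hj hj0 ψ hψ
    exact eJ_far u hE (a := 1) (by omega) hj (loc_cast hT (by ring) (by ring)) ψ hψ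
  -- the operator U
  set U := eJ E u (u + s') 0 ∘ₗ T ∘ₗ eJ E u (u + s') 0 with hU
  have hUloc : Loc ((u + s') * m) ((u + s') * m) U :=
    (he 0 hm).comp (hTN.comp (he 0 hm))
  have hUcom : ∀ j < m, ∀ ψ, PSupp ((u + s') * m) ψ →
      U (eJ E u (u + s') j ψ) = eJ E u (u + s') j (U ψ) := by
    intro j hj ψ hψ
    simp only [hU, LinearMap.comp_apply]
    by_cases hj0 : j = 0
    · subst hj0
      rw [hee ψ hψ, map_smul, map_smul,
        hee _ (hTN.pres ((he 0 hm).pres hψ))]
    · rw [eJ_comm u hE hm hj ψ hψ, hTcom j hj hj0 _ ((he 0 hm).pres hψ),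
        eJ_comm u hE hm hj _ (hTN.pres ((he 0 hm).pres hψ))]
  have hU0 : ∀ ψ, PSupp ((u + s') * m) ψ → U (eJ E u (u + s') 0 ψ) = δ • U ψ := by
    intro ψ hψ
    simp only [hU, LinearMap.comp_apply]
    rw [hee ψ hψ, map_smul, map_smul]
  -- inserting the projectors
  have hins : ∀ t, t + 1 ≤ m → trw g ((u + s') * m) ((U ∘ₗ qT E u (u + s') m t) ∘ₗ B') =
      δ ^ t * trw g ((u + s') * m) (U ∘ₗ B') := by
    intro t
    induction t with
    | zero =>
      intro _
      rw [pow_zero, one_mul]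
      refine trw_congr g fun ψ hψ => ?_
      simp only [LinearMap.comp_apply]
      rw [qT_zero u _ (hB'.pres hψ)]
    | succ t ih =>
      intro ht
      have hV : Loc ((u + s') * m) ((u + s') * m) (U ∘ₗ qT E u (u + s') m t) :=
        hUloc.comp (qT_loc u hE (by omega))
      have h1 := tr_insert (N := (u + s') * m) (m := m) hg hB' (e := eJ E u (u + s')) he
        (π := perm b) hπ hs hV (δ := δ) ?_ ?_ hm (hc (m - (t + 1)) (by omega))
      · rw [pow_succ', mul_assoc, ← ih (by omega), ← h1]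
        refine trw_congr g fun ψ hψ => ?_
        rw [qT_succ u (by omega)]
        simp only [LinearMap.comp_apply]
        rw [qT_comm u hE t (by omega) _ (by omega) _ (hB'.pres hψ)]
      · intro j hj ψ hψ
        simp only [LinearMap.comp_apply]
        rw [qT_comm u hE t (by omega) j hj ψ hψ, hUcom j hj _ ((qT_loc u hE (by omega)).pres hψ)]
      · intro ψ hψ
        simp only [LinearMap.comp_apply]
        rw [qT_comm u hE t (by omega) 0 hm ψ hψ, hU0 _ ((qT_loc u hE (by omega)).pres hψ)]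
  -- the left end
  have hleft : trw g ((u + s') * m) (U ∘ₗ B') = δ * trw g ((u + s') * m)
      (T ∘ₗ eJ E u (u + s') 0 ∘ₗ B') := by
    have hV : Loc ((u + s') * m) ((u + s') * m) (T ∘ₗ eJ E u (u + s') 0) :=
      hTN.comp (he 0 hm)
    have h1 := tr_swap (N := (u + s') * m) (m := m) hg hB' (e := eJ E u (u + s')) he
      (π := perm b) hπ hs hV ?_ hm
    · rw [← trw_smul]
      refine Eq.trans h1 (trw_congr g fun ψ hψ => ?_)
      simp only [LinearMap.comp_apply, LinearMap.smul_apply]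
      rw [hee _ (hB'.pres hψ), map_smul]
    · intro j hj hj0 ψ hψ
      simp only [LinearMap.comp_apply]
      rw [eJ_comm u hE hm hj ψ hψ, hTcom j hj hj0 _ ((he 0 hm).pres hψ)]
  -- the right end
  set T2 := liftM u Δ ∘ₗ T ∘ₗ liftM u Γ with hT2
  have hT2loc : Loc (u + s) (u + s) T2 := (hΔ.lift u).comp (hT.comp (hΓ.lift u))
  have hright : trw g ((u + s') * m) ((U ∘ₗ qT E u (u + s') m m') ∘ₗ B') =
      δ ^ m * trw g ((u + s) * m) (T2 ∘ₗ B) := by
    have hG := loc_allG hΓ u m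
    have hD := loc_allD hΔ u m
    have hT2N : Loc ((u + s) * m) ((u + s) * m) T2 :=
      loc_cast (hT2loc.ext ((u + s) * m')) (by rw [hmdef]; ring) (by rw [hmdef]; ring)
    have h1 : trw g ((u + s') * m) ((U ∘ₗ qT E u (u + s') m m') ∘ₗ B') =
        trw g ((u + s') * m) (allG Γ u (u + s) m ∘ₗ (T2 ∘ₗ allD Δ u (u + s) m ∘ₗ B')) := by
      refine trw_congr g fun ψ hψ => ?_
      have hχ := hB'.pres hψ
      simp only [LinearMap.comp_apply]
      generalize B' ψ = χ at hχ
      have hχ' : PSupp ((u + s') + (u + s') * m') χ := psupp_cast hχ (by rw [hmdef]; ring)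
      have e1 : qT E u (u + s') m m' = liftM (u + s') (allG E u (u + s') m') := by
        unfold qT
        have : m - m' = 1 := by omega
        rw [this, Nat.mul_one]
      rw [e1]
      simp only [hU, LinearMap.comp_apply]
      rw [e0]
      have e2 : liftM u E = liftM u Γ ∘ₗ liftM u Δ := by rw [hEdef, liftM_comp]
      rw [e2]
      simp only [LinearMap.comp_apply]
      have h2 := interchange (hΔ.lift u) (loc_allG hE u m') 0 χ hχ'
      rw [h2]
      have hχ2 : PSupp ((u + s) + (u + s') * m') (liftM u Δ χ) :=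
        ((hΔ.lift u).ext ((u + s') * m')).pres hχ'
      have h3 : liftM (u + s) (allG E u (u + s') m') (liftM u Δ χ) =
          liftM (u + s) (allG Γ u (u + s) m' ∘ₗ allD Δ u (u + s) m') (liftM u Δ χ) :=
        (liftM_congr (n := (u + s') * m')
          (fun φ hφ => allG_allD hΓ hΔ u m' φ hφ) _ hχ2).symm
      rw [h3, liftM_comp, LinearMap.comp_apply]
      have hχ3 : PSupp ((u + s) + (u + s) * m')
          (liftM (u + s) (allD Δ u (u + s) m') (liftM u Δ χ)) :=
        ((loc_allD hΔ u m').lift (u + s)).pres hχ2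
      have h4 := interchange hT2loc (loc_allG hΓ u m') 0 _ hχ3
      have h5 : ∀ φ, liftM u Δ (T (liftM u Γ φ)) = T2 φ := fun φ => rfl
      rw [h5, h4]
      rfl
    have h2 : trw g ((u + s') * m) (allG Γ u (u + s) m ∘ₗ (T2 ∘ₗ allD Δ u (u + s) m ∘ₗ B')) =
        trw g ((u + s) * m) ((T2 ∘ₗ allD Δ u (u + s) m ∘ₗ B') ∘ₗ allG Γ u (u + s) m) :=
      trw_cyc hg hG (hT2N.comp (hD.comp hB'))
    have h3 : trw g ((u + s) * m) ((T2 ∘ₗ allD Δ u (u + s) m ∘ₗ B') ∘ₗ allG Γ u (u + s) m) =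
        trw g ((u + s) * m) (δ ^ m • (T2 ∘ₗ B)) := by
      refine trw_congr g fun ψ hψ => ?_
      simp only [LinearMap.comp_apply, LinearMap.smul_apply]
      have h4 : B' (allG Γ u (u + s) m ψ) = allG Γ u (u + s) m (B ψ) :=
        allG_slide hΓ sΓ u m b hb ψ hψ
      rw [h4, allD_allG hΓ hdd u m _ (hB.pres hψ), map_smul]
    rw [h1, h2, h3, trw_smul]
  have h6 := hins m' le_rfl
  rw [hright, hleft] at h6
  have h7 : δ ^ m * ε ^ m = 1 := by rw [← mul_pow, hδ, one_pow]
  have h8 : δ ^ m * trw g ((u + s) * m) (T2 ∘ₗ B) =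
      δ ^ m * trw g ((u + s') * m) (T ∘ₗ eJ E u (u + s') 0 ∘ₗ B') := by
    rw [h6, ← mul_assoc, hmdef, pow_succ]
  have h9 : trw g ((u + s) * m) (T2 ∘ₗ B) =
      trw g ((u + s') * m) (T ∘ₗ eJ E u (u + s') 0 ∘ₗ B') := by
    have := congrArg (ε ^ m * ·) h8
    simp only [← mul_assoc] at this
    rw [mul_comm (ε ^ m), h7, one_mul, one_mul] at this
    exact this
  rw [h9, e0]

end key

/-! ### The theorem -/

lemma gx_dep (x : R) : ∀ p q : List Bool, p.head? = q.head? → p.getLast? = q.getLast? →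
    gx x p = gx x q := by
  intro p q h1 h2
  unfold gx
  rw [h1, h2]

lemma main_zero (m : ℕ) (b : List (ℕ × Bool)) (A x y : R) (T : Fn R →ₗ[R] Fn R) :
    trw (gx x) (0 * m) (T ∘ₗ run A (parallel 0 b)) = trw (gx y) 0 T := by
  have h1 : parallel 0 b = [] := by
    unfold parallel
    induction b with
    | nil => rfl
    | cons z b ih =>
      rw [List.flatMap_cons, ih]
      rfl
  rw [h1, Nat.zero_mul]
  have h2 : T ∘ₗ run A [] = T := LinearMap.comp_id T
  rw [h2]
  refine Finset.sum_congr rfl fun p hp => ?_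
  congr 1
  obtain ⟨a, rfl⟩ := List.length_eq_one_iff.1 (mem_lgl.1 hp).1
  cases a <;> simp [gx]

lemma parallel_one (b : List (ℕ × Bool)) : parallel 1 b = braid b := by
  unfold parallel braid
  induction b with
  | nil => rfl
  | cons z b ih =>
    rw [List.flatMap_cons, ih, List.map_cons]
    simp [blockCross, passRight]

lemma main_one (m : ℕ) (hm : 0 < m) (A x : R) (B : Fn R →ₗ[R] Fn R) (hB : Loc m m B)
    (T : Fn R →ₗ[R] Fn R) (hT : Loc 1 1 T) :
    trw (gx x) m (T ∘ₗ B) = trw (gx (trw (gx x) m B)) 1 T := by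
  obtain ⟨K, hK, HK⟩ := hT
  obtain ⟨m', rfl⟩ : ∃ m', m = m' + 1 := ⟨m - 1, by omega⟩
  have h1 : ∀ p ∈ lgl (m' + 1), gx x p * (T ∘ₗ B) (Pi.single p 1) p =
      K [false, true] [false, true] * (gx x p * B (Pi.single p 1) p) := by
    intro p hp
    by_cases h0 : p.head? = some false
    · have hp' := mem_lgl.1 hp
      obtain ⟨a, p, rfl, hp1⟩ := loc_cons hp'.1
      obtain ⟨c, p, rfl, hp2⟩ := loc_cons hp1
      simp only [List.head?_cons, Option.some.injEq] at h0
      subst h0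
      have hc : c = true := by
        have := hp'.2.1
        simpa using this
      subst hc
      have hBs : PSupp (1 + m') (B (Pi.single (false :: true :: p) 1)) := by
        rw [Nat.add_comm]
        exact hB.pres (loc_psupp_single hp)
      have h2 := (HK m' _ hBs).2 [false, true] p rfl hp2
      have h3 : (T ∘ₗ B) (Pi.single (false :: true :: p) 1) (false :: true :: p) =
          K [false, true] [false, true] *
            B (Pi.single (false :: true :: p) 1) (false :: true :: p) := by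
        rw [LinearMap.comp_apply]
        refine Eq.trans h2 ?_
        rw [Finset.sum_eq_single [false, true]]
        · rfl
        · intro q hq hne
          by_cases hz : K [false, true] q = 0
          · rw [hz, zero_mul]
          · exfalso
            apply hne
            obtain ⟨a1, a2, a3, a4⟩ := hK _ _ hz
            obtain ⟨y, q, rfl, hq1⟩ := loc_cons (mem_lgl.1 hq).1
            obtain ⟨z, rfl⟩ := List.length_eq_one_iff.1 hq1
            simp at a3 a4
            rw [← a3, ← a4]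
        · intro h
          exfalso
          apply h
          exact mem_lgl.2 ⟨rfl, by simp [legal]⟩
      rw [h3]
      ring
    · have : gx x p = 0 := by
        unfold gx
        rw [if_neg h0]
      rw [this]
      ring
  have h2 : trw (gx x) (m' + 1) (T ∘ₗ B) =
      K [false, true] [false, true] * trw (gx x) (m' + 1) B := by
    unfold trw
    rw [Finset.sum_congr rfl h1, Finset.mul_sum]
  rw [h2]
  generalize trw (gx x) (m' + 1) B = y
  unfold trw
  have h4 : [false, true] ∈ lgl 1 := mem_lgl.2 ⟨rfl, by simp [legal]⟩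
  rw [Finset.sum_eq_single [false, true]]
  · rw [loc_kernel HK (p := [false, true]) (q := [false, true]) rfl h4]
    simp [gx, mul_comm]
  · intro q hq hne
    have hq' := mem_lgl.1 hq
    obtain ⟨v, q, rfl, hq1⟩ := loc_cons hq'.1
    obtain ⟨z, rfl⟩ := List.length_eq_one_iff.1 hq1
    cases v
    · cases z
      · exfalso
        have := hq'.2.1
        simp at this
      · exact absurd rfl hne
    · simp [gx]
  · intro h
    exact absurd h4 h

theorem main_trace {A : R} (hA : A ^ 4 - A ^ 3 + A ^ 2 - A + 1 = 0) (m : ℕ) (hm : 0 < m)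
    (b : List (ℕ × Bool)) (hb : ∀ x ∈ b, x.1 + 1 < m)
    (hc : ∀ j < m, ∃ r : ℕ, (perm b ^ r) 0 = j) (n : ℕ) (T : Fn R →ₗ[R] Fn R)
    (hT : Loc n n T) :
    trw (gx (dd A)) (n * m) (T ∘ₗ run A (parallel n b)) =
      trw (gx (trw (gx (dd A)) m (run A (braid b)))) n T := by
  have hd : dd A * (dd A - 1) = 1 := by linear_combination dd_sq hA
  set x := trw (gx (dd A)) m (run A (braid b)) with hx
  have main : ∀ n, (∀ T : Fn R →ₗ[R] Fn R, Loc n n T →
      trw (gx (dd A)) (n * m) (T ∘ₗ run A (parallel n b)) = trw (gx x) n T) ∧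
      (∀ T : Fn R →ₗ[R] Fn R, Loc (n + 1) (n + 1) T →
      trw (gx (dd A)) ((n + 1) * m) (T ∘ₗ run A (parallel (n + 1) b)) =
        trw (gx x) (n + 1) T) := by
    intro n
    induction n with
    | zero =>
      refine ⟨fun T _ => main_zero m b A _ _ T, fun T hT => ?_⟩
      rw [Nat.zero_add, Nat.one_mul, parallel_one]
      refine main_one m hm A _ _ ?_ T hT
      refine loc_run A _ _ _ ?_
      have : ∀ b : List (ℕ × Bool), (∀ x ∈ b, x.1 + 1 < m) → Ok (braid b) m m := by
        intro b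
        induction b with
        | nil => intro _; simp [braid, Ok]
        | cons y b ih =>
          intro hb
          exact ⟨hb y (by simp), ih (fun z hz => hb z (by simp [hz]))⟩
      exact this b hb
    | succ n ih =>
      refine ⟨ih.2, fun T hT => ?_⟩
      have k1 := key_trace (A := A) (loc_cupL A) (loc_capL A) hd
        (fun k ψ hψ => cap_cup hA (0 + k) ψ hψ) (slides_cup hA) (slides_cupcap hA) n
        (gx_dep (dd A)) m hm b hb hc hT
      have k2 := key_trace (A := A) (loc_splitL A) (loc_mergeL A) hd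
        (fun k ψ hψ => merge_split hA k ψ hψ) (slides_split hA) (slides_splitmerge hA) n
        (gx_dep (dd A)) m hm b hb hc hT
      have L1 : Loc n n (liftM n (capL A) ∘ₗ T ∘ₗ liftM n (cupL A)) :=
        ((loc_capL A).lift n).comp (hT.comp ((loc_cupL A).lift n))
      have L2 : Loc (n + 1) (n + 1) (liftM n (mergeL A) ∘ₗ T ∘ₗ liftM n (splitL A)) :=
        ((loc_mergeL A).lift n).comp (hT.comp ((loc_splitL A).lift n))
      have k3 : trw (gx (dd A)) ((n + 2) * m)
          (T ∘ₗ liftM n (cupL A ∘ₗ capL A) ∘ₗ run A (parallel (n + 2) b)) =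
          trw (gx x) n (liftM n (capL A) ∘ₗ T ∘ₗ liftM n (cupL A)) := k1.trans (ih.1 _ L1)
      have k4 : trw (gx (dd A)) ((n + 2) * m)
          (T ∘ₗ liftM n (splitL A ∘ₗ mergeL A) ∘ₗ run A (parallel (n + 2) b)) =
          trw (gx x) (n + 1) (liftM n (mergeL A) ∘ₗ T ∘ₗ liftM n (splitL A)) :=
        k2.trans (ih.2 _ L2)
      have res : ∀ k ψ, PSupp (n + (2 + k)) ψ →
          liftM n (cupL A ∘ₗ capL A) ψ + liftM n (splitL A ∘ₗ mergeL A) ψ = dd A • ψ := by
        intro k ψ hψ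
        have h1 : liftM n (cupL A ∘ₗ capL A + splitL A ∘ₗ mergeL A) ψ =
            liftM n (dd A • LinearMap.id) ψ :=
          liftM_congr (n := 2 + k) (fun φ hφ => resolution hA k φ hφ) ψ hψ
        rw [liftM_add', liftM_smul', LinearMap.add_apply, LinearMap.smul_apply,
          liftM_id (n := n + (2 + k)) (by omega) ψ hψ] at h1
        exact h1
      have hpar : Loc ((n + 2) * m) ((n + 2) * m) (run A (parallel (n + 2) b)) := by
        refine loc_run A _ _ _ ?_
        have : ∀ b : List (ℕ × Bool), (∀ x ∈ b, x.1 + 1 < m) →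
            Ok (parallel (n + 2) b) ((n + 2) * m) ((n + 2) * m) := by
          intro b
          induction b with
          | nil => intro _; simp [parallel, Ok]
          | cons x b ih =>
            intro hb
            have h : parallel (n + 2) (x :: b) =
                blockCross (n + 2) (n + 2) ((n + 2) * x.1) x.2 ++ parallel (n + 2) b := by
              simp [parallel]
            rw [h]
            refine ok_append _ _ _ _ _ (ok_blockCross _ _ _ x.2 ((n + 2) * m) ?_)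
              (ih (fun y hy => hb y (by simp [hy])))
            calc (n + 2) * x.1 + (n + 2) + (n + 2) = (n + 2) * (x.1 + 1 + 1) := by ring
              _ ≤ (n + 2) * m := Nat.mul_le_mul_left _ (hb x (by simp))
        exact this b hb
      obtain ⟨m', rfl⟩ : ∃ m', m = m' + 1 := ⟨m - 1, by omega⟩
      have lhs : dd A * trw (gx (dd A)) ((n + 2) * (m' + 1)) (T ∘ₗ run A (parallel (n + 2) b)) =
          trw (gx x) n (liftM n (capL A) ∘ₗ T ∘ₗ liftM n (cupL A)) +
          trw (gx x) (n + 1) (liftM n (mergeL A) ∘ₗ T ∘ₗ liftM n (splitL A)) := by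
        rw [← k3, ← k4, ← trw_add, ← trw_smul]
        refine trw_congr _ fun ψ hψ => ?_
        simp only [LinearMap.smul_apply, LinearMap.add_apply, LinearMap.comp_apply]
        have h1 : PSupp (n + (2 + (n + 2) * m')) (run A (parallel (n + 2) b) ψ) :=
          psupp_cast (hpar.pres hψ) (by ring)
        have h2 := res _ _ h1
        simp only [liftM_comp, LinearMap.comp_apply] at h2 ⊢
        rw [← map_add, h2, map_smul]
      have rhs : dd A * trw (gx x) (n + 2) T =
          trw (gx x) n (liftM n (capL A) ∘ₗ T ∘ₗ liftM n (cupL A)) +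
          trw (gx x) (n + 1) (liftM n (mergeL A) ∘ₗ T ∘ₗ liftM n (splitL A)) := by
        have c1 : trw (gx x) (n + 2) ((T ∘ₗ liftM n (cupL A)) ∘ₗ liftM n (capL A)) =
            trw (gx x) n (liftM n (capL A) ∘ₗ (T ∘ₗ liftM n (cupL A))) :=
          trw_cyc (gx_dep x) (hT.comp ((loc_cupL A).lift n)) ((loc_capL A).lift n)
        have c2 : trw (gx x) (n + 2) ((T ∘ₗ liftM n (splitL A)) ∘ₗ liftM n (mergeL A)) =
            trw (gx x) (n + 1) (liftM n (mergeL A) ∘ₗ (T ∘ₗ liftM n (splitL A))) :=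
          trw_cyc (gx_dep x) (hT.comp ((loc_splitL A).lift n)) ((loc_mergeL A).lift n)
        rw [← c1, ← c2, ← trw_add, ← trw_smul]
        refine trw_congr _ fun ψ hψ => ?_
        simp only [LinearMap.smul_apply, LinearMap.add_apply, LinearMap.comp_apply]
        have h2 := res 0 ψ hψ
        simp only [liftM_comp, LinearMap.comp_apply] at h2
        rw [← map_add, h2, map_smul]
      have h := lhs.trans rhs.symm
      have := congrArg ((dd A - 1) * ·) h
      simp only [← mul_assoc] at this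
      rw [mul_comm (dd A - 1), hd, one_mul, one_mul] at this
      exact this
  exact (main n).1 T hT

end Pool.Agent.Helper77.Sat
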