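import Pool.Agent.Helper77.Sat.Second

namespace Pool.Agent.Helper77.Sat.RetiredFifthRootSatellites

open Pool.Agent.Helper2 Pool.Agent.Helper77.Sat

/-- Let `z` be a primitive fifth root of unity. For every pattern `(o, W)` (a stack of pieces `W`
from `n` strands to `n` strands with the directions `o`) there is `β` in `ℤ[z]` such that
`f_{P(J)}(z) - f_{P(U)}(z) = β (f_J(z) - 1)` for all knots `J`, given as closures of braids with
exponent sum `0`. Let the pattern be a knot of winding number `w`. Then `β` is congruent to `w ^ 2`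
modulo `1 - z`, and to `w ^ 2 + 2 (∑ s_k (w ^ 2 - v_k ^ 2)) (1 - z)` modulo `(1 - z) ^ 2`, where
`s_k` are the signs of the crossings of the pattern and `v_k` is the winding number of the knot
which one gets by smoothing this crossing against the directions. Hence `β` is not zero if `5` does
not divide both `w` and `∑ s_k v_k ^ 2`, and then `f_{P(J)}(z) = f_{P(U)}(z)` if and only if
`f_J(z) = 1`; in particular `f_{P(J)} ≠ 1` if `f_{P(U)}(z) = 1` and `f_J(z) ≠ 1`. -/
theorem result (z : ℂˣ) (hz : IsPrimitiveRoot (z : ℂ) 5) (o : List Bool) (W : List Slice)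
    (hW : dirsAbove W o = some o) :
    ∃ β ∈ Algebra.adjoin ℤ {(z : ℂ)},
      (∀ (m : ℕ) (b : List (ℕ × Bool)), IsBraidKnot m b →
        IsDiagram (satellite o W m b) ∧
        curves (satellite o W m b) = curves (closeUp o W) ∧
        evalAt z (fPoly (satellite o W m b)) - evalAt z (fPoly (closeUp o W)) =
          β * (evalAt z (fPoly (companion m b)) - 1)) ∧
      (curves (closeUp o W) = 1 →
        (∃ γ ∈ Algebra.adjoin ℤ {(z : ℂ)}, β = (winding o : ℂ) ^ 2 + (1 - z) * γ) ∧
        (∀ v : ℕ → ℤ, SmoothWindings o W v →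
          ∃ γ ∈ Algebra.adjoin ℤ {(z : ℂ)}, β = (winding o : ℂ) ^ 2 +
            2 * ((∑ k ∈ Finset.range W.length,
              signAt o W k * (winding o ^ 2 - v k ^ 2) : ℤ) : ℂ) * (1 - z) +
            (1 - z) ^ 2 * γ) ∧
        ((¬ (5 : ℤ) ∣ winding o ∨ ∃ v : ℕ → ℤ, SmoothWindings o W v ∧
            ¬ (5 : ℤ) ∣ ∑ k ∈ Finset.range W.length, signAt o W k * v k ^ 2) →
          β ≠ 0 ∧ ∀ (m : ℕ) (b : List (ℕ × Bool)), IsBraidKnot m b →
            IsKnotDiagram (satellite o W m b) ∧
            (evalAt z (fPoly (satellite o W m b)) = evalAt z (fPoly (closeUp o W)) ↔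
              evalAt z (fPoly (companion m b)) = 1) ∧
            (evalAt z (fPoly (closeUp o W)) = 1 → evalAt z (fPoly (companion m b)) ≠ 1 →
              fPoly (satellite o W m b) ≠ 1))) := by
  obtain ⟨hβ, h1, h2⟩ := satellites z hz o W hW
  refine ⟨beta z o W, hβ, h1, fun hk => ⟨h2 hk, fun v hv => second_order z hz o W hW hk v hv,
    fun h => ?_⟩⟩
  have hβ0 := beta_ne z hz o W hW hk h
  refine ⟨hβ0, fun m b hb => ?_⟩
  obtain ⟨h3, h4, h6⟩ := h1 m b hb
  have h7 : evalAt z (fPoly (satellite o W m b)) = evalAt z (fPoly (closeUp o W)) ↔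
      evalAt z (fPoly (companion m b)) = 1 := by
    constructor
    · intro h
      rw [h, sub_self] at h6
      rcases mul_eq_zero.mp h6.symm with h8 | h8
      · exact absurd h8 hβ0
      · exact sub_eq_zero.mp h8
    · intro h
      rw [h, sub_self, mul_zero, sub_eq_zero] at h6
      exact h6
  refine ⟨⟨h3, h4.trans hk⟩, h7, fun hU hJ hS => ?_⟩
  apply hJ
  rw [← h7, hS, hU, map_one]

end Pool.Agent.Helper77.Sat.RetiredFifthRootSatellites
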