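import Pool.Agent.Helper77.Sat.Smooth
import Pool.Agent.Helper77.Sat.Final

/-!
# The value of a knot pattern modulo `(1 - z) ^ 2`
-/

namespace Pool.Agent.Helper77.Sat

open Pool.Agent.Helper2

lemma signSum_eq (W : List Slice) : ∀ (o o' : List Bool), dirsAbove W o = some o' →
    signSum W o = ∑ k ∈ Finset.range W.length, signAt o W k := by
  induction W with
  | nil => intro o o' _; simp [signSum]
  | cons s W ih =>
    intro o o' h
    rw [List.length_cons, Finset.sum_range_succ']
    simp only [dirsAbove] at h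
    rcases hs : s.dirs o with _ | o₁
    · rw [hs] at h; simp at h
    rw [hs] at h
    simp only [Option.bind_some] at h
    have h1 : ∀ k, signAt o (s :: W) (k + 1) = signAt o₁ W k := by
      intro k
      unfold signAt level
      simp only [List.getElem?_cons_succ, List.take_succ_cons, dirsAbove, hs, Option.bind_some]
    have h2 : signAt o (s :: W) 0 = s.sign o := by
      simp [signAt, level, dirsAbove]
    simp only [h1, h2, signSum, hs, Option.getD_some]
    rw [ih o₁ o' h, add_comm]

lemma dirs_split (w w' : List Slice) : ∀ (o o' : List Bool), dirsAbove (w ++ w') o = some o' →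
    ∃ l, dirsAbove w o = some l ∧ dirsAbove w' l = some o' := by
  induction w with
  | nil => intro o o' h; exact ⟨o, rfl, h⟩
  | cons s w ih =>
    intro o o' h
    rw [List.cons_append] at h
    simp only [dirsAbove] at h ⊢
    rcases hs : s.dirs o with _ | o₁
    · rw [hs] at h; simp at h
    rw [hs] at h
    simp only [Option.bind_some] at h ⊢
    exact ih _ _ h

section

variable {R : Type} [CommRing R] (φ : ZMod 5 →+* R)

include φ in
lemma five_zero : (5 : R) = 0 := by
  have h : (5 : ZMod 5) = 0 := by decide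
  have := congrArg φ h
  rw [map_ofNat, map_zero] at this
  exact this

include φ in
lemma trace_knot {n : ℕ} {V : List Slice} {v : ℤ} (h : IsKnotPattern n V v) :
    trw (g1 : List Bool → R) n (run (-1) V) = (v : R) ^ 2 := by
  obtain ⟨o', w', rfl, h1, h2, h3, rfl⟩ := h
  have h4 := trace_mod_five o' w' h2 h3
  rw [← run_forget, h1, run_forget] at h4
  have h5 := congrArg φ h4
  rw [run_map, map_neg, map_one, map_pow, map_intCast] at h5
  exact h5

include φ in
theorem second_trace {e : R} (he : e * e = 0) (o : List Bool) (W : List Slice)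
    (hW : dirsAbove W o = some o) (hk : curves (closeUp o W) = 1) (v : ℕ → ℤ)
    (hv : ∀ k < W.length, signAt o W k ≠ 0 →
      IsKnotPattern o.length (smoothAgainst o W k) (v k)) :
    trw (g1 : List Bool → R) o.length (run (-1 + e) W) = ((winding o : ℤ) : R) ^ 2 -
      e * ∑ k ∈ Finset.range W.length,
        ((signAt o W k : ℤ) : R) * (((winding o : ℤ) : R) ^ 2 + 2 * ((v k : ℤ) : R) ^ 2) := by
  have hok : Ok W o.length o.length := ok_of_dirs W o o hW
  have hb : trw (g1 : List Bool → R) o.length (run (-1) W) = ((winding o : ℤ) : R) ^ 2 :=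
    trace_knot φ ⟨o, W, rfl, rfl, hW, hk, rfl⟩
  rw [trace_first_order he (five_zero φ) W g1 o.length hok, hb, sub_eq_add_neg, ← mul_neg,
    ← Finset.sum_neg_distrib]
  congr 2
  refine Finset.sum_congr rfl fun k hkk => ?_
  rw [Finset.mem_range] at hkk
  have hWk : W[k]? = some W[k] := List.getElem?_eq_getElem hkk
  have hsplit : W = W.take k ++ W[k] :: W.drop (k + 1) := by
    rw [List.getElem_cons_drop, List.take_append_drop]
  cases hs : W[k] with
  | cup i u =>
    rw [hs] at hWk
    have h1 : (dterm W k : Fn R →ₗ[R] Fn R) = 0 := by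
      unfold dterm
      rw [hWk]
    have h2 : signAt o W k = 0 := by
      unfold signAt
      rw [hWk]
      rfl
    rw [h1, h2]
    simp [trw]
  | cap i =>
    rw [hs] at hWk
    have h1 : (dterm W k : Fn R →ₗ[R] Fn R) = 0 := by
      unfold dterm
      rw [hWk]
    have h2 : signAt o W k = 0 := by
      unfold signAt
      rw [hWk]
      rfl
    rw [h1, h2]
    simp [trw]
  | cross i p =>
    rw [hs] at hWk hsplit
    obtain ⟨l, hl1, hl2⟩ := dirs_split (W.take k) (.cross i p :: W.drop (k + 1)) o o (by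
      rw [← hsplit]; exact hW)
    have hlev : level o W k = l := by
      unfold level
      rw [hl1]
      rfl
    -- the two strands
    have hcr : ∃ a b q r, l = q ++ a :: b :: r ∧ q.length = i := by
      simp only [dirsAbove, Slice.dirs] at hl2
      rcases hd : l.drop i with _ | ⟨a, _ | ⟨b, r⟩⟩
      · simp [hd] at hl2
      · simp [hd] at hl2
      · refine ⟨a, b, l.take i, r, ?_, ?_⟩
        · rw [← hd, List.take_append_drop]
        · have := congrArg List.length hd
          rw [List.length_drop] at this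
          simp only [List.length_cons] at this
          rw [List.length_take]
          omega
    obtain ⟨a, b, q, r, hl, hq⟩ := hcr
    have h1 : l[i]? = some a := by
      rw [hl, List.getElem?_append_right (by omega), hq, Nat.sub_self]
      rfl
    have h2 : l[i + 1]? = some b := by
      rw [hl, List.getElem?_append_right (by omega), hq, Nat.add_sub_cancel_left]
      rfl
    have hsg : signAt o W k = if (a = b) ↔ (p = true) then 1 else -1 := by
      unfold signAt
      rw [hWk, Option.map_some, Option.getD_some, hlev, hl]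
      simp only [Slice.sign]
      rw [← hq, List.drop_left]
    have hne : signAt o W k ≠ 0 := by
      rw [hsg]
      split_ifs <;> decide
    have hkn := trace_knot φ (hv k hkk hne)
    have hcross := trace_cross (g1 : List Bool → R) (W.take k) (W.drop (k + 1)) i p o.length (by
      rw [← hsplit]; exact hok)
    rw [← hsplit, hb] at hcross
    have hd : trw (g1 : List Bool → R) o.length (dterm W k) =
        phat p * (trw g1 o.length (run (-1) (W.take k ++ W.drop (k + 1))) -
          trw g1 o.length (run (-1) (W.take k ++ .cap i :: .cup i true :: W.drop (k + 1)))) := by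
      unfold dterm
      rw [hWk]
      simp only
      rw [trw_smul, sub_eq_add_neg, sub_eq_add_neg, trw_add]
      congr 2
      unfold trw
      rw [← Finset.sum_neg_distrib]
      refine Finset.sum_congr rfl fun x _ => ?_
      rw [LinearMap.neg_apply, Pi.neg_apply, mul_neg]
    rw [hd]
    unfold smoothAgainst at hkn
    rw [hWk] at hkn
    simp only at hkn
    rw [hlev, h1, h2] at hkn
    rw [hsg]
    by_cases hab : a = b
    · rw [if_pos (by rw [hab])] at hkn
      have e1 : W.take k ++ [Slice.cap i, Slice.cup i true] ++ W.drop (k + 1) =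
          W.take k ++ .cap i :: .cup i true :: W.drop (k + 1) := by simp
      rw [e1] at hkn
      rw [hkn] at hcross ⊢
      cases p
      · simp only [hab, phat, Bool.false_eq_true, if_false, iff_false, not_true_eq_false]
        push_cast
        linear_combination -hcross
      · simp only [hab, phat, if_true]
        push_cast
        linear_combination hcross
    · rw [if_neg (by simpa using hab)] at hkn
      rw [List.append_nil] at hkn
      rw [hkn] at hcross ⊢
      cases p
      · simp only [hab, phat, Bool.false_eq_true, if_false, if_true]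
        push_cast
        linear_combination hcross
      · simp only [hab, phat, if_true, iff_true, if_false]
        push_cast
        linear_combination -hcross

end

/-- The numbers `v k` are the winding numbers of the knots obtained from the knot pattern `(o, W)`
when one crossing (the piece number `k`) is smoothed against the directions. -/
def SmoothWindings (o : List Bool) (W : List Slice) (v : ℕ → ℤ) : Prop :=
  ∀ k < W.length, signAt o W k ≠ 0 → IsKnotPattern o.length (smoothAgainst o W k) (v k)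

section

variable (z : ℂˣ) (hz : IsPrimitiveRoot (z : ℂ) 5)

include hz

lemma sum_zero : (z : ℂ) ^ 4 + (z : ℂ) ^ 3 + (z : ℂ) ^ 2 + z + 1 = 0 := by
  have := hz.geom_sum_eq_zero (by norm_num)
  simp only [Finset.sum_range_succ, Finset.sum_range_zero] at this
  linear_combination this

lemma five_eq : (5 : ℂ) = (1 - (z : ℂ)) * ((1 - (z : ℂ) ^ 2) * (1 - (z : ℂ) ^ 3) *
    (1 - (z : ℂ) ^ 4)) := by
  linear_combination (4 - 3 * (z : ℂ) - (z : ℂ) ^ 3 + 2 * (z : ℂ) ^ 5 - (z : ℂ) ^ 6) *
    sum_zero z hz

open Polynomial in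
/-- an integer which is divisible by `1 - z` is divisible by `5` -/
lemma five_dvd (m : ℤ) (h : ∃ γ ∈ Algebra.adjoin ℤ {(z : ℂ)}, (m : ℂ) + (1 - (z : ℂ)) * γ = 0) :
    (5 : ℤ) ∣ m := by
  obtain ⟨γ, hγ, h⟩ := h
  rw [Algebra.adjoin_singleton_eq_range_aeval] at hγ
  obtain ⟨P, rfl⟩ := hγ
  have h1 : aeval (z : ℂ) (C m + (1 - X) * P : ℤ[X]) = 0 := by
    simp only [map_add, map_mul, map_sub, map_one, aeval_X, aeval_C]
    exact h
  have h2 : minpoly ℤ (z : ℂ) ∣ (C m + (1 - X) * P : ℤ[X]) :=
    minpoly.isIntegrallyClosed_dvd (hz.isIntegral (by norm_num)) h1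
  rw [← cyclotomic_eq_minpoly hz (by norm_num)] at h2
  have h3 := eval_dvd (x := (1 : ℤ)) h2
  have : Fact (Nat.Prime 5) := ⟨by norm_num⟩
  rw [eval_one_cyclotomic_prime] at h3
  simp only [eval_add, eval_mul, eval_sub, eval_one, eval_X, eval_C, sub_self, zero_mul,
    add_zero] at h3
  exact_mod_cast h3

theorem second_order (o : List Bool) (W : List Slice) (hW : dirsAbove W o = some o)
    (hk : curves (closeUp o W) = 1) (v : ℕ → ℤ) (hv : SmoothWindings o W v) :
    ∃ γ ∈ Algebra.adjoin ℤ {(z : ℂ)}, beta z o W = (winding o : ℂ) ^ 2 +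
      2 * ((∑ k ∈ Finset.range W.length,
        signAt o W k * (winding o ^ 2 - v k ^ 2) : ℤ) : ℂ) * (1 - z) + (1 - z) ^ 2 * γ := by
  set B := Algebra.adjoin ℤ {(z : ℂ)} with hBdef
  have hzm : (z : ℂ) ∈ B := Algebra.subset_adjoin rfl
  set y : B := ⟨(z : ℂ), hzm⟩ with hy
  set I : Ideal B := Ideal.span {(1 - y) ^ 2} with hI
  set e : B ⧸ I := Ideal.Quotient.mk I (1 - y) with he
  have hee : e * e = 0 := by
    rw [he, ← map_mul, Ideal.Quotient.eq_zero_iff_mem, ← sq]
    exact Ideal.mem_span_singleton_self _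
  have h5B : (5 : B) = (1 - y) ^ 2 * (((1 + y) * (1 - y ^ 3) * (1 - y ^ 4))) := by
    apply Subtype.ext
    have := five_eq z hz
    show (5 : ℂ) = (1 - (z : ℂ)) ^ 2 * ((1 + (z : ℂ)) * (1 - (z : ℂ) ^ 3) * (1 - (z : ℂ) ^ 4))
    rw [this]
    ring
  have h5 : (5 : B ⧸ I) = 0 := by
    have h1 : (5 : B ⧸ I) = Ideal.Quotient.mk I (5 : B) :=
      (map_ofNat (Ideal.Quotient.mk I) 5).symm
    rw [h1, Ideal.Quotient.eq_zero_iff_mem, h5B]
    exact Ideal.mul_mem_right _ _ (Ideal.mem_span_singleton_self _)
  -- the homomorphism from `ZMod 5`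
  have hφ : Nonempty (ZMod 5 →+* B ⧸ I) := by
    refine ⟨(Ideal.Quotient.lift (Ideal.span {((5 : ℕ) : ℤ)}) (Int.castRingHom (B ⧸ I))
      ?_).comp (Int.quotientSpanNatEquivZMod 5).symm.toRingHom⟩
    intro a ha
    rw [Ideal.mem_span_singleton] at ha
    obtain ⟨c, rfl⟩ := ha
    rw [map_mul]
    have : (Int.castRingHom (B ⧸ I)) ((5 : ℕ) : ℤ) = 5 := by simp
    rw [this, h5, zero_mul]
  obtain ⟨φ⟩ := hφ
  have h1 := second_trace φ hee o W hW hk v hv
  -- the exponent
  set N : ℕ := ((-3 * signSum W o) % 5).toNat with hN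
  have hNz : ((z ^ (-3 * signSum W o) : ℂˣ) : ℂ) = (z : ℂ) ^ N := by
    have h5' : z ^ (5 : ℤ) = 1 := by
      ext
      push_cast
      exact_mod_cast hz.pow_eq_one
    have : z ^ (-3 * signSum W o) = z ^ N := by
      rw [← zpow_natCast, hN, Int.toNat_of_nonneg (Int.emod_nonneg _ (by norm_num))]
      conv_lhs => rw [← Int.emod_add_mul_ediv (-3 * signSum W o) 5, zpow_add, zpow_mul, h5',
        one_zpow, mul_one]
    rw [this, Units.val_pow_eq_pow_val]
  have hNR : ((N : ℕ) : B ⧸ I) = ((-3 * signSum W o : ℤ) : B ⧸ I) := by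
    have h2 : (N : ℤ) = (-3 * signSum W o) - 5 * ((-3 * signSum W o) / 5) := by
      rw [hN, Int.toNat_of_nonneg (Int.emod_nonneg _ (by norm_num))]
      have := Int.emod_add_mul_ediv (-3 * signSum W o) 5
      linarith
    have h3 : ((N : ℤ) : B ⧸ I) = ((-3 * signSum W o : ℤ) : B ⧸ I) := by
      rw [h2]
      push_cast
      rw [h5]
      ring
    rw [← h3]
    push_cast
    rfl
  have hpow : ∀ M : ℕ, (Ideal.Quotient.mk I y) ^ M = 1 - (M : B ⧸ I) * e := by
    intro M
    have hye : Ideal.Quotient.mk I y = 1 - e := by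
      rw [he, map_sub, map_one]
      ring
    rw [hye]
    induction M with
    | zero => simp
    | succ M ih =>
      rw [pow_succ, ih]
      push_cast
      linear_combination (M : B ⧸ I) * hee
  -- the element of `B`
  set b : B := y ^ N * trw g1 o.length (run (-y) W) with hb
  have hbeta : beta z o W = (b : ℂ) := by
    have h2 := run_map (B.val : B →+* ℂ) (-y) W o.length
    have e1 : (B.val : B →+* ℂ) (-y) = -(z : ℂ) := rfl
    rw [e1] at h2
    unfold beta
    rw [hNz, ← h2, hb]
    push_cast
    rfl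
  have hmk : Ideal.Quotient.mk I b = Ideal.Quotient.mk I
      (((winding o : ℤ) : B) ^ 2 + 2 * ((∑ k ∈ Finset.range W.length,
        signAt o W k * (winding o ^ 2 - v k ^ 2) : ℤ) : B) * (1 - y)) := by
    have h2 : Ideal.Quotient.mk I (trw g1 o.length (run (-y) W)) =
        trw g1 o.length (run (-1 + e) W) := by
      rw [run_map]
      congr 2
      rw [he, map_sub, map_neg, map_one]
      ring
    have hwr := signSum_eq W o o hW
    rw [hb, map_mul, map_pow, h2, h1, hpow, hNR]
    simp only [map_add, map_mul, map_pow, map_intCast, map_ofNat]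
    rw [← he, hwr]
    push_cast
    simp only [mul_sub, mul_add, Finset.sum_sub_distrib, Finset.sum_add_distrib]
    have e1 : ∀ c : B ⧸ I, ∑ k ∈ Finset.range W.length, ((signAt o W k : ℤ) : B ⧸ I) * c =
        (∑ k ∈ Finset.range W.length, ((signAt o W k : ℤ) : B ⧸ I)) * c := by
      intro c
      rw [Finset.sum_mul]
    have e2 : ∑ k ∈ Finset.range W.length,
        ((signAt o W k : ℤ) : B ⧸ I) * (2 * ((v k : ℤ) : B ⧸ I) ^ 2) =
        2 * ∑ k ∈ Finset.range W.length, ((signAt o W k : ℤ) : B ⧸ I) * ((v k : ℤ) : B ⧸ I) ^ 2 := by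
      rw [Finset.mul_sum]
      refine Finset.sum_congr rfl fun k _ => ?_
      ring
    rw [e1, e2]
    generalize (∑ k ∈ Finset.range W.length, ((signAt o W k : ℤ) : B ⧸ I)) = s
    generalize (∑ k ∈ Finset.range W.length,
      ((signAt o W k : ℤ) : B ⧸ I) * ((v k : ℤ) : B ⧸ I) ^ 2) = t
    linear_combination (-3 * s * (s * ((winding o : ℤ) : B ⧸ I) ^ 2 + 2 * t)) * hee
  rw [Ideal.Quotient.eq, Ideal.mem_span_singleton] at hmk
  obtain ⟨c, hc⟩ := hmk
  refine ⟨(c : ℂ), c.2, ?_⟩
  have h3 := congrArg (Subtype.val : B → ℂ) hc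
  push_cast at h3
  have e2 : ((2 : B) : ℂ) = 2 := rfl
  rw [e2] at h3
  rw [hbeta]
  push_cast
  linear_combination h3

/-- the factor is not zero -/
theorem beta_ne (o : List Bool) (W : List Slice) (hW : dirsAbove W o = some o)
    (hk : curves (closeUp o W) = 1)
    (h : ¬ (5 : ℤ) ∣ winding o ∨ ∃ v : ℕ → ℤ, SmoothWindings o W v ∧
      ¬ (5 : ℤ) ∣ ∑ k ∈ Finset.range W.length, signAt o W k * v k ^ 2) : beta z o W ≠ 0 := by
  intro h0
  have hzm : (z : ℂ) ∈ Algebra.adjoin ℤ {(z : ℂ)} := Algebra.subset_adjoin rfl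
  -- the winding number
  have h5w : (5 : ℤ) ∣ winding o := by
    obtain ⟨γ, hγ, h1⟩ := (satellites z hz o W hW).2.2 hk
    have h2 : (5 : ℤ) ∣ winding o ^ 2 := by
      refine five_dvd z hz _ ⟨γ, hγ, ?_⟩
      push_cast
      rw [← h1, h0]
    have h6 : Prime (5 : ℤ) := by norm_num
    exact h6.dvd_of_dvd_pow h2
  rcases h with h | ⟨v, hv, h⟩
  · exact h h5w
  obtain ⟨γ, hγ, h1⟩ := second_order z hz o W hW hk v hv
  obtain ⟨w', hw'⟩ := h5w
  rw [h0] at h1
  set S : ℤ := ∑ k ∈ Finset.range W.length, signAt o W k * (winding o ^ 2 - v k ^ 2) with hS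
  have hz1 : (1 : ℂ) - z ≠ 0 := by
    intro h2
    exact hz.ne_one (by norm_num) (by linear_combination -h2)
  have h5 := five_eq z hz
  set u : ℂ := (1 - (z : ℂ) ^ 2) * (1 - (z : ℂ) ^ 3) * (1 - (z : ℂ) ^ 4) with hu
  have hum : u ∈ Algebra.adjoin ℤ {(z : ℂ)} := by
    refine mul_mem (mul_mem ?_ ?_) ?_
    · exact sub_mem (one_mem _) (pow_mem hzm 2)
    · exact sub_mem (one_mem _) (pow_mem hzm 3)
    · exact sub_mem (one_mem _) (pow_mem hzm 4)
  have h2 : (5 : ℤ) ∣ 2 * S := by
    refine five_dvd z hz _ ⟨u ^ 2 * (w' : ℂ) ^ 2 + γ,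
      add_mem (mul_mem (pow_mem hum 2) (pow_mem (intCast_mem _ _) 2)) hγ, ?_⟩
    apply mul_left_cancel₀ hz1
    have h3 : (winding o : ℂ) = 5 * (w' : ℂ) := by
      rw [hw']
      push_cast
      ring
    rw [h3] at h1
    push_cast
    linear_combination -h1 - ((5 + (1 - (z : ℂ)) * u) * (w' : ℂ) ^ 2) * h5
  have h3 : (5 : ℤ) ∣ S := by omega
  have h4 : S = winding o * (winding o * ∑ k ∈ Finset.range W.length, signAt o W k) -
      ∑ k ∈ Finset.range W.length, signAt o W k * v k ^ 2 := by
    rw [hS, ← mul_assoc, Finset.mul_sum, ← Finset.sum_sub_distrib]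
    refine Finset.sum_congr rfl fun k _ => ?_
    ring
  apply h
  have h6 : ∑ k ∈ Finset.range W.length, signAt o W k * v k ^ 2 =
      winding o * (winding o * ∑ k ∈ Finset.range W.length, signAt o W k) - S := by
    rw [h4]
    ring
  rw [h6]
  exact dvd_sub (Dvd.dvd.mul_right ⟨w', hw'⟩ _) h3

end

end Pool.Agent.Helper77.Sat
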