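import Pool.Agent.Helper77.Sat.LocOps

/-!
# Module S: sliding through block crossings
-/

namespace Pool.Agent.Helper77.Sat

open Pool.Agent.Helper2

variable {R : Type} [CommRing R]

/-! ### Words of crossings -/

lemma sl_passRight_succ (l i : ℕ) (p : Bool) :
    passRight (l + 1) i p = passRight l i p ++ [Slice.cross (i + l) p] := by
  simp [passRight, List.range_succ]

lemma sl_passRight_add (u s i : ℕ) (p : Bool) :
    passRight (u + s) i p = passRight u i p ++ passRight s (i + u) p := by
  induction s with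
  | zero => simp [passRight]
  | succ s ih =>
    rw [← Nat.add_assoc, sl_passRight_succ, ih, sl_passRight_succ, List.append_assoc,
      Nat.add_assoc]

lemma sl_block_zero (l i : ℕ) (p : Bool) : blockCross 0 l i p = [] := rfl

lemma sl_block_succ (k l i : ℕ) (p : Bool) :
    blockCross (k + 1) l i p = passRight l (i + k) p ++ blockCross k l i p := by
  simp [blockCross, List.range_succ]

lemma sl_block_add (u s l i : ℕ) (p : Bool) :
    blockCross (u + s) l i p = blockCross s l (i + u) p ++ blockCross u l i p := by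
  induction s with
  | zero => simp [blockCross]
  | succ s ih =>
    rw [← Nat.add_assoc, sl_block_succ, ih, sl_block_succ, List.append_assoc, Nat.add_assoc]

lemma sl_block_width_zero (k i : ℕ) (p : Bool) : blockCross k 0 i p = [] := by
  induction k with
  | zero => rfl
  | succ k ih => rw [sl_block_succ, ih]; rfl

lemma sl_ok_passRight (l i : ℕ) (p : Bool) (N : ℕ) (h : i + l + 1 ≤ N) :
    Ok (passRight l i p) N N := by
  induction l with
  | zero => simp [passRight, Ok]
  | succ l ih =>
    rw [sl_passRight_succ]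
    exact ok_append _ _ _ _ _ (ih (by omega)) ⟨by omega, rfl⟩

theorem ok_blockCross (k l i : ℕ) (p : Bool) (N : ℕ) (h : i + k + l ≤ N) :
    Ok (blockCross k l i p) N N := by
  induction k with
  | zero => simp [sl_block_zero, Ok]
  | succ k ih =>
    rw [sl_block_succ]
    exact ok_append _ _ _ _ _ (sl_ok_passRight l (i + k) p N (by omega)) (ih (by omega))

lemma sl_supp (A : R) {w : List Slice} {N N' : ℕ} (h : Ok w N N') {ψ : Fn R}
    (hψ : PSupp N ψ) : PSupp N' (run A w ψ) := by
  simpa using (loc_run A w N N' h).supp 0 (by simp) hψ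

lemma sl_run_append (A : R) (w w' : List Slice) (ψ : Fn R) :
    run A (w ++ w') ψ = run A w' (run A w ψ) := by
  rw [run_append]; rfl

lemma sl_run_cross (A : R) (i : ℕ) (p : Bool) (ψ : Fn R) :
    run A [Slice.cross i p] ψ = liftM i (crossL A p) ψ := rfl

lemma sl_passRight_shift (A : R) (l i j : ℕ) (p : Bool) (n : ℕ) (ψ : Fn R)
    (hψ : PSupp (i + n) ψ) :
    run A (passRight l (i + j) p) ψ = liftM i (run A (passRight l j p)) ψ := by
  induction l with
  | zero =>
    change ψ = liftM i LinearMap.id ψ
    exact (liftM_id (by omega) ψ hψ).symm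
  | succ l ih =>
    rw [sl_passRight_succ, sl_passRight_succ, sl_run_append, run_append, liftM_comp, ih]
    change liftM (i + j + l) (crossL A p) _ = liftM i (liftM (j + l) (crossL A p)) _
    rw [liftM_liftM]
    congr 2
    omega

lemma sl_block_shift (A : R) (k l i j : ℕ) (p : Bool) (n : ℕ) (h : j + k + l ≤ n) (ψ : Fn R)
    (hψ : PSupp (i + n) ψ) :
    run A (blockCross k l (i + j) p) ψ = liftM i (run A (blockCross k l j p)) ψ := by
  induction k generalizing ψ with
  | zero =>
    change ψ = liftM i LinearMap.id ψ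
    exact (liftM_id (by omega) ψ hψ).symm
  | succ k ih =>
    have h1 : PSupp (i + n) (run A (passRight l (i + (j + k)) p) ψ) :=
      sl_supp A (sl_ok_passRight l _ p _ (by omega)) hψ
    rw [sl_block_succ, sl_block_succ, sl_run_append, run_append, liftM_comp, Nat.add_assoc i j k,
      ih (by omega) _ h1]
    rw [sl_passRight_shift A l i (j + k) p n ψ hψ]
    rfl

/-- shifting a block crossing -/
theorem run_blockCross_shift (A : R) (k l i : ℕ) (p : Bool) (n : ℕ) (ψ : Fn R)
    (hψ : PSupp (i + (k + l) + n) ψ) :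
    run A (blockCross k l i p) ψ = liftM i (run A (blockCross k l 0 p)) ψ := by
  have h := sl_block_shift A k l i 0 p (k + l + n) (by omega) ψ (by rwa [← Nat.add_assoc])
  simpa using h

/-! ### One more strand on the right -/

lemma sl_block_right (A : R) (s l : ℕ) (p : Bool) (N : ℕ) (hN : s + l + 1 ≤ N) (ψ : Fn R)
    (hψ : PSupp N ψ) :
    run A (blockCross s (l + 1) 0 p) ψ =
      run A (blockCross s 1 l p) (run A (blockCross s l 0 p) ψ) := by
  induction s generalizing ψ with
  | zero => rfl
  | succ s ih =>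
    have h1 : PSupp N (run A (passRight l (0 + s) p) ψ) :=
      sl_supp A (sl_ok_passRight l _ p _ (by omega)) hψ
    have h2 : PSupp N (run A [Slice.cross (0 + s + l) p] (run A (passRight l (0 + s) p) ψ)) :=
      sl_supp A (w := [Slice.cross (0 + s + l) p]) (N := N) (N' := N)
        (show Ok [Slice.cross (0 + s + l) p] N N from ⟨by omega, rfl⟩) h1
    rw [sl_block_succ, sl_passRight_succ, sl_run_append, sl_run_append, ih (by omega) _ h2,
      sl_block_succ s l, sl_run_append, sl_block_succ s 1, sl_run_append, sl_run_cross]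
    have h3 : passRight 1 (l + s) p = [Slice.cross (l + s) p] := by
      simp [passRight]
    rw [h3, sl_run_cross]
    obtain ⟨k, hk⟩ : ∃ k, N = s + l + 2 + k := ⟨N - (s + l + 2), by omega⟩
    have h4 := interchange (loc_run A (blockCross s l 0 p) (s + l) (s + l)
      (ok_blockCross s l 0 p _ (by omega))) (loc_crossL A p) k
      (run A (passRight l (0 + s) p) ψ) (by rw [← hk]; exact h1)
    have e1 : 0 + s + l = s + l := by omega
    have e2 : l + s = s + l := by omega
    rw [e1, h4, e2]

lemma sl_left0 {A : R} {s s' : ℕ} {T : Fn R →ₗ[R] Fn R} (hT : Loc s s' T)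
    (hs : Slides A s s' T) (l n : ℕ) (p : Bool) (ψ : Fn R) (hψ : PSupp (s + l + n) ψ) :
    run A (blockCross s' l 0 p) (T ψ) = liftM l T (run A (blockCross s l 0 p) ψ) := by
  induction l generalizing n with
  | zero =>
    rw [sl_block_width_zero, sl_block_width_zero, liftM_zero]
    rfl
  | succ l ih =>
    have h1 : PSupp (s' + (l + 1 + n)) (T ψ) := hT.supp (l + 1 + n) (by omega) hψ
    have h2 : PSupp (s + l + 1 + n) ψ := by
      convert hψ using 1; omega
    have h3 : PSupp (s + l + (n + 1)) ψ := by
      convert hψ using 1; omega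
    have h4 : PSupp (l + s + (1 + n)) (run A (blockCross s l 0 p) ψ) :=
      sl_supp A (ok_blockCross s l 0 p _ (by omega)) (by convert hψ using 1; omega)
    have h5 : PSupp (l + s' + (1 + n)) (liftM l T (run A (blockCross s l 0 p) ψ)) :=
      (hT.lift l).supp (1 + n) rfl h4
    rw [sl_block_right A s' l p _ (by omega) _ h1, ih (n + 1) h3,
      sl_block_right A s l p _ (by omega) _ h2]
    have h6 := sl_block_shift A s' 1 l 0 p (s' + (1 + n)) (by omega)
      (liftM l T (run A (blockCross s l 0 p) ψ)) (by rw [← Nat.add_assoc]; exact h5)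
    have h7 := sl_block_shift A s 1 l 0 p (s + (1 + n)) (by omega)
      (run A (blockCross s l 0 p) ψ) (by rw [← Nat.add_assoc]; exact h4)
    rw [Nat.add_zero] at h6 h7
    rw [h6, h7]
    have h8 := liftM_congr (n := s + 1 + n) (i := l)
      (S := run A (blockCross s' 1 0 p) ∘ₗ T) (T := liftM 1 T ∘ₗ run A (blockCross s 1 0 p))
      (fun φ hφ => hs.1 p n φ hφ) (run A (blockCross s l 0 p) ψ)
      (by convert h4 using 1; omega)
    rw [liftM_comp, liftM_comp, liftM_liftM, Nat.add_comm 1 l] at h8
    exact h8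

lemma sl_comm (A : R) {w : List Slice} {N : ℕ} (hw : Ok w N N) {s s' : ℕ}
    {T : Fn R →ₗ[R] Fn R} (hT : Loc s s' T) (k : ℕ) (ψ : Fn R) (hψ : PSupp (N + s + k) ψ) :
    run A w (liftM N T ψ) = liftM N T (run A w ψ) :=
  interchange (loc_run A w N N hw) hT k ψ hψ

theorem slides_left {A : R} {s s' : ℕ} {T : Fn R →ₗ[R] Fn R} (hT : Loc s s' T)
    (hs : Slides A s s' T) (u l n : ℕ) (p : Bool) (ψ : Fn R) (hψ : PSupp (u + s + l + n) ψ) :
    run A (blockCross (u + s') l 0 p) (liftM u T ψ) =
      liftM (l + u) T (run A (blockCross (u + s) l 0 p) ψ) := by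
  have h1 : PSupp (u + s' + (l + n)) (liftM u T ψ) :=
    (hT.lift u).supp (l + n) (by omega) hψ
  rw [sl_block_add, sl_block_add, sl_run_append, sl_run_append]
  have h2 := sl_block_shift A s' l u 0 p (s' + (l + n)) (by omega) (liftM u T ψ)
    (by rw [← Nat.add_assoc]; exact h1)
  have h3 := sl_block_shift A s l u 0 p (s + (l + n)) (by omega) ψ
    (by convert hψ using 1; omega)
  have h4 := liftM_congr (n := s + l + n) (i := u)
    (S := run A (blockCross s' l 0 p) ∘ₗ T) (T := liftM l T ∘ₗ run A (blockCross s l 0 p))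
    (fun φ hφ => sl_left0 hT hs l n p φ hφ) ψ (by convert hψ using 1; omega)
  rw [liftM_comp, liftM_comp, liftM_liftM] at h4
  rw [Nat.add_zero] at h2 h3
  rw [Nat.zero_add, h2]
  have h5 : liftM u (run A (blockCross s' l 0 p)) (liftM u T ψ) =
      liftM (l + u) T (run A (blockCross s l u p) ψ) := by
    rw [h3]
    exact h4
  rw [h5]
  refine sl_comm A (ok_blockCross u l 0 p _ (by omega)) hT n _ ?_
  exact sl_supp A (ok_blockCross s l u p _ (by omega)) (by convert hψ using 1; omega)

lemma sl_pass {A : R} {s s' : ℕ} {T : Fn R →ₗ[R] Fn R} (hT : Loc s s' T)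
    (hs : Slides A s s' T) (u n : ℕ) (p : Bool) (ψ : Fn R) (hψ : PSupp (u + s + 1 + n) ψ) :
    run A (passRight (u + s') 0 p) (liftM (1 + u) T ψ) =
      liftM u T (run A (passRight (u + s) 0 p) ψ) := by
  rw [sl_passRight_add, sl_passRight_add, sl_run_append, sl_run_append,
    sl_comm A (sl_ok_passRight u 0 p (1 + u) (by omega)) hT n ψ (by convert hψ using 1; omega)]
  have h1 : PSupp (u + s + 1 + n) (run A (passRight u 0 p) ψ) :=
    sl_supp A (sl_ok_passRight u 0 p _ (by omega)) hψ
  have h2 : PSupp (1 + u + s' + n) (liftM (1 + u) T (run A (passRight u 0 p) ψ)) :=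
    (hT.lift (1 + u)).supp n (by omega) h1
  have h3 := sl_passRight_shift A s' u 0 p (1 + s' + n)
    (liftM (1 + u) T (run A (passRight u 0 p) ψ)) (by convert h2 using 1; omega)
  have h4 := sl_passRight_shift A s u 0 p (s + 1 + n) (run A (passRight u 0 p) ψ)
    (by convert h1 using 1; omega)
  have h5 := liftM_congr (n := s + 1 + n) (i := u)
    (S := run A (passRight s' 0 p) ∘ₗ liftM 1 T) (T := T ∘ₗ run A (passRight s 0 p))
    (fun φ hφ => hs.2 p n φ hφ) (run A (passRight u 0 p) ψ) (by convert h1 using 1; omega)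
  rw [liftM_comp, liftM_comp, liftM_liftM] at h5
  rw [Nat.add_zero] at h3 h4
  rw [Nat.zero_add, h3, h4]
  exact h5

theorem slides_right {A : R} {s s' : ℕ} {T : Fn R →ₗ[R] Fn R} (hT : Loc s s' T)
    (hs : Slides A s s' T) (u l n : ℕ) (p : Bool) (ψ : Fn R) (hψ : PSupp (l + u + s + n) ψ) :
    run A (blockCross l (u + s') 0 p) (liftM (l + u) T ψ) =
      liftM u T (run A (blockCross l (u + s) 0 p) ψ) := by
  induction l generalizing n ψ with
  | zero => rw [sl_block_zero, sl_block_zero, Nat.zero_add]; rfl
  | succ l ih =>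
    rw [sl_block_succ, sl_block_succ, sl_run_append, sl_run_append, Nat.zero_add]
    have h1 : PSupp (l + 1 + u + s' + n) (liftM (l + 1 + u) T ψ) :=
      (hT.lift (l + 1 + u)).supp n rfl hψ
    have h2 := sl_passRight_shift A (u + s') l 0 p (1 + u + s' + n) (liftM (l + 1 + u) T ψ)
      (by convert h1 using 1; omega)
    have h3 := sl_passRight_shift A (u + s) l 0 p (1 + u + s + n) ψ
      (by convert hψ using 1; omega)
    have h4 := liftM_congr (n := u + s + 1 + n) (i := l)
      (S := run A (passRight (u + s') 0 p) ∘ₗ liftM (1 + u) T)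
      (T := liftM u T ∘ₗ run A (passRight (u + s) 0 p))
      (fun φ hφ => sl_pass hT hs u n p φ hφ) ψ (by convert hψ using 1; omega)
    rw [liftM_comp, liftM_comp, liftM_liftM, liftM_liftM] at h4
    rw [Nat.add_zero] at h2 h3
    have h5 : run A (passRight (u + s') l p) (liftM (l + 1 + u) T ψ) =
        liftM (l + u) T (run A (passRight (u + s) l p) ψ) := by
      rw [h2, h3]
      have e1 : 1 + u + l = l + 1 + u := by omega
      have e2 : u + l = l + u := by omega
      rw [e1, e2] at h4
      exact h4
    rw [h5]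
    refine ih (n + 1) _ ?_
    have h6 : PSupp (l + 1 + u + s + n) (run A (passRight (u + s) l p) ψ) :=
      sl_supp A (sl_ok_passRight (u + s) l p _ (by omega)) hψ
    convert h6 using 1
    omega

end Pool.Agent.Helper77.Sat
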