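import Pool.Agent.Helper77.Sat.Base

/-!
# Smoothings against the directions, and the trace to first order
-/

namespace Pool.Agent.Helper77.Sat

open Pool.Agent.Helper2

/-- Forget the direction of a local minimum. -/
def forget : Slice → Slice
  | .cup i _ => .cup i true
  | s => s

/-- With suitable directions, the stack of pieces `w` from `n` strands to `n` strands is a pattern
which is a knot with winding number `v`. -/
def IsKnotPattern (n : ℕ) (w : List Slice) (v : ℤ) : Prop :=
  ∃ (o' : List Bool) (w' : List Slice), o'.length = n ∧ w'.map forget = w.map forget ∧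
    dirsAbove w' o' = some o' ∧ curves (closeUp o' w') = 1 ∧ winding o' = v

/-- The directions of the strands below the piece number `k` of the pattern `(o, W)`. -/
def level (o : List Bool) (W : List Slice) (k : ℕ) : List Bool :=
  (dirsAbove (W.take k) o).getD []

/-- The sign of the piece number `k` (which is `0` if it is not a crossing). -/
def signAt (o : List Bool) (W : List Slice) (k : ℕ) : ℤ :=
  ((W[k]?).map fun s => s.sign (level o W k)).getD 0

/-- The pattern `(o, W)` with the crossing number `k` smoothed against the directions: two strands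
which cross in the same direction are joined by a cap and a cup, and two strands which cross in
opposite directions are replaced by two vertical strands. -/
def smoothAgainst (o : List Bool) (W : List Slice) (k : ℕ) : List Slice :=
  W.take k ++ (match W[k]? with
    | some (.cross i _) =>
        if (level o W k)[i]? = (level o W k)[i + 1]? then [.cap i, .cup i true] else []
    | _ => []) ++ W.drop (k + 1)

variable {R : Type} [CommRing R]

/-- the sign of the vertical smoothing -/
def phat (p : Bool) : R := if p then 1 else -1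

lemma sm_run_cons (A : R) (s : Slice) (w : List Slice) : run A (s :: w) = run A w ∘ₗ act A s := rfl

lemma act_forget (A : R) (s : Slice) : act A (forget s) = act A s := by
  cases s <;> rfl

lemma run_forget (A : R) (w : List Slice) : run A (w.map forget) = run A w := by
  induction w with
  | nil => rfl
  | cons s w ih => rw [List.map_cons, sm_run_cons, sm_run_cons, ih, act_forget]

lemma sm_cross (A : R) (i n : ℕ) (p : Bool) (ψ : Fn R) (hi : i + 2 ≤ n)
    (hψ : PSupp n ψ) : liftM i (crossL A p) ψ =
      ca A p • ψ + cb A p • liftM i (cupL A) (liftM i (capL A) ψ) := by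
  funext l
  show lift (x0 A p) i ψ l = ca A p * ψ l +
    cb A p * lift (pCup0 (dd A)) i (lift (pCap0 (dd A)) i ψ) l
  by_cases hlen : l.length < i
  · rw [lift_short _ _ _ _ hlen, lift_short _ _ _ _ hlen]
    have : ψ l = 0 := by
      by_contra h
      have := (hψ l h).1
      omega
    rw [this]; ring
  obtain ⟨q, r, rfl, rfl⟩ := split_list l i (by omega)
  have h1 := lift_comp_append (pCup0 (dd A)) (pCap0 (dd A)) q 0 0 ψ r
  simp only [Nat.add_zero, lift_zero, lift_zero'] at h1
  rw [lift_append, h1]
  have hsh : ∀ r : List Bool, r.length < 3 → ψ (q ++ r) = 0 := by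
    intro r hr
    by_contra h
    have := (hψ _ h).1
    rw [List.length_append] at this
    omega
  rcases r with _ | ⟨a, _ | ⟨b, _ | ⟨c, r⟩⟩⟩
  · rw [hsh [] (by simp)]
    simp [x0, pCup0]
  · simp [x0, pCup0, hsh [a] (by simp)]
  · simp [x0, pCup0, hsh [a, b] (by simp)]
  · have hleg : ¬((a || b) = true ∧ (b || c) = true) → ψ (q ++ a :: b :: c :: r) = 0 := by
      intro h
      by_contra h0
      have := legal_right _ _ (hψ _ h0).2
      exact h ⟨this.1, this.2.1⟩
    simp only [x0]
    by_cases hc : (a || b) = true ∧ (b || c) = true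
    · rw [if_pos hc]
    · rw [if_neg hc, hleg hc]
      simp only [pCup0]
      rw [if_neg]
      · ring
      · rintro ⟨rfl, h2⟩
        apply hc
        refine ⟨h2, ?_⟩
        rw [Bool.or_comm]; exact h2

section
variable {e : R} (he : e * e = 0) (h5 : (5 : R) = 0)
include he h5

lemma sm_dd : dd (-1 + e) = dd (-1 : R) := by
  unfold dd
  linear_combination (e - 4) * he + e * h5

lemma sm_ca (p : Bool) : ca (-1 + e) p = -1 + phat p * e := by
  cases p
  · simp only [ca, phat, Bool.false_eq_true, if_false]
    linear_combination (-e * e + 4 * e - 6) * he + e * h5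
  · simp [ca, phat]

lemma sm_cb (p : Bool) : cb (-1 + e) p = -1 - phat p * e := by
  cases p
  · simp [cb, phat]
  · simp only [cb, phat, if_true]
    linear_combination (-e * e + 4 * e - 6) * he + e * h5

end

/-- the contribution of the piece number `k` to the first order term -/
noncomputable def dterm (W : List Slice) (k : ℕ) : Fn R →ₗ[R] Fn R :=
  match W[k]? with
  | some (.cross i p) => (phat p : R) • (run (-1) (W.take k ++ W.drop (k + 1)) -
      run (-1) (W.take k ++ (.cap i :: .cup i true :: W.drop (k + 1))))
  | _ => 0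

lemma dterm_succ (s : Slice) (W : List Slice) (k : ℕ) :
    (dterm (s :: W) (k + 1) : Fn R →ₗ[R] Fn R) = dterm W k ∘ₗ act (-1) s := by
  unfold dterm
  simp only [List.getElem?_cons_succ, List.take_succ_cons, List.drop_succ_cons, List.cons_append]
  cases h : W[k]? with
  | none => rfl
  | some t =>
    cases t with
    | cup i u => rfl
    | cap i => rfl
    | cross i p =>
      simp only [sm_run_cons]
      rfl

theorem first_order {e : R} (he : e * e = 0) (h5 : (5 : R) = 0) (W : List Slice) :
    ∀ (n m : ℕ) (ψ : Fn R), Ok W n m → PSupp n ψ → run (-1 + e) W ψ = run (-1) W ψ +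
      e • ∑ k ∈ Finset.range W.length, dterm W k ψ := by
  induction W with
  | nil => intro n m ψ _ _; simp [run]
  | cons s W ih =>
    intro n m ψ hW hψ
    rw [List.length_cons, Finset.sum_range_succ']
    simp only [dterm_succ, LinearMap.comp_apply, sm_run_cons]
    -- the next height
    obtain ⟨n', hn', hs⟩ : ∃ n', Ok W n' m ∧ Ok [s] n n' := by
      cases s with
      | cup i u => exact ⟨n + 2, hW.2, hW.1, rfl⟩
      | cap i => exact ⟨n - 2, hW.2, hW.1, rfl⟩
      | cross i p => exact ⟨n, hW.2, hW.1, rfl⟩
    have hψ' : ∀ (A : R), PSupp n' (act A s ψ) := fun A =>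
      (loc_run A [s] n n' hs).supp 0 rfl hψ
    have hsq : ∀ (χ : Fn R) , PSupp n' χ → e • run (-1 + e) W χ = e • run (-1) W χ := by
      intro χ hχ
      rw [ih n' m χ hn' hχ, smul_add, smul_smul, he, zero_smul, add_zero]
    have key : ∃ χ : Fn R, PSupp n' χ ∧ act (-1 + e) s ψ = act (-1) s ψ + e • χ ∧
        dterm (s :: W) 0 ψ = run (-1) W χ := by
      cases s with
      | cup i u =>
        refine ⟨0, fun l hl => absurd rfl hl, ?_, ?_⟩
        · rw [smul_zero, add_zero]
          unfold act cupL
          simp only [sm_dd he h5]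
        · rw [map_zero]
          rfl
      | cap i =>
        refine ⟨0, fun l hl => absurd rfl hl, ?_, ?_⟩
        · rw [smul_zero, add_zero]
          unfold act capL
          simp only [sm_dd he h5]
        · rw [map_zero]
          rfl
      | cross i p =>
        have hi : i + 2 ≤ n := hW.1
        have hE : PSupp n (liftM i (cupL (-1 : R)) (liftM i (capL (-1)) ψ)) := by
          have h1 : Ok [.cap i, .cup i true] n n := ⟨hi, by omega, by simp only [Ok]; omega⟩
          exact (loc_run (-1 : R) _ n n h1).supp 0 rfl hψ
        have hn : n' = n := by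
          have := hs.2
          simp only [Ok] at this
          exact this.symm
        subst hn
        refine ⟨(phat p : R) • (ψ - liftM i (cupL (-1 : R)) (liftM i (capL (-1)) ψ)), ?_, ?_, ?_⟩
        · intro l hl
          by_cases h0 : ψ l = 0
          · by_cases h1 : liftM i (cupL (-1 : R)) (liftM i (capL (-1)) ψ) l = 0
            · exfalso
              apply hl
              rw [Pi.smul_apply, Pi.sub_apply, h0, h1, sub_zero, smul_zero]
            · exact hE l h1
          · exact hψ l h0
        · show liftM i (crossL (-1 + e) p) ψ = liftM i (crossL (-1) p) ψ + _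
          rw [sm_cross _ i n' p ψ hi hψ, sm_cross _ i n' p ψ hi hψ, sm_ca he h5, sm_cb he h5]
          have h0 : (-1 : R) ^ 4 = 1 := by ring
          have h1 : ca (-1 : R) p = -1 := by cases p <;> simp [ca, h0]
          have h2 : cb (-1 : R) p = -1 := by cases p <;> simp [cb, h0]
          have h3 : (cupL (-1 + e) : Fn R →ₗ[R] Fn R) = cupL (-1) := by
            unfold cupL
            simp only [sm_dd he h5]
          have h4 : (capL (-1 + e) : Fn R →ₗ[R] Fn R) = capL (-1) := by
            unfold capL
            simp only [sm_dd he h5]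
          rw [h1, h2, h3, h4]
          funext l
          simp only [Pi.add_apply, Pi.smul_apply, Pi.sub_apply, smul_eq_mul]
          ring
        · show ((phat p : R) • (run (-1 : R) W - run (-1 : R) (.cap i :: .cup i true :: W)) :
            Fn R →ₗ[R] Fn R) ψ = _
          rw [map_smul, map_sub]
          rfl
    obtain ⟨χ, hχ, h1, h2⟩ := key
    rw [h1, map_add, map_smul, hsq χ hχ, ih n' m _ hn' (hψ' (-1)), h2, smul_add, add_assoc]

/-- the trace to first order -/
theorem trace_first_order {e : R} (he : e * e = 0) (h5 : (5 : R) = 0) (W : List Slice)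
    (g : List Bool → R) (n : ℕ) (hW : Ok W n n) :
    trw g n (run (-1 + e) W) = trw g n (run (-1) W) +
      e * ∑ k ∈ Finset.range W.length, trw g n (dterm W k) := by
  have h1 : trw g n (run (-1 + e) W) =
      trw g n (run (-1) W + e • ∑ k ∈ Finset.range W.length, dterm W k) := by
    refine trw_congr g fun ψ hψ => ?_
    rw [first_order he h5 W n n ψ hW hψ, LinearMap.add_apply, LinearMap.smul_apply,
      LinearMap.sum_apply]
  rw [h1, trw_add, trw_smul]
  congr 2
  unfold trw
  rw [Finset.sum_comm]
  refine Finset.sum_congr rfl fun p _ => ?_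
  rw [LinearMap.sum_apply, Finset.sum_apply, Finset.mul_sum]

lemma ok_split (w w' : List Slice) : ∀ n k, Ok (w ++ w') n k → ∃ m, Ok w n m ∧ Ok w' m k := by
  induction w with
  | nil => intro n k h; exact ⟨n, rfl, h⟩
  | cons s w ih =>
    intro n k h
    cases s with
    | cup i u => obtain ⟨m, h1, h2⟩ := ih _ _ h.2; exact ⟨m, ⟨h.1, h1⟩, h2⟩
    | cap i => obtain ⟨m, h1, h2⟩ := ih _ _ h.2; exact ⟨m, ⟨h.1, h1⟩, h2⟩
    | cross i p => obtain ⟨m, h1, h2⟩ := ih _ _ h.2; exact ⟨m, ⟨h.1, h1⟩, h2⟩

/-- the three resolutions of a crossing at `A = -1` -/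
theorem trace_cross (g : List Bool → R) (W₁ W₂ : List Slice) (i : ℕ) (p : Bool) (n : ℕ)
    (hW : Ok (W₁ ++ .cross i p :: W₂) n n) :
    trw g n (run (-1) (W₁ ++ .cross i p :: W₂)) =
      -trw g n (run (-1) (W₁ ++ W₂)) -
        trw g n (run (-1) (W₁ ++ .cap i :: .cup i true :: W₂)) := by
  obtain ⟨m, h1, h2⟩ := ok_split _ _ _ _ hW
  have e1 : -trw g n (run (-1) (W₁ ++ W₂)) -
      trw g n (run (-1) (W₁ ++ .cap i :: .cup i true :: W₂)) =
      trw g n ((-1 : R) • run (-1) (W₁ ++ W₂) +
        (-1 : R) • run (-1) (W₁ ++ .cap i :: .cup i true :: W₂)) := by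
    rw [trw_add, trw_smul, trw_smul]
    ring
  rw [e1]
  refine trw_congr g fun ψ hψ => ?_
  have h3 : PSupp m (run (-1 : R) W₁ ψ) := (loc_run (-1 : R) W₁ n m h1).supp 0 rfl hψ
  rw [run_append, run_append, run_append, LinearMap.add_apply, LinearMap.smul_apply,
    LinearMap.smul_apply]
  simp only [LinearMap.comp_apply, sm_run_cons]
  have h4 : act (-1 : R) (.cross i p) (run (-1) W₁ ψ) =
      (-1 : R) • run (-1) W₁ ψ +
        (-1 : R) • act (-1) (.cup i true) (act (-1) (.cap i) (run (-1) W₁ ψ)) := by
    show liftM i (crossL (-1) p) _ = _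
    rw [sm_cross (-1) i m p _ h2.1 h3]
    have h0 : (-1 : R) ^ 4 = 1 := by ring
    have h5 : ca (-1 : R) p = -1 := by cases p <;> simp [ca, h0]
    have h6 : cb (-1 : R) p = -1 := by cases p <;> simp [cb, h0]
    rw [h5, h6]
    rfl
  rw [h4, map_add, map_smul, map_smul]

end Pool.Agent.Helper77.Sat
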