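import Pool.Agent.Helper77.Sat.Unique

/-!
# Module V: the vertex model
-/

namespace Pool.Agent.Helper77.Sat

open Pool.Agent.Helper2

variable {R : Type} [CommRing R]

/-- Cup of the vertex model (with `A = -1`, loop value `-2`). -/
def vCup0 (ψ : List Bool → ℤ) : List Bool → ℤ
  | x :: y :: l => if x = y then 0 else (if x then 1 else -1) * ψ l
  | _ => 0

/-- Cap of the vertex model. -/
def vCap0 (ψ : List Bool → ℤ) (l : List Bool) : ℤ := ψ (false :: true :: l) - ψ (true :: false :: l)

/-- Crossing of the vertex model. -/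
def vX0 (ψ : List Bool → ℤ) : List Bool → ℤ
  | x :: y :: l => -ψ (y :: x :: l)
  | _ => 0

/-- The operators of the vertex model. -/
def vOps : Ops (List Bool → ℤ) where
  cup := lift vCup0
  cap := lift vCap0
  cross i _ := lift vX0 i

/-- The trace of the vertex model, with the weight `f (number of up minus number of down)`. -/
noncomputable def vTr (f : ℤ → ℤ) (n : ℕ) (w : List Slice) : ℤ :=
  (-1) ^ n * ∑ y ∈ lists n, f (winding y) * vOps.run w (Pi.single y 1) y

/-! ### Linearity -/

lemma vCup0_lin : Lin2 vCup0 := by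
  intro φ₁ φ₂ c₁ c₂
  funext l
  rcases l with _ | ⟨a, _ | ⟨b, l⟩⟩
  · simp [vCup0]
  · simp [vCup0]
  · simp only [vCup0]
    split_ifs <;> ring

lemma vCap0_lin : Lin2 vCap0 := by
  intro φ₁ φ₂ c₁ c₂
  funext l
  simp only [vCap0]
  ring

lemma vX0_lin : Lin2 vX0 := by
  intro φ₁ φ₂ c₁ c₂
  funext l
  rcases l with _ | ⟨a, _ | ⟨b, l⟩⟩
  · simp [vX0]
  · simp [vX0]
  · simp only [vX0]
    ring

/-- The operator of a piece, as a linear map. -/
def vAct : Slice → (List Bool → ℤ) →ₗ[ℤ] (List Bool → ℤ)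
  | .cup i _ => liftL vCup0 vCup0_lin i
  | .cap i => liftL vCap0 vCap0_lin i
  | .cross i _ => liftL vX0 vX0_lin i

/-- The operator of a stack of pieces, as a linear map. -/
def vRun : List Slice → (List Bool → ℤ) →ₗ[ℤ] (List Bool → ℤ)
  | [] => LinearMap.id
  | s :: w => vRun w ∘ₗ vAct s

lemma vAct_apply (s : Slice) (ψ : List Bool → ℤ) : vAct s ψ = vOps.act s ψ := by
  cases s <;> rfl

lemma vRun_apply (w : List Slice) : ∀ ψ, vRun w ψ = vOps.run w ψ := by
  induction w with
  | nil => intro ψ; rfl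
  | cons s w ih =>
    intro ψ
    simp only [vRun, LinearMap.comp_apply, Ops.run]
    rw [ih, vAct_apply]

lemma vRun_append (u v : List Slice) (ψ : List Bool → ℤ) :
    vRun (u ++ v) ψ = vRun v (vRun u ψ) := by
  rw [vRun_apply, vRun_apply, vRun_apply, Ops.run_append]

/-! ### Supports -/

/-- Supported on lists of length `n` and winding number `t`. -/
def VSupp (n : ℕ) (t : ℤ) (ψ : List Bool → ℤ) : Prop :=
  ∀ l, ψ l ≠ 0 → l.length = n ∧ winding l = t

/-- Supported on lists of length `n`. -/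
def VLen (n : ℕ) (ψ : List Bool → ℤ) : Prop := ∀ l, ψ l ≠ 0 → l.length = n

lemma VSupp.len {n : ℕ} {t : ℤ} {ψ : List Bool → ℤ} (h : VSupp n t ψ) : VLen n ψ :=
  fun l hl => (h l hl).1

lemma VLen.ext {n : ℕ} {φ ψ : List Bool → ℤ} (h : VLen n φ) (h' : VLen n ψ)
    (H : ∀ l, l.length = n → φ l = ψ l) : φ = ψ := by
  funext l
  by_cases h1 : l.length = n
  · exact H l h1
  · have h2 : φ l = 0 := by
      by_contra hne
      exact h1 (h l hne)
    have h3 : ψ l = 0 := by
      by_contra hne
      exact h1 (h' l hne)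
    rw [h2, h3]

lemma vtx_winding_append (p q : List Bool) : winding (p ++ q) = winding p + winding q := by
  simp [winding]

lemma vtx_winding_cons (a : Bool) (q : List Bool) :
    winding (a :: q) = (if a then 1 else -1) + winding q := by
  simp [winding]

lemma vtx_winding_nil : winding [] = 0 := by simp [winding]

lemma vCup_supp (n i : ℕ) (t : ℤ) (ψ : List Bool → ℤ) (_hi : i ≤ n) (h : VSupp n t ψ) :
    VSupp (n + 2) t (lift vCup0 i ψ) := by
  intro l hl
  by_cases hlen : l.length < i
  · exact absurd (lift_short _ _ _ _ hlen) hl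
  obtain ⟨p, r, rfl, rfl⟩ := split_list l i (by omega)
  rw [lift_append] at hl
  rcases r with _ | ⟨a, _ | ⟨b, r⟩⟩ <;> simp only [vCup0] at hl
  · exact absurd rfl hl
  · exact absurd rfl hl
  · split_ifs at hl with h1 h2
    · exact absurd rfl hl
    · have h3 := h _ (right_ne_zero_of_mul hl)
      have hb : b = false := by cases b <;> simp_all
      subst hb
      refine ⟨by have := h3.1; simp at this ⊢; omega, ?_⟩
      have h4 := h3.2
      rw [vtx_winding_append] at h4 ⊢
      rw [vtx_winding_cons, vtx_winding_cons]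
      simp [h2]
      exact h4
    · have h3 := h _ (right_ne_zero_of_mul hl)
      have ha : a = false := by cases a <;> simp_all
      have hb : b = true := by cases b <;> simp_all
      subst ha hb
      refine ⟨by have := h3.1; simp at this ⊢; omega, ?_⟩
      have h4 := h3.2
      rw [vtx_winding_append] at h4 ⊢
      rw [vtx_winding_cons, vtx_winding_cons]
      simp
      exact h4

lemma vCap_supp (n i : ℕ) (t : ℤ) (ψ : List Bool → ℤ) (_hi : i ≤ n) (h : VSupp (n + 2) t ψ) :
    VSupp n t (lift vCap0 i ψ) := by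
  intro l hl
  by_cases hlen : l.length < i
  · exact absurd (lift_short _ _ _ _ hlen) hl
  obtain ⟨p, r, rfl, rfl⟩ := split_list l i (by omega)
  rw [lift_append] at hl
  simp only [vCap0] at hl
  have key : ψ (p ++ false :: true :: r) ≠ 0 ∨ ψ (p ++ true :: false :: r) ≠ 0 := by
    by_contra hcon
    push Not at hcon
    apply hl
    rw [hcon.1, hcon.2]
    simp
  rcases key with hk | hk
  · have h3 := h _ hk
    have h4 := h3.2
    rw [vtx_winding_append, vtx_winding_cons, vtx_winding_cons] at h4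
    refine ⟨by have := h3.1; simp at this ⊢; omega, ?_⟩
    rw [vtx_winding_append]
    simp at h4
    exact h4
  · have h3 := h _ hk
    have h4 := h3.2
    rw [vtx_winding_append, vtx_winding_cons, vtx_winding_cons] at h4
    refine ⟨by have := h3.1; simp at this ⊢; omega, ?_⟩
    rw [vtx_winding_append]
    simp at h4
    exact h4

lemma vX_supp (n i : ℕ) (t : ℤ) (ψ : List Bool → ℤ) (h : VSupp n t ψ) :
    VSupp n t (lift vX0 i ψ) := by
  intro l hl
  by_cases hlen : l.length < i
  · exact absurd (lift_short _ _ _ _ hlen) hl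
  obtain ⟨p, r, rfl, rfl⟩ := split_list l i (by omega)
  rw [lift_append] at hl
  rcases r with _ | ⟨a, _ | ⟨b, r⟩⟩ <;> simp only [vX0] at hl
  · exact absurd rfl hl
  · exact absurd rfl hl
  · have h3 := h _ (neg_ne_zero.1 hl)
    have h4 := h3.2
    rw [vtx_winding_append, vtx_winding_cons, vtx_winding_cons] at h4
    refine ⟨by have := h3.1; simp at this ⊢; omega, ?_⟩
    rw [vtx_winding_append, vtx_winding_cons, vtx_winding_cons]
    linarith

lemma vRun_supp (w : List Slice) : ∀ (n m : ℕ) (t : ℤ) (ψ : List Bool → ℤ), Ok w n m →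
    VSupp n t ψ → VSupp m t (vRun w ψ) := by
  induction w with
  | nil =>
    intro n m t ψ h hψ
    simp only [Ok] at h
    subst h
    exact hψ
  | cons s w ih =>
    intro n m t ψ h hψ
    simp only [vRun, LinearMap.comp_apply]
    cases s with
    | cup i u =>
      exact ih _ _ _ _ h.2 (vCup_supp _ _ _ _ h.1 hψ)
    | cap i =>
      obtain ⟨k, rfl⟩ : ∃ k, n = k + 2 := ⟨n - 2, by have := h.1; omega⟩
      exact ih _ _ _ _ h.2 (vCap_supp _ _ _ _ (by have := h.1; omega) hψ)
    | cross i p =>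
      exact ih _ _ _ _ h.2 (vX_supp _ _ _ _ hψ)

lemma vtx_single_supp {n : ℕ} {y : List Bool} (hy : y ∈ lists n) :
    VSupp n (winding y) (Pi.single y (1 : ℤ)) := by
  intro l hl
  have : l = y := by
    by_contra hne
    exact hl (Pi.single_eq_of_ne hne 1)
  subst this
  exact ⟨mem_lists.1 hy, rfl⟩

lemma vlen_expand {k : ℕ} {ψ : List Bool → ℤ} (h : VLen k ψ) :
    ψ = ∑ z ∈ lists k, ψ z • (Pi.single z (1 : ℤ) : List Bool → ℤ) := by
  funext l
  rw [Finset.sum_apply]
  by_cases hl : l ∈ lists k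
  · rw [Finset.sum_eq_single_of_mem l hl]
    · simp
    · intro z _ hz
      simp [Pi.single_eq_of_ne (Ne.symm hz)]
  · have h0 : ψ l = 0 := by
      by_contra hne
      exact hl (mem_lists.2 (h l hne))
    rw [h0, Finset.sum_eq_zero]
    intro z hz
    have hne : l ≠ z := fun he => hl (he ▸ hz)
    simp [Pi.single_eq_of_ne hne]

/-! ### Cyclicity -/

lemma vsum_cyc (f : ℤ → ℤ) (n k : ℕ) (u v : List Slice) (hu : Ok u n k) (hv : Ok v k n) :
    ∑ y ∈ lists n, f (winding y) * vRun (u ++ v) (Pi.single y 1) y =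
      ∑ y ∈ lists k, f (winding y) * vRun (v ++ u) (Pi.single y 1) y := by
  have h1 : ∀ y ∈ lists n, vRun (u ++ v) (Pi.single y 1) y =
      ∑ z ∈ lists k, vRun u (Pi.single y 1) z * vRun v (Pi.single z 1) y := by
    intro y hy
    rw [vRun_append]
    conv_lhs => rw [vlen_expand (vRun_supp u n k _ _ hu (vtx_single_supp hy)).len]
    rw [map_sum, Finset.sum_apply]
    refine Finset.sum_congr rfl fun z _ => ?_
    rw [map_smul]
    simp
  have h2 : ∀ z ∈ lists k, vRun (v ++ u) (Pi.single z 1) z =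
      ∑ y ∈ lists n, vRun v (Pi.single z 1) y * vRun u (Pi.single y 1) z := by
    intro z hz
    rw [vRun_append]
    conv_lhs => rw [vlen_expand (vRun_supp v k n _ _ hv (vtx_single_supp hz)).len]
    rw [map_sum, Finset.sum_apply]
    refine Finset.sum_congr rfl fun y _ => ?_
    rw [map_smul]
    simp
  have e1 : ∑ y ∈ lists n, f (winding y) * vRun (u ++ v) (Pi.single y 1) y =
      ∑ y ∈ lists n, ∑ z ∈ lists k,
        f (winding y) * (vRun u (Pi.single y 1) z * vRun v (Pi.single z 1) y) :=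
    Finset.sum_congr rfl fun y hy => by rw [h1 y hy, Finset.mul_sum]
  have e2 : ∑ z ∈ lists k, f (winding z) * vRun (v ++ u) (Pi.single z 1) z =
      ∑ z ∈ lists k, ∑ y ∈ lists n,
        f (winding z) * (vRun v (Pi.single z 1) y * vRun u (Pi.single y 1) z) :=
    Finset.sum_congr rfl fun z hz => by rw [h2 z hz, Finset.mul_sum]
  rw [e1, e2, Finset.sum_comm]
  refine Finset.sum_congr rfl fun z _ => Finset.sum_congr rfl fun y hy => ?_
  by_cases h0 : vRun u (Pi.single y 1) z = 0
  · rw [h0]; ring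
  · have := (vRun_supp u n k _ _ hu (vtx_single_supp hy) z h0).2
    rw [this]
    ring

lemma vtx_ok_parity (w : List Slice) : ∀ n m : ℕ, Ok w n m → (-1 : ℤ) ^ n = (-1) ^ m := by
  induction w with
  | nil =>
    intro n m h
    simp only [Ok] at h
    rw [h]
  | cons s w ih =>
    intro n m h
    cases s with
    | cup i u =>
      rw [← ih _ _ h.2]
      ring
    | cap i =>
      obtain ⟨k, rfl⟩ : ∃ k, n = k + 2 := ⟨n - 2, by have := h.1; omega⟩
      have := ih _ _ h.2
      simp only [Nat.add_sub_cancel] at this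
      rw [← this]
      ring
    | cross i p => exact ih _ _ h.2

/-! ### Relations of the operators -/

lemma v_rel1 (n i : ℕ) (t : ℤ) (ψ : List Bool → ℤ) (h : VSupp n t ψ) (hi : i ≤ n) :
    lift vCap0 i (lift vCup0 i ψ) = (-2 : ℤ) • ψ := by
  refine VLen.ext (n := n) (vCap_supp _ _ _ _ hi (vCup_supp _ _ _ _ hi h)).len ?_ ?_
  · intro l hl
    apply h.len
    intro h0
    simp [h0] at hl
  intro l hl
  obtain ⟨p, r, rfl, rfl⟩ := split_list l i (by omega)
  have := lift_comp_append vCap0 vCup0 p 0 0 ψ r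
  simp only [Nat.add_zero, lift_zero, lift_zero'] at this
  rw [this]
  simp [vCap0, vCup0]
  ring

lemma v_rel2 (n i : ℕ) (t : ℤ) (ψ : List Bool → ℤ) (h : VSupp n t ψ) (hi : i + 1 ≤ n) :
    lift vCap0 (i + 1) (lift vCup0 i ψ) = ψ := by
  refine VLen.ext (n := n) (vCap_supp _ _ _ _ hi (vCup_supp _ _ _ _ (by omega) h)).len h.len ?_
  intro l hl
  obtain ⟨p, r, rfl, rfl⟩ := split_list l i (by omega)
  have := lift_comp_append vCap0 vCup0 p 1 0 ψ r
  simp only [Nat.add_zero, lift_zero'] at this
  rw [this]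
  rcases r with _ | ⟨a, r⟩
  · simp at hl; omega
  · cases a <;> simp [vCap0, vCup0]

lemma v_rel3 (n i : ℕ) (t : ℤ) (ψ : List Bool → ℤ) (h : VSupp n t ψ) (hi : i + 1 ≤ n) :
    lift vCap0 i (lift vCup0 (i + 1) ψ) = ψ := by
  refine VLen.ext (n := n) (vCap_supp _ _ _ _ (by omega) (vCup_supp _ _ _ _ hi h)).len h.len ?_
  intro l hl
  obtain ⟨p, r, rfl, rfl⟩ := split_list l i (by omega)
  have := lift_comp_append vCap0 vCup0 p 0 1 ψ r
  simp only [Nat.add_zero, lift_zero] at this
  rw [this]
  rcases r with _ | ⟨a, r⟩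
  · simp at hl; omega
  · cases a <;> simp [vCap0, vCup0]

lemma v_rel4 (n i k : ℕ) (t : ℤ) (ψ : List Bool → ℤ) (h : VSupp n t ψ) (hi : i + k + 2 ≤ n) :
    lift vCap0 (i + k + 2) (lift vCup0 i ψ) = lift vCup0 i (lift vCap0 (i + k) ψ) := by
  obtain ⟨m, rfl⟩ : ∃ m, n = m + 2 := ⟨n - 2, by omega⟩
  refine VLen.ext (n := m + 2) (vCap_supp _ _ _ _ (by omega) (vCup_supp _ _ _ _ (by omega) h)).len
    (vCup_supp _ _ _ _ (by omega) (vCap_supp _ _ _ _ (by omega) h)).len ?_
  intro l hl
  obtain ⟨p, r, rfl, rfl⟩ := split_list l i (by omega)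
  have h1 := lift_comp_append vCap0 vCup0 p (k + 2) 0 ψ r
  have h2 := lift_comp_append vCup0 vCap0 p 0 k ψ r
  simp only [Nat.add_zero, lift_zero, lift_zero', ← Nat.add_assoc] at h1 h2
  rw [h1, h2]
  rcases r with _ | ⟨a, _ | ⟨b, r⟩⟩
  · simp at hl; omega
  · simp at hl; omega
  · rw [lift_succ_cons, lift_succ_cons]
    simp only [vCup0]
    split_ifs with h3 h4
    · have := congrFun ((vCap0_lin.lift k).zero) r
      simpa using this
    · simp
    · have := congrFun ((vCap0_lin.lift k).smul (fun l' => ψ (p ++ l')) (-1)) r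
      simpa using this

lemma v_rel5 (n i k : ℕ) (t : ℤ) (ψ : List Bool → ℤ) (h : VSupp n t ψ) (hi : i + k + 2 ≤ n) :
    lift vCap0 i (lift vCup0 (i + k + 2) ψ) = lift vCup0 (i + k) (lift vCap0 i ψ) := by
  obtain ⟨m, rfl⟩ : ∃ m, n = m + 2 := ⟨n - 2, by omega⟩
  refine VLen.ext (n := m + 2) (vCap_supp _ _ _ _ (by omega) (vCup_supp _ _ _ _ (by omega) h)).len
    (vCup_supp _ _ _ _ (by omega) (vCap_supp _ _ _ _ (by omega) h)).len ?_
  intro l hl
  obtain ⟨p, r, rfl, rfl⟩ := split_list l i (by omega)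
  have h1 := lift_comp_append vCap0 vCup0 p 0 (k + 2) ψ r
  have h2 := lift_comp_append vCup0 vCap0 p k 0 ψ r
  simp only [Nat.add_zero, lift_zero, lift_zero', ← Nat.add_assoc] at h1 h2
  rw [h1, h2]
  simp only [vCap0, lift_succ_cons]
  have := congrFun ((vCup0_lin.lift k) (fun l' => ψ (p ++ false :: true :: l'))
    (fun l' => ψ (p ++ true :: false :: l')) 1 (-1)) r
  have h4 : (fun l => (1 : ℤ) * ψ (p ++ false :: true :: l) + -1 * ψ (p ++ true :: false :: l)) =
      fun l => ψ (p ++ false :: true :: l) - ψ (p ++ true :: false :: l) := by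
    funext l; ring
  rw [h4] at this
  have h5 : (vCap0 fun l' => ψ (p ++ l')) =
      fun l => ψ (p ++ false :: true :: l) - ψ (p ++ true :: false :: l) := by
    funext l; simp [vCap0]
  rw [h5, this]
  ring

lemma v_cross (n i : ℕ) (t : ℤ) (ψ : List Bool → ℤ) (h : VSupp n t ψ) (hi : i + 2 ≤ n) :
    lift vX0 i ψ = (-1 : ℤ) • ψ + (-1 : ℤ) • lift vCup0 i (lift vCap0 i ψ) := by
  obtain ⟨m, rfl⟩ : ∃ m, n = m + 2 := ⟨n - 2, by omega⟩
  have hs : VLen (m + 2) (lift vCup0 i (lift vCap0 i ψ)) :=
    (vCup_supp _ _ _ _ (by omega) (vCap_supp _ _ _ _ (by omega) h)).len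
  refine VLen.ext (n := m + 2) (vX_supp _ _ _ _ h).len ?_ ?_
  · intro l hl
    by_contra hne
    apply hl
    have h1 : ψ l = 0 := by
      by_contra h0
      exact hne (h.len l h0)
    have h2 : lift vCup0 i (lift vCap0 i ψ) l = 0 := by
      by_contra h0
      exact hne (hs l h0)
    simp [h1, h2]
  intro l hl
  obtain ⟨p, r, rfl, rfl⟩ := split_list l i (by omega)
  have h1 := lift_comp_append vCup0 vCap0 p 0 0 ψ r
  simp only [Nat.add_zero, lift_zero, lift_zero'] at h1
  simp only [Pi.add_apply, Pi.smul_apply, smul_eq_mul]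
  rw [h1, lift_append]
  rcases r with _ | ⟨a, _ | ⟨b, r⟩⟩
  · simp at hl; omega
  · simp at hl; omega
  · cases a <;> cases b <;> simp [vX0, vCap0, vCup0] <;> ring

theorem annular_vTr (f : ℤ → ℤ) : AnnularTrace (-2 : ℤ) (-1) (vTr f) := by
  have cong : ∀ (n : ℕ) (w w' : List Slice) (c : ℤ),
      (∀ y ∈ lists n, vRun w (Pi.single y 1) = c • vRun w' (Pi.single y 1)) →
      vTr f n w = c * vTr f n w' := by
    intro n w w' c h
    simp only [vTr]
    rw [← mul_assoc, mul_comm c, mul_assoc]
    congr 1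
    rw [Finset.mul_sum]
    refine Finset.sum_congr rfl fun y hy => ?_
    rw [← vRun_apply, ← vRun_apply, h y hy]
    simp
    ring
  refine ⟨?_, ?_, ?_, ?_, ?_, ?_, ?_⟩
  · intro n k u v hu hv
    simp only [vTr]
    rw [vtx_ok_parity u n k hu]
    congr 1
    simp only [← vRun_apply]
    exact vsum_cyc f n k u v hu hv
  · intro n i a w hi _
    refine cong n _ w (-2) fun y hy => ?_
    simp only [vRun, LinearMap.comp_apply]
    have := v_rel1 n i _ _ (vtx_single_supp hy) hi
    rw [← map_smul]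
    congr 1
  · intro n i a w hi _
    rw [cong n _ w 1 fun y hy => ?_, one_mul]
    simp only [vRun, LinearMap.comp_apply]
    have := v_rel2 n i _ _ (vtx_single_supp hy) hi
    rw [one_smul]
    congr 1
  · intro n i a w hi _
    rw [cong n _ w 1 fun y hy => ?_, one_mul]
    simp only [vRun, LinearMap.comp_apply]
    have := v_rel3 n i _ _ (vtx_single_supp hy) hi
    rw [one_smul]
    congr 1
  · intro n i k a w hi _
    rw [cong n _ (.cap (i + k) :: .cup i a :: w) 1 fun y hy => ?_, one_mul]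
    simp only [vRun, LinearMap.comp_apply]
    have := v_rel4 n i k _ _ (vtx_single_supp hy) hi
    rw [one_smul]
    congr 1
  · intro n i k a w hi _
    rw [cong n _ (.cap i :: .cup (i + k) a :: w) 1 fun y hy => ?_, one_mul]
    simp only [vRun, LinearMap.comp_apply]
    have := v_rel5 n i k _ _ (vtx_single_supp hy) hi
    rw [one_smul]
    congr 1
  · intro n i p w hi _
    simp only [vTr]
    have key : ∀ y ∈ lists n, vOps.run (.cross i p :: w) (Pi.single y 1) y =
        -1 * vOps.run w (Pi.single y 1) y +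
          -1 * vOps.run (.cap i :: .cup i true :: w) (Pi.single y 1) y := by
      intro y hy
      rw [← vRun_apply, ← vRun_apply, ← vRun_apply]
      simp only [vRun, LinearMap.comp_apply]
      have h1 : vAct (.cross i p) (Pi.single y 1) =
          (-1 : ℤ) • (Pi.single y (1 : ℤ) : List Bool → ℤ) +
          (-1 : ℤ) • vAct (.cup i true) (vAct (.cap i) (Pi.single y 1)) :=
        v_cross n i _ _ (vtx_single_supp hy) hi
      rw [h1, map_add, map_smul, map_smul]
      simp
    rw [Finset.sum_congr rfl fun y hy => by rw [key y hy]]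
    have h2 : ∀ y : List Bool, f (winding y) * (-1 * vOps.run w (Pi.single y 1) y +
          -1 * vOps.run (.cap i :: .cup i true :: w) (Pi.single y 1) y) =
        -1 * (f (winding y) * vOps.run w (Pi.single y 1) y) +
        -1 * (f (winding y) * vOps.run (.cap i :: .cup i true :: w) (Pi.single y 1) y) := by
      intro y; ring
    simp only [h2]
    rw [Finset.sum_add_distrib, ← Finset.mul_sum, ← Finset.mul_sum]
    ring

/-! ### Values on the empty stack -/

lemma vtx_sum_succ (F : List Bool → ℤ) (n : ℕ) :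
    ∑ y ∈ lists (n + 1), F y = ∑ y ∈ lists n, (F (true :: y) + F (false :: y)) := by
  rw [lists, Finset.sum_union, Finset.sum_image, Finset.sum_image, Finset.sum_add_distrib]
  · intro a _ b _ h
    simpa using h
  · intro a _ b _ h
    simpa using h
  · rw [Finset.disjoint_left]
    intro l h1 h2
    simp only [Finset.mem_image] at h1 h2
    obtain ⟨a, _, rfl⟩ := h1
    obtain ⟨b, _, hb⟩ := h2
    simp at hb

lemma vtx_sum_one (n : ℕ) : ∑ _y ∈ lists n, (1 : ℤ) = 2 ^ n := by
  induction n with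
  | zero => simp [lists]
  | succ n ih =>
    rw [vtx_sum_succ, Finset.sum_add_distrib, ih]
    ring

lemma vtx_sum_sq (n : ℕ) : ∑ y ∈ lists n, (winding y) ^ 2 = n * 2 ^ n := by
  induction n with
  | zero => simp [lists, winding]
  | succ n ih =>
    rw [vtx_sum_succ]
    have h : ∀ y : List Bool, (winding (true :: y)) ^ 2 + (winding (false :: y)) ^ 2 =
        2 * (winding y) ^ 2 + 2 * 1 := by
      intro y
      rw [vtx_winding_cons, vtx_winding_cons]
      simp
      ring
    simp only [h]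
    rw [Finset.sum_add_distrib, ← Finset.mul_sum, ← Finset.mul_sum, ih, vtx_sum_one]
    push_cast
    ring

theorem vTr_nil_one (n : ℕ) : vTr (fun _ => 1) n [] = (-2) ^ n := by
  simp only [vTr, Ops.run, one_mul, Pi.single_eq_same]
  rw [vtx_sum_one, ← mul_pow]
  norm_num

theorem vTr_nil_sq (n : ℕ) : vTr (fun x => x ^ 2) n [] = n * (-2) ^ n := by
  simp only [vTr, Ops.run, mul_one, Pi.single_eq_same]
  rw [vtx_sum_sq, mul_left_comm, ← mul_pow]
  norm_num

end Pool.Agent.Helper77.Sat
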